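import Mathlib

/-!
Problem MP_1707ab_an, the case `n = 1`: `A^1(S) = A^1(S₁) + A^1(S₂)`.

Basic definitions (Wirtinger derivatives, test functions, Cauchy transform) and the exact
statements (as `def Spec... : Prop`) of the modules.
-/

set_option autoImplicit false

open MeasureTheory Complex Set Filter Topology
open scoped ContDiff

namespace Pool.Agent.Lib.MP_1707ab_an

/-- Wirtinger derivative `∂ = (∂_x - i ∂_y) / 2` -/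
noncomputable def dz (f : ℂ → ℂ) (z : ℂ) : ℂ := (fderiv ℝ f z 1 - I * fderiv ℝ f z I) / 2

/-- Wirtinger derivative `∂̄ = (∂_x + i ∂_y) / 2` -/
noncomputable def db (f : ℂ → ℂ) (z : ℂ) : ℂ := (fderiv ℝ f z 1 + I * fderiv ℝ f z I) / 2

/-- smooth functions with compact support -/
def Test (f : ℂ → ℂ) : Prop := ContDiff ℝ ∞ f ∧ HasCompactSupport f

/-- Cauchy transform `C g (z) = (1/π) ∫ g(w) / (z - w) dA(w)` -/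
noncomputable def Cau (g : ℂ → ℂ) (z : ℂ) : ℂ := (Real.pi : ℂ)⁻¹ * ∫ w, g w / (z - w)

/-! ### Module CAUCHY (file `Cauchy.lean`) -/

/-- the Cauchy transform of a test function is smooth -/
def SpecCauSmooth : Prop := ∀ g, Test g → ContDiff ℝ ∞ (Cau g)

/-- `∂̄ C g = g` -/
def SpecDbCau : Prop := ∀ g, Test g → ∀ z, db (Cau g) z = g z

/-- `∂ C g = C ∂ g` -/
def SpecDzCau : Prop := ∀ g, Test g → ∀ z, dz (Cau g) z = Cau (dz g) z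

/-- `C ∂̄ g = g` (Cauchy-Pompeiu) -/
def SpecCauDb : Prop := ∀ g, Test g → ∀ z, Cau (db g) z = g z

/-- antisymmetry of the kernel -/
def SpecCauDual : Prop := ∀ g θ, Test g → Test θ →
  ∫ z, θ z * Cau g z = -∫ z, Cau θ z * g z

/-- decay at infinity -/
def SpecCauDecay : Prop := ∀ g, Test g → ∃ C, ∀ z, ‖Cau g z‖ ≤ C / (1 + ‖z‖)

/-- local `L^1` bound, for integrable `g` (the function `Cau g` is then locally integrable) -/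
def SpecCauL1 : Prop := ∀ R : ℝ, ∃ C : ℝ, 0 ≤ C ∧ ∀ g : ℂ → ℂ, Integrable g →
  IntegrableOn (Cau g) (Metric.ball 0 R) ∧
  ∫ z in Metric.ball (0 : ℂ) R, ‖Cau g z‖ ≤ C * ∫ z, ‖g z‖

/-! ### Module COMP (file `Comp.lean`): compactness of the Cauchy transform on `L^1`, in terms of
finitely many continuous functionals -/

def SpecComp : Prop := ∀ (X : Set ℂ) (_ : IsCompact X) (V : Set ℂ) (_ : IsOpen V) (_ : V ⊆ X)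
  (G : ℂ → ℂ) (_ : ContinuousOn G X) (R ε : ℝ) (_ : 0 < ε),
  ∃ (m : ℕ) (φ : Fin m → ℂ → ℂ), (∀ j, ContinuousOn (φ j) X) ∧
    ∀ Z, Test Z → tsupport Z ⊆ V → (∀ j, ∫ w, φ j w * Z w = 0) →
      ∫ z in Metric.ball (0 : ℂ) R, ‖Cau (fun w => G w * Z w) z‖ ≤ ε * ∫ w, ‖Z w‖

/-! ### Module WEAK (files `L2.lean`, `CZ.lean`, `Weak.lean`) -/

/-- the Beurling transform `Z ↦ ∂ C Z = C ∂ Z` contracts `L^2` (on test functions) -/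
def SpecL2 : Prop := ∀ Z, Test Z →
  Integrable (fun z => ‖Cau (dz Z) z‖ ^ 2) ∧
  ∫ z, ‖Cau (dz Z) z‖ ^ 2 ≤ ∫ z, ‖Z z‖ ^ 2

/-- weak type (1,1) of the Beurling transform on test functions -/
def SpecWeak : Prop := ∃ C : ℝ, 0 ≤ C ∧ ∀ Z, Test Z → ∀ t : ℝ, 0 < t →
  volume {z | t < ‖Cau (dz Z) z‖} ≤ ENNReal.ofReal (C * (∫ z, ‖Z z‖) / t)

/-- Kolmogorov's consequence -/
def SpecKol : Prop := ∀ R : ℝ, ∃ C : ℝ, 0 ≤ C ∧ ∀ Z, Test Z →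
  ∫ z in Metric.ball (0 : ℂ) R, ‖Cau (dz Z) z‖ ^ (1 / 2 : ℝ) ≤ C * (∫ z, ‖Z z‖) ^ (1 / 2 : ℝ)

/-! ### Module HOLO (file `Holo.lean`): sup bound of a holomorphic function by its `L^(1/2)` size -/

def SpecHolo : Prop := ∃ C : ℝ, 0 ≤ C ∧ ∀ (H : ℂ → ℂ) (a : ℂ) (r : ℝ), 0 < r →
  DifferentiableOn ℂ H (Metric.ball a r) →
  IntegrableOn (fun z => ‖H z‖ ^ (1 / 2 : ℝ)) (Metric.ball a r) →
  ‖H a‖ ^ (1 / 2 : ℝ) ≤ C / r ^ 2 * ∫ z in Metric.ball a r, ‖H z‖ ^ (1 / 2 : ℝ)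

/-! ### Module WEYL (file `Weyl.lean`) -/

/-- a continuous weak solution of `∂̄ h = g`, `∂ h = k` with `g` smooth and `k` continuous is
smooth and a classical solution -/
def SpecWeyl : Prop := ∀ (U : Set ℂ) (_ : IsOpen U) (h g k : ℂ → ℂ), ContinuousOn h U →
  ContDiffOn ℝ ∞ g U → ContinuousOn k U →
  (∀ φ, Test φ → tsupport φ ⊆ U → ∫ z, h z * db φ z = -∫ z, g z * φ z) →
  (∀ φ, Test φ → tsupport φ ⊆ U → ∫ z, h z * dz φ z = -∫ z, k z * φ z) →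
  ContDiffOn ℝ ∞ h U ∧ (∀ z ∈ U, db h z = g z) ∧ (∀ z ∈ U, dz h z = k z)

/-! ### Module ABS (file `Abs.lean`): abstract functional analysis -/

def SpecAbs : Prop := ∀ (T E : Type) [SeminormedAddCommGroup T] [NormedSpace ℂ T]
  [NormedAddCommGroup E] [NormedSpace ℂ E] [CompleteSpace E]
  (P : E →L[ℂ] T →L[ℂ] ℂ) (_ : ∀ e, ‖P e‖ = ‖e‖)
  (q : T → ℝ) (_ : ∀ Z, 0 ≤ q Z) (_ : ∀ Z Z', q (Z + Z') ≤ q Z + q Z')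
  (Cq : ℝ) (_ : ∀ Z, q Z ≤ Cq * ‖Z‖ ^ (1 / 2 : ℝ))
  (_ : ∀ ε : ℝ, 0 < ε → ∃ s : Finset E, ∀ Z, (∀ e ∈ s, P e Z = 0) → q Z ≤ ε * ‖Z‖ ^ (1 / 2 : ℝ))
  (R : Submodule ℂ T) (Λ : T →ₗ[ℂ] ℂ) (CΛ : ℝ)
  (_ : ∀ Z ∈ R, ‖Λ Z‖ ^ (1 / 2 : ℝ) ≤ CΛ * q Z),
  ∃ e : E, ∀ Z ∈ R, Λ Z = P e Z

/-! ### The class `A^1` and the local and global theorems -/

/-- `A^1(S)`: holomorphic off `S`, and `f`, `f'` have limits at every boundary point of `S` -/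
def A1 (S : Set ℂ) (f : ℂ → ℂ) : Prop :=
  DifferentiableOn ℂ f Sᶜ ∧ ∀ z ∈ frontier S,
    (∃ y, Tendsto f (𝓝[Sᶜ] z) (𝓝 y)) ∧ (∃ y, Tendsto (deriv f) (𝓝[Sᶜ] z) (𝓝 y))

/-- module LOCAL (file `Local.lean`) -/
def SpecLocal : Prop := ∀ (S : Set ℂ) (_ : IsClosed S) (f : ℂ → ℂ) (_ : A1 S f)
  (θ χ : ℂ → ℂ) (_ : Test θ) (_ : Test χ) (_ : ∀ z ∈ tsupport θ, ∀ᶠ w in 𝓝 z, χ w = 1),
  ∃ h : ℂ → ℂ, ContDiffOn ℝ ∞ h (S ∩ tsupport χ)ᶜ ∧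
    (∀ z ∈ (S ∩ tsupport χ)ᶜ, db h z = f z * θ z) ∧
    ∀ z ∈ frontier (S ∩ tsupport χ),
      (∃ y, Tendsto h (𝓝[(S ∩ tsupport χ)ᶜ] z) (𝓝 y)) ∧
      (∃ y, Tendsto (dz h) (𝓝[(S ∩ tsupport χ)ᶜ] z) (𝓝 y))

/-- module GLOBAL (file `Global.lean`): `theorem global (hL : SpecLocal) : SpecGlobal` -/
def SpecGlobal : Prop := ∀ (S S₁ S₂ : Set ℂ), IsClosed S → IsClosed S₁ → IsClosed S₂ →
  S = S₁ ∪ S₂ →
  (∀ z ∈ S, (∃ U ∈ 𝓝 z, U ∩ S ⊆ S₁) ∨ (∃ U ∈ 𝓝 z, U ∩ S ⊆ S₂)) →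
  ∀ f : ℂ → ℂ, A1 S f → ∃ f₁ f₂, A1 S₁ f₁ ∧ A1 S₂ f₂ ∧ EqOn f (f₁ + f₂) Sᶜ

end Pool.Agent.Lib.MP_1707ab_an
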