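import Pool.Agent.Lib.MP_1707ab_an.Local1

section
/-!
Module LOCAL, part 2: the normed space of pairs of test functions supported in `V`, and its
pairing with pairs of continuous functions on the closure of `V`.
-/
set_option autoImplicit false

open MeasureTheory Complex Set Filter Topology
open scoped ContDiff

namespace Pool.Agent.Lib.MP_1707ab_an

lemma tsupport_add_subset {f g : ℂ → ℂ} {V : Set ℂ} (hf : tsupport f ⊆ V) (hg : tsupport g ⊆ V) :
    tsupport (f + g) ⊆ V := (tsupport_add f g).trans (union_subset hf hg)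

lemma test_zero : Test (0 : ℂ → ℂ) := ⟨contDiff_const, HasCompactSupport.zero⟩

/-- pairs of test functions supported in `V` -/
def TS (V : Set ℂ) : Submodule ℂ ((ℂ → ℂ) × (ℂ → ℂ)) where
  carrier := {p | (Test p.1 ∧ tsupport p.1 ⊆ V) ∧ (Test p.2 ∧ tsupport p.2 ⊆ V)}
  add_mem' := by
    rintro p q ⟨⟨h1, h2⟩, ⟨h3, h4⟩⟩ ⟨⟨h5, h6⟩, ⟨h7, h8⟩⟩
    exact ⟨⟨h1.add h5, tsupport_add_subset h2 h6⟩, ⟨h3.add h7, tsupport_add_subset h4 h8⟩⟩
  zero_mem' := by
    refine ⟨⟨test_zero, ?_⟩, ⟨test_zero, ?_⟩⟩ <;> simp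
  smul_mem' := by
    rintro c p ⟨⟨h1, h2⟩, ⟨h3, h4⟩⟩
    refine ⟨⟨h1.const_mul c, ?_⟩, ⟨h3.const_mul c, ?_⟩⟩
    · exact (tsupport_mul_subset (fun _ => c) p.1).trans h2
    · exact (tsupport_mul_subset (fun _ => c) p.2).trans h4

/-- `TS V` as a type with the `L^1` norm -/
def TT (V : Set ℂ) : Type := TS V

noncomputable instance (V : Set ℂ) : AddCommGroup (TT V) := inferInstanceAs (AddCommGroup (TS V))
noncomputable instance (V : Set ℂ) : Module ℂ (TT V) := inferInstanceAs (Module ℂ (TS V))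

namespace TT

variable {V : Set ℂ}

/-- first component -/
def fst (p : TT V) : ℂ → ℂ := p.1.1
/-- second component -/
def snd (p : TT V) : ℂ → ℂ := p.1.2

lemma test_fst (p : TT V) : Test p.fst := p.2.1.1
lemma test_snd (p : TT V) : Test p.snd := p.2.2.1
lemma supp_fst (p : TT V) : tsupport p.fst ⊆ V := p.2.1.2
lemma supp_snd (p : TT V) : tsupport p.snd ⊆ V := p.2.2.2

@[simp] lemma fst_add (p q : TT V) (z : ℂ) : (p + q).fst z = p.fst z + q.fst z := rfl
@[simp] lemma snd_add (p q : TT V) (z : ℂ) : (p + q).snd z = p.snd z + q.snd z := rfl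
@[simp] lemma fst_smul (c : ℂ) (p : TT V) (z : ℂ) : (c • p).fst z = c * p.fst z := rfl
@[simp] lemma snd_smul (c : ℂ) (p : TT V) (z : ℂ) : (c • p).snd z = c * p.snd z := rfl

/-- constructor -/
def mk (f g : ℂ → ℂ) (h1 : Test f) (h2 : tsupport f ⊆ V) (h3 : Test g) (h4 : tsupport g ⊆ V) :
    TT V := ⟨(f, g), ⟨⟨h1, h2⟩, ⟨h3, h4⟩⟩⟩

@[simp] lemma fst_mk (f g : ℂ → ℂ) (h1 : Test f) (h2 : tsupport f ⊆ V) (h3 : Test g)
    (h4 : tsupport g ⊆ V) : (mk f g h1 h2 h3 h4).fst = f := rfl
@[simp] lemma snd_mk (f g : ℂ → ℂ) (h1 : Test f) (h2 : tsupport f ⊆ V) (h3 : Test g)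
    (h4 : tsupport g ⊆ V) : (mk f g h1 h2 h3 h4).snd = g := rfl

noncomputable instance : Norm (TT V) := ⟨fun p => (∫ z, ‖p.fst z‖) + ∫ z, ‖p.snd z‖⟩

lemma norm_def (p : TT V) : ‖p‖ = (∫ z, ‖p.fst z‖) + ∫ z, ‖p.snd z‖ := rfl

lemma norm_fst_le (p : TT V) : ∫ z, ‖p.fst z‖ ≤ ‖p‖ := by
  rw [norm_def]
  have : 0 ≤ ∫ z, ‖p.snd z‖ := integral_nonneg fun z => norm_nonneg _
  linarith

lemma norm_snd_le (p : TT V) : ∫ z, ‖p.snd z‖ ≤ ‖p‖ := by
  rw [norm_def]
  have : 0 ≤ ∫ z, ‖p.fst z‖ := integral_nonneg fun z => norm_nonneg _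
  linarith

lemma core : SeminormedSpace.Core ℂ (TT V) where
  norm_nonneg p := add_nonneg (integral_nonneg fun z => norm_nonneg _)
    (integral_nonneg fun z => norm_nonneg _)
  norm_smul c p := by
    simp only [norm_def, fst_smul, snd_smul, norm_mul, integral_const_mul]
    ring
  norm_triangle p q := by
    simp only [norm_def, fst_add, snd_add]
    have h1 : ∫ z, ‖p.fst z + q.fst z‖ ≤ (∫ z, ‖p.fst z‖) + ∫ z, ‖q.fst z‖ := by
      rw [← integral_add p.test_fst.integrable.norm q.test_fst.integrable.norm]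
      exact integral_mono (p.test_fst.integrable.add q.test_fst.integrable).norm
        (p.test_fst.integrable.norm.add q.test_fst.integrable.norm) fun z => norm_add_le _ _
    have h2 : ∫ z, ‖p.snd z + q.snd z‖ ≤ (∫ z, ‖p.snd z‖) + ∫ z, ‖q.snd z‖ := by
      rw [← integral_add p.test_snd.integrable.norm q.test_snd.integrable.norm]
      exact integral_mono (p.test_snd.integrable.add q.test_snd.integrable).norm
        (p.test_snd.integrable.norm.add q.test_snd.integrable.norm) fun z => norm_add_le _ _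
    linarith

noncomputable instance : SeminormedAddCommGroup (TT V) := SeminormedAddCommGroup.ofCore core
noncomputable instance : NormedSpace ℂ (TT V) where
  norm_smul_le c p := (core.norm_smul c p).le

end TT

section pairing

variable {X V : Set ℂ}

/-- extension by zero of a continuous function on `X` -/
noncomputable def ext0 (h : C(X, ℂ)) (w : ℂ) : ℂ :=
  open Classical in if hw : w ∈ X then h ⟨w, hw⟩ else 0

lemma ext0_of_mem (h : C(X, ℂ)) {w : ℂ} (hw : w ∈ X) : ext0 h w = h ⟨w, hw⟩ := by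
  simp [ext0, hw]

lemma ext0_add (h k : C(X, ℂ)) (w : ℂ) : ext0 (h + k) w = ext0 h w + ext0 k w := by
  unfold ext0
  split_ifs <;> simp

lemma ext0_smul (c : ℂ) (h : C(X, ℂ)) (w : ℂ) : ext0 (c • h) w = c * ext0 h w := by
  unfold ext0
  split_ifs <;> simp

lemma ext0_zero (w : ℂ) : ext0 (0 : C(X, ℂ)) w = 0 := by
  unfold ext0
  split_ifs <;> simp

lemma continuousOn_ext0 (h : C(X, ℂ)) : ContinuousOn (ext0 h) X := by
  rw [continuousOn_iff_continuous_domRestrict]
  have : X.domRestrict (ext0 h) = h := by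
    funext w
    rw [Set.domRestrict_apply, ext0_of_mem h w.2]
  rw [this]
  exact h.continuous

lemma norm_ext0_le [CompactSpace X] (h : C(X, ℂ)) (w : ℂ) : ‖ext0 h w‖ ≤ ‖h‖ := by
  unfold ext0
  split_ifs with hw
  · exact h.norm_coe_le_norm _
  · simp

lemma integrable_ext0_mul (hV : IsOpen V) (hVX : V ⊆ X) (h : C(X, ℂ)) {φ : ℂ → ℂ} (hφ : Test φ)
    (hs : tsupport φ ⊆ V) : Integrable (fun w => ext0 h w * φ w) :=
  Test.integrable_mul hV ((continuousOn_ext0 h).mono hVX) hφ hs

/-- the pairing -/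
noncomputable def pairing [CompactSpace X] (hV : IsOpen V) (hVX : V ⊆ X) :
    (C(X, ℂ) × C(X, ℂ)) →L[ℂ] TT V →L[ℂ] ℂ :=
  LinearMap.mkContinuous₂ (LinearMap.mk₂ ℂ
    (fun (e : C(X, ℂ) × C(X, ℂ)) (p : TT V) =>
      (∫ w, ext0 e.1 w * p.fst w) + ∫ w, ext0 e.2 w * p.snd w)
    (fun e e' p => by
      simp only [Prod.fst_add, Prod.snd_add, ext0_add, add_mul]
      rw [integral_add (integrable_ext0_mul hV hVX _ p.test_fst p.supp_fst)
        (integrable_ext0_mul hV hVX _ p.test_fst p.supp_fst),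
        integral_add (integrable_ext0_mul hV hVX _ p.test_snd p.supp_snd)
        (integrable_ext0_mul hV hVX _ p.test_snd p.supp_snd)]
      ring)
    (fun c e p => by
      simp only [Prod.smul_fst, Prod.smul_snd, ext0_smul, mul_assoc, integral_const_mul,
        smul_eq_mul]
      ring)
    (fun e p q => by
      simp only [TT.fst_add, TT.snd_add, mul_add]
      rw [integral_add (integrable_ext0_mul hV hVX _ p.test_fst p.supp_fst)
        (integrable_ext0_mul hV hVX _ q.test_fst q.supp_fst),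
        integral_add (integrable_ext0_mul hV hVX _ p.test_snd p.supp_snd)
        (integrable_ext0_mul hV hVX _ q.test_snd q.supp_snd)]
      ring)
    (fun c e p => by
      simp only [TT.fst_smul, TT.snd_smul, mul_left_comm _ c, integral_const_mul, smul_eq_mul]
      ring)) 1 (fun e p => by
      simp only [LinearMap.mk₂_apply, one_mul]
      have h1 : ‖∫ w, ext0 e.1 w * p.fst w‖ ≤ ‖e‖ * ∫ w, ‖p.fst w‖ := by
        rw [← integral_const_mul]
        refine norm_integral_le_of_norm_le (p.test_fst.integrable.norm.const_mul _)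
          (Eventually.of_forall fun w => ?_)
        rw [norm_mul]
        exact mul_le_mul_of_nonneg_right ((norm_ext0_le _ _).trans (norm_fst_le e))
          (norm_nonneg _)
      have h2 : ‖∫ w, ext0 e.2 w * p.snd w‖ ≤ ‖e‖ * ∫ w, ‖p.snd w‖ := by
        rw [← integral_const_mul]
        refine norm_integral_le_of_norm_le (p.test_snd.integrable.norm.const_mul _)
          (Eventually.of_forall fun w => ?_)
        rw [norm_mul]
        exact mul_le_mul_of_nonneg_right ((norm_ext0_le _ _).trans (norm_snd_le e))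
          (norm_nonneg _)
      rw [TT.norm_def, mul_add]
      exact (norm_add_le _ _).trans (add_le_add h1 h2))

lemma pairing_apply [CompactSpace X] (hV : IsOpen V) (hVX : V ⊆ X) (e : C(X, ℂ) × C(X, ℂ))
    (p : TT V) : pairing hV hVX e p =
      (∫ w, ext0 e.1 w * p.fst w) + ∫ w, ext0 e.2 w * p.snd w := rfl

lemma norm_pairing_le [CompactSpace X] (hV : IsOpen V) (hVX : V ⊆ X) (e : C(X, ℂ) × C(X, ℂ)) :
    ‖pairing hV hVX e‖ ≤ ‖e‖ := by
  have h := (pairing hV hVX (X := X)).le_opNorm e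
  have h2 : ‖pairing hV hVX (X := X)‖ ≤ 1 := LinearMap.mkContinuous₂_norm_le _ zero_le_one _
  calc _ ≤ _ := h
    _ ≤ 1 * ‖e‖ := by gcongr
    _ = ‖e‖ := one_mul _

end pairing

end Pool.Agent.Lib.MP_1707ab_an
end

section
/-!
Module LOCAL, part 3: the pairing is isometric.
-/
set_option autoImplicit false

open MeasureTheory Complex Set Filter Topology
open scoped ContDiff ComplexConjugate

namespace Pool.Agent.Lib.MP_1707ab_an

/-- approximate point evaluation by a test function of `L^1` norm one -/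
lemma exists_test_approx {V : Set ℂ} (hV : IsOpen V) {x : ℂ} (hx : x ∈ V) {F : ℂ → ℂ}
    (hF : ContinuousOn F V) {c : ℝ} (hc : c < ‖F x‖) :
    ∃ φ, Test φ ∧ tsupport φ ⊆ V ∧ ∫ z, ‖φ z‖ = 1 ∧ c ≤ ‖∫ z, F z * φ z‖ := by
  have hδ : 0 < ‖F x‖ - c := sub_pos.2 hc
  obtain ⟨r, hr, hrV⟩ := Metric.isOpen_iff.1 hV x hx
  have hcont : ContinuousAt F x := hF.continuousAt (hV.mem_nhds hx)
  obtain ⟨s, hs, hsF⟩ := Metric.continuousAt_iff.1 hcont _ hδ
  set ρ := min r s / 2 with hρ
  have hρ0 : 0 < ρ := by positivity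
  have hρr : ρ < r := by
    have : min r s ≤ r := min_le_left _ _
    rw [hρ]; linarith
  have hρs : ρ < s := by
    have : min r s ≤ s := min_le_right _ _
    rw [hρ]; linarith
  let b : ContDiffBump x := ⟨ρ / 2, ρ, by positivity, by linarith⟩
  set φ : ℂ → ℂ := fun z => ((b.normed volume z : ℝ) : ℂ) with hφ
  have hφd : ContDiff ℝ ∞ φ := ofRealCLM.contDiff.comp b.contDiff_normed
  have hsupp : tsupport φ ⊆ Metric.closedBall x ρ := by
    have h1 : Function.support φ ⊆ Metric.ball x ρ := by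
      intro z hz
      simp only [hφ, Function.mem_support, ne_eq, ofReal_eq_zero] at hz
      have : z ∈ Function.support (b.normed volume) := hz
      rwa [b.support_normed_eq] at this
    exact closure_minimal (h1.trans Metric.ball_subset_closedBall) Metric.isClosed_closedBall
  have hφT : Test φ := ⟨hφd, HasCompactSupport.of_support_subset_isCompact
    (isCompact_closedBall x ρ) ((subset_tsupport φ).trans hsupp)⟩
  have hφV : tsupport φ ⊆ V := hsupp.trans ((Metric.closedBall_subset_ball hρr).trans hrV)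
  have hnorm : ∀ z, ‖φ z‖ = b.normed volume z := fun z => by
    simp only [hφ, norm_real, Real.norm_eq_abs, abs_of_nonneg (b.nonneg_normed z)]
  have hint : ∫ z, φ z = 1 := by
    have : ∫ z, φ z = ((∫ z, b.normed volume z : ℝ) : ℂ) := integral_ofReal
    rw [this, b.integral_normed]
    simp
  refine ⟨φ, hφT, hφV, ?_, ?_⟩
  · simp only [hnorm, b.integral_normed]
  · have e1 : (∫ z, F z * φ z) - F x = ∫ z, (F z - F x) * φ z := by
      have : F x = ∫ z, F x * φ z := by rw [integral_const_mul, hint, mul_one]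
      conv_lhs => rw [this]
      rw [← integral_sub (Test.integrable_mul hV hF hφT hφV) (hφT.integrable.const_mul _)]
      congr 1
      funext z
      ring
    have e2 : ‖(∫ z, F z * φ z) - F x‖ ≤ ‖F x‖ - c := by
      rw [e1]
      calc ‖∫ z, (F z - F x) * φ z‖ ≤ ∫ z, (‖F x‖ - c) * b.normed volume z := by
            refine norm_integral_le_of_norm_le (b.integrable_normed.const_mul _)
              (Eventually.of_forall fun z => ?_)
            rw [norm_mul, hnorm]
            by_cases hz : z ∈ Metric.ball x ρ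
            · refine mul_le_mul_of_nonneg_right ?_ (b.nonneg_normed z)
              rw [← dist_eq_norm]
              exact (hsF (lt_trans (Metric.mem_ball.1 hz) hρs)).le
            · have : b.normed volume z = 0 := by
                have h3 : z ∉ Function.support (b.normed volume) := by
                  rw [b.support_normed_eq]
                  exact hz
                simpa using h3
              rw [this]
              simp
        _ = ‖F x‖ - c := by rw [integral_const_mul, b.integral_normed, mul_one]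
    have e3 := norm_sub_norm_le (F x) (∫ z, F z * φ z)
    rw [norm_sub_rev] at e3
    linarith

lemma norm_pairing {V : Set ℂ} [CompactSpace (closure V)] (hV : IsOpen V)
    (e : C(closure V, ℂ) × C(closure V, ℂ)) : ‖pairing hV subset_closure e‖ = ‖e‖ := by
  refine le_antisymm (norm_pairing_le hV _ e) ?_
  have key : ∀ h : C(closure V, ℂ), ∀ M : ℝ, 0 ≤ M →
      (∀ φ, Test φ → tsupport φ ⊆ V → ‖∫ z, ext0 h z * φ z‖ ≤ M * ∫ z, ‖φ z‖) → ‖h‖ ≤ M := by
    intro h M hM hb
    have h1 : ∀ x ∈ V, ‖ext0 h x‖ ≤ M := by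
      intro x hx
      by_contra hc
      push Not at hc
      obtain ⟨c, hc1, hc2⟩ := exists_between hc
      obtain ⟨φ, hφ, hs, hn, hi⟩ := exists_test_approx hV hx
        ((continuousOn_ext0 h).mono subset_closure) hc2
      have := hb φ hφ hs
      rw [hn] at this
      linarith
    rw [ContinuousMap.norm_le _ hM]
    intro x
    have h2 : closure V ⊆ closure V ∩ (ext0 h) ⁻¹' Metric.closedBall 0 M := by
      have hcl : IsClosed (closure V ∩ (ext0 h) ⁻¹' Metric.closedBall 0 M) :=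
        (continuousOn_ext0 h).preimage_isClosed_of_isClosed isClosed_closure
          Metric.isClosed_closedBall
      refine closure_minimal (fun w hw => ⟨subset_closure hw, ?_⟩) hcl
      simpa using h1 w hw
    have h3 := (h2 x.2).2
    simp only [mem_preimage, Metric.mem_closedBall, dist_zero_right] at h3
    rwa [ext0_of_mem h x.2] at h3
  have hP := fun p => (pairing hV subset_closure e).le_opNorm p
  rw [Prod.norm_def]
  refine max_le ?_ ?_
  · refine key e.1 _ (norm_nonneg _) fun φ hφ hs => ?_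
    have := hP (TT.mk φ 0 hφ hs test_zero (by simp))
    rw [pairing_apply, TT.norm_def] at this
    simpa using this
  · refine key e.2 _ (norm_nonneg _) fun φ hφ hs => ?_
    have := hP (TT.mk 0 φ test_zero (by simp) hφ hs)
    rw [pairing_apply, TT.norm_def] at this
    simpa using this

end Pool.Agent.Lib.MP_1707ab_an
end

section
/-!
Module LOCAL, part 4: the operator `F` and its `L^(1/2)` bounds.
-/
set_option autoImplicit false

open MeasureTheory Complex Set Filter Topology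
open scoped ContDiff ComplexConjugate

namespace Pool.Agent.Lib.MP_1707ab_an

/-! ### the `L^(1/2)` quantity -/

/-- `∫_{|z| < R} |u|^(1/2)` -/
noncomputable def hn (R : ℝ) (u : ℂ → ℂ) : ℝ :=
  ∫ z in Metric.ball (0 : ℂ) R, ‖u z‖ ^ (1 / 2 : ℝ)

/-- `∫_{|z| < R} |u|` -/
noncomputable def n1 (R : ℝ) (u : ℂ → ℂ) : ℝ := ∫ z in Metric.ball (0 : ℂ) R, ‖u z‖

lemma integrableOn_ball_of_continuous {u : ℂ → ℝ} (hu : Continuous u) (R : ℝ) :
    IntegrableOn u (Metric.ball (0 : ℂ) R) :=
  (hu.continuousOn.integrableOn_compact (isCompact_closedBall (0 : ℂ) R)).mono_set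
    Metric.ball_subset_closedBall

lemma continuous_half {u : ℂ → ℂ} (hu : Continuous u) :
    Continuous fun z => ‖u z‖ ^ (1 / 2 : ℝ) :=
  hu.norm.rpow_const fun _ => Or.inr (by norm_num)

lemma hn_nonneg (R : ℝ) (u : ℂ → ℂ) : 0 ≤ hn R u :=
  integral_nonneg fun _ => by positivity

lemma n1_nonneg (R : ℝ) (u : ℂ → ℂ) : 0 ≤ n1 R u := integral_nonneg fun _ => norm_nonneg _

lemma hn_add {u v : ℂ → ℂ} (hu : Continuous u) (hv : Continuous v) (R : ℝ) :
    hn R (fun z => u z + v z) ≤ hn R u + hn R v := by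
  unfold hn
  rw [← integral_add (integrableOn_ball_of_continuous (continuous_half hu) R)
    (integrableOn_ball_of_continuous (continuous_half hv) R)]
  refine integral_mono (integrableOn_ball_of_continuous (continuous_half (hu.add hv)) R)
    ((integrableOn_ball_of_continuous (continuous_half hu) R).add
    (integrableOn_ball_of_continuous (continuous_half hv) R)) fun z => ?_
  calc ‖u z + v z‖ ^ (1 / 2 : ℝ) ≤ (‖u z‖ + ‖v z‖) ^ (1 / 2 : ℝ) :=
        Real.rpow_le_rpow (norm_nonneg _) (norm_add_le _ _) (by norm_num)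
    _ ≤ ‖u z‖ ^ (1 / 2 : ℝ) + ‖v z‖ ^ (1 / 2 : ℝ) :=
        Real.rpow_add_le_add_rpow (norm_nonneg _) (norm_nonneg _) (by norm_num) (by norm_num)

lemma hn_neg (u : ℂ → ℂ) (R : ℝ) : hn R (fun z => -u z) = hn R u := by
  simp [hn]

lemma hn_const_mul (c : ℂ) (u : ℂ → ℂ) (R : ℝ) :
    hn R (fun z => c * u z) = ‖c‖ ^ (1 / 2 : ℝ) * hn R u := by
  unfold hn
  rw [← integral_const_mul]
  congr 1
  funext z
  rw [norm_mul, Real.mul_rpow (norm_nonneg _) (norm_nonneg _)]

lemma hn_mul_le {a u : ℂ → ℂ} (ha : Continuous a) (hu : Continuous u) {R M : ℝ}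
    (hM : ∀ z ∈ Metric.ball (0 : ℂ) R, ‖a z‖ ≤ M) :
    hn R (fun z => a z * u z) ≤ M ^ (1 / 2 : ℝ) * hn R u := by
  unfold hn
  rw [← integral_const_mul]
  refine setIntegral_mono_on (integrableOn_ball_of_continuous (continuous_half (ha.mul hu)) R)
    ((integrableOn_ball_of_continuous (continuous_half hu) R).const_mul _)
    Metric.isOpen_ball.measurableSet fun z hz => ?_
  rw [norm_mul, Real.mul_rpow (norm_nonneg _) (norm_nonneg _)]
  exact mul_le_mul_of_nonneg_right (Real.rpow_le_rpow (norm_nonneg _) (hM z hz) (by norm_num))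
    (by positivity)

/-- constant in the Cauchy-Schwarz inequality -/
noncomputable def AR (R : ℝ) : ℝ := (volume.real (Metric.ball (0 : ℂ) R)) ^ (1 / 2 : ℝ)

lemma AR_nonneg (R : ℝ) : 0 ≤ AR R := by unfold AR; positivity

lemma hn_le_n1 {u : ℂ → ℂ} (hu : Continuous u) (R : ℝ) :
    hn R u ≤ AR R * (n1 R u) ^ (1 / 2 : ℝ) := by
  have : IsFiniteMeasure (volume.restrict (Metric.ball (0 : ℂ) R)) :=
    ⟨by simpa using measure_ball_lt_top (μ := (volume : Measure ℂ)) (x := 0) (r := R)⟩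
  have hb : ∃ C, ∀ z ∈ Metric.closedBall (0 : ℂ) R, ‖‖u z‖ ^ (1 / 2 : ℝ)‖ ≤ C :=
    (isCompact_closedBall (0 : ℂ) R).exists_bound_of_continuousOn
      (continuous_half hu).continuousOn
  obtain ⟨C, hC⟩ := hb
  have hm : MemLp (fun z => ‖u z‖ ^ (1 / 2 : ℝ)) (ENNReal.ofReal 2)
      (volume.restrict (Metric.ball (0 : ℂ) R)) := by
    refine MemLp.of_bound (continuous_half hu).aestronglyMeasurable C ?_
    filter_upwards [ae_restrict_mem Metric.isOpen_ball.measurableSet] with z hz
    exact hC z (Metric.ball_subset_closedBall hz)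
  have h := integral_mul_le_Lp_mul_Lq_of_nonneg (μ := volume.restrict (Metric.ball (0 : ℂ) R))
    (p := 2) (q := 2) Real.HolderConjugate.two_two (f := fun z => ‖u z‖ ^ (1 / 2 : ℝ))
    (g := fun _ => 1) (Eventually.of_forall fun z => by positivity)
    (Eventually.of_forall fun z => zero_le_one) hm (memLp_const _)
  simp only [mul_one, Real.one_rpow, integral_const, smul_eq_mul, MeasurableSet.univ,
    measureReal_restrict_apply, univ_inter] at h
  unfold hn n1 AR
  refine h.trans (le_of_eq ?_)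
  rw [mul_comm]
  congr 3
  funext z
  rw [← Real.rpow_mul (norm_nonneg _)]
  norm_num

lemma n1_mul_le {a u : ℂ → ℂ} (ha : Continuous a) (hu : Continuous u) {R M : ℝ}
    (hM : ∀ z, ‖a z‖ ≤ M) : n1 R (fun z => a z * u z) ≤ M * n1 R u := by
  unfold n1
  rw [← integral_const_mul]
  refine integral_mono (integrableOn_ball_of_continuous (ha.mul hu).norm R)
    ((integrableOn_ball_of_continuous hu.norm R).const_mul _) fun z => ?_
  simp only [norm_mul]
  exact mul_le_mul_of_nonneg_right (hM z) (norm_nonneg _)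

/-! ### approximation by test functions -/

lemma exists_cutoff_real (R : ℝ) : ∃ b : ℂ → ℝ, ContDiff ℝ ∞ b ∧ HasCompactSupport b ∧
      ∀ z ∈ Metric.closedBall (0 : ℂ) R, b z = 1 := by
  have hR : R < max R 1 + 1 := by have := le_max_left R 1; linarith
  have hR0 : 0 < max R 1 + 1 := by positivity
  let b : ContDiffBump (0 : ℂ) := ⟨max R 1 + 1, max R 1 + 2, hR0, by linarith⟩
  refine ⟨b, b.contDiff, b.hasCompactSupport, fun z hz => b.one_of_mem_closedBall ?_⟩
  simp only [Metric.mem_closedBall, dist_zero_right] at hz ⊢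
  exact hz.trans hR.le

lemma exists_cutoff (R : ℝ) : ∃ b : ℂ → ℂ, Test b ∧
      ∀ z ∈ Metric.closedBall (0 : ℂ) R, b z = 1 := by
  obtain ⟨b, hb1, hb2, hb3⟩ := exists_cutoff_real R
  refine ⟨fun z => (b z : ℂ), ⟨ofRealCLM.contDiff.comp hb1, ?_⟩, fun z hz => ?_⟩
  · exact hb2.comp_left (g := ((↑) : ℝ → ℂ)) ofReal_zero
  · simp only [hb3 z hz, ofReal_one]

lemma exists_smooth_close {G : ℂ → ℂ} (hG : Continuous G) {η : ℝ} (hη : 0 < η) :
    ∃ φ : ℂ → ℂ, ContDiff ℝ ∞ φ ∧ ∀ z, dist (φ z) (G z) < η := by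
  obtain ⟨g, hg, hgG, -⟩ := Continuous.exists_contDiff_approx (E := ℂ) (F := ℂ)
    (ε := fun _ => η) ⊤ hG continuous_const (fun _ => hη)
  exact ⟨g, hg, hgG⟩

lemma exists_test_close {G : ℂ → ℂ} (hG : Continuous G) (R : ℝ) {η : ℝ} (hη : 0 < η) :
    ∃ φ, Test φ ∧ ∀ z ∈ Metric.closedBall (0 : ℂ) R, ‖G z - φ z‖ ≤ η := by
  obtain ⟨g, hg, hgG⟩ := exists_smooth_close hG hη
  obtain ⟨b, hb, hb1⟩ := exists_cutoff R
  refine ⟨fun z => g z * b z, hb.mul_left hg, fun z hz => ?_⟩
  simp only [hb1 z hz, mul_one]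
  rw [← dist_eq_norm, dist_comm]
  exact (hgG z).le

end Pool.Agent.Lib.MP_1707ab_an
end

section
/-!
Module LOCAL, part 5: the operator `F`.
-/
set_option autoImplicit false

open MeasureTheory Complex Set Filter Topology
open scoped ContDiff ComplexConjugate

namespace Pool.Agent.Lib.MP_1707ab_an

/-- the facts on the Cauchy transform used below -/
structure CauAPI : Prop where
  smooth : SpecCauSmooth
  dbCau : SpecDbCau
  dzCau : SpecDzCau
  cauDb : SpecCauDb
  dual : SpecCauDual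
  add : ∀ f g, Test f → Test g → ∀ z, Cau (fun w => f w + g w) z = Cau f z + Cau g z
  l1 : SpecCauL1
  kol : SpecKol
  comp : SpecComp

namespace CauAPI

variable (A : CauAPI)
include A

lemma sub (f g : ℂ → ℂ) (hf : Test f) (hg : Test g) (z : ℂ) :
    Cau (fun w => f w - g w) z = Cau f z - Cau g z := by
  simp only [sub_eq_add_neg]
  rw [A.add f _ hf hg.neg, cau_neg]

lemma continuous {f : ℂ → ℂ} (hf : Test f) : Continuous (Cau f) := (A.smooth f hf).continuous

/-- the commutator identity -/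
lemma commutator {s g : ℂ → ℂ} (hs : Test s) (hg : Test g) (z : ℂ) :
    s z * Cau (dz g) z = Cau (dz fun w => s w * g w) z - dz s z * Cau g z +
      Cau (dz fun w => db s w * Cau g w) z := by
  have hC := A.smooth g hg
  have hCd : ∀ w, DifferentiableAt ℝ (Cau g) w := fun w => hC.differentiable (by simp) w
  have t1 : Test fun w => Cau g w * s w := hs.mul_left hC
  have t1' : Test fun w => s w * Cau g w := by simpa only [mul_comm] using t1
  have t2 : Test fun w => db s w * Cau g w := by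
    have := hs.db.mul_left hC
    simpa only [mul_comm] using this
  have t3 : Test fun w => s w * g w := hg.mul_left hs.1
  have e1 : ∀ w, s w * Cau g w = Cau (fun w => db s w * Cau g w) w + Cau (fun w => s w * g w) w := by
    intro w
    rw [← A.add _ _ t2 t3, ← A.cauDb _ t1' w]
    congr 1
    funext v
    rw [db_mul (hs.differentiable v) (hCd v), A.dbCau g hg]
  have e2 : dz (fun w => s w * Cau g w) z =
      Cau (dz fun w => db s w * Cau g w) z + Cau (dz fun w => s w * g w) z := by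
    have h3 : (fun w => s w * Cau g w) =
        fun w => Cau (fun w => db s w * Cau g w) w + Cau (fun w => s w * g w) w := funext e1
    rw [h3, dz_add ((A.smooth _ t2).differentiable (by simp) z)
      ((A.smooth _ t3).differentiable (by simp) z), A.dzCau _ t2, A.dzCau _ t3]
  rw [dz_mul (hs.differentiable z) (hCd z), A.dzCau g hg] at e2
  linear_combination e2

end CauAPI

/-- data of the local problem -/
structure LD where
  U : Set ℂ
  hU : IsOpen U
  G0 : ℂ → ℂ
  G1 : ℂ → ℂ
  hG0 : Continuous G0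
  hG1 : Continuous G1
  hd : ContDiffOn ℝ ∞ G0 U
  h1 : EqOn G1 (dz G0) U
  V : Set ℂ
  hV : IsOpen V
  hVU : V ⊆ U
  R : ℝ
  hVR : V ⊆ Metric.ball 0 R

namespace LD

variable (D : LD)

lemma hd1 : ContDiffOn ℝ ∞ D.G1 D.U := (contDiffOn_dz D.hU D.hd).congr D.h1

/-- the operator `F` -/
noncomputable def F (p : TT D.V) (z : ℂ) : ℂ :=
  D.G0 z * (Cau p.fst z + Cau (dz p.snd) z) - Cau (fun w => D.G0 w * p.fst w) z
    + Cau (fun w => D.G1 w * p.snd w) z - Cau (dz fun w => D.G0 w * p.snd w) z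

variable {D}

lemma t0 (p : TT D.V) : Test fun w => D.G0 w * p.fst w :=
  p.test_fst.mul_contDiffOn D.hU D.hd (p.supp_fst.trans D.hVU)

lemma t0' (p : TT D.V) : Test fun w => D.G0 w * p.snd w :=
  p.test_snd.mul_contDiffOn D.hU D.hd (p.supp_snd.trans D.hVU)

lemma t1 (p : TT D.V) : Test fun w => D.G1 w * p.snd w :=
  p.test_snd.mul_contDiffOn D.hU D.hd1 (p.supp_snd.trans D.hVU)

lemma F_continuous (A : CauAPI) (p : TT D.V) : Continuous (D.F p) := by
  unfold F
  exact (((D.hG0.mul ((A.continuous p.test_fst).add (A.continuous p.test_snd.dz))).sub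
    (A.continuous (t0 p))).add (A.continuous (t1 p))).sub (A.continuous (t0' p).dz)

lemma F_add (A : CauAPI) (p q : TT D.V) (z : ℂ) : D.F (p + q) z = D.F p z + D.F q z := by
  unfold F
  have e1 : Cau (p + q).fst z = Cau p.fst z + Cau q.fst z :=
    A.add _ _ p.test_fst q.test_fst z
  have e2 : Cau (dz (p + q).snd) z = Cau (dz p.snd) z + Cau (dz q.snd) z := by
    rw [← A.add _ _ p.test_snd.dz q.test_snd.dz]
    congr 1
    funext w
    exact dz_add (p.test_snd.differentiable w) (q.test_snd.differentiable w)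
  have e3 : Cau (fun w => D.G0 w * (p + q).fst w) z =
      Cau (fun w => D.G0 w * p.fst w) z + Cau (fun w => D.G0 w * q.fst w) z := by
    rw [← A.add _ _ (t0 p) (t0 q)]
    simp only [TT.fst_add, mul_add]
  have e4 : Cau (fun w => D.G1 w * (p + q).snd w) z =
      Cau (fun w => D.G1 w * p.snd w) z + Cau (fun w => D.G1 w * q.snd w) z := by
    rw [← A.add _ _ (t1 p) (t1 q)]
    simp only [TT.snd_add, mul_add]
  have e5 : Cau (dz fun w => D.G0 w * (p + q).snd w) z =
      Cau (dz fun w => D.G0 w * p.snd w) z + Cau (dz fun w => D.G0 w * q.snd w) z := by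
    rw [← A.add _ _ (t0' p).dz (t0' q).dz]
    congr 1
    funext w
    rw [← dz_add ((t0' p).differentiable w) ((t0' q).differentiable w)]
    simp only [TT.snd_add, mul_add]
  rw [e1, e2, e3, e4, e5]
  ring

lemma F_smul (c : ℂ) (p : TT D.V) (z : ℂ) : D.F (c • p) z = c * D.F p z := by
  unfold F
  have e1 : Cau (c • p).fst z = c * Cau p.fst z := cau_const_mul c p.fst z
  have e2 : Cau (dz (c • p).snd) z = c * Cau (dz p.snd) z := by
    rw [← cau_const_mul]
    congr 1
    funext w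
    exact dz_const_mul c (p.test_snd.differentiable w)
  have e3 : Cau (fun w => D.G0 w * (c • p).fst w) z = c * Cau (fun w => D.G0 w * p.fst w) z := by
    rw [← cau_const_mul]
    simp only [TT.fst_smul, mul_left_comm _ c]
  have e4 : Cau (fun w => D.G1 w * (c • p).snd w) z = c * Cau (fun w => D.G1 w * p.snd w) z := by
    rw [← cau_const_mul]
    simp only [TT.snd_smul, mul_left_comm _ c]
  have e5 : Cau (dz fun w => D.G0 w * (c • p).snd w) z =
      c * Cau (dz fun w => D.G0 w * p.snd w) z := by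
    rw [← cau_const_mul]
    congr 1
    funext w
    rw [← dz_const_mul c ((t0' p).differentiable w)]
    simp only [TT.snd_smul, mul_left_comm _ c]
  rw [e1, e2, e3, e4, e5]
  ring

/-- decomposition of `F` along an approximation `s` of `G0` -/
lemma F_decomp (A : CauAPI) {s : ℂ → ℂ} (hs : Test s) (p : TT D.V) (z : ℂ) :
    D.F p z = D.G0 z * Cau p.fst z + -Cau (fun w => D.G0 w * p.fst w) z
      + Cau (fun w => D.G1 w * p.snd w) z + -(dz s z * Cau p.snd z)
      + Cau (dz fun w => db s w * Cau p.snd w) z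
      + (D.G0 z - s z) * Cau (dz p.snd) z
      + -Cau (dz fun w => (D.G0 w - s w) * p.snd w) z := by
  have t2 : Test fun w => s w * p.snd w := p.test_snd.mul_left hs.1
  have e1 : Cau (dz fun w => (D.G0 w - s w) * p.snd w) z =
      Cau (dz fun w => D.G0 w * p.snd w) z - Cau (dz fun w => s w * p.snd w) z := by
    rw [← A.sub _ _ (t0' p).dz t2.dz]
    congr 1
    funext w
    rw [← dz_sub ((t0' p).differentiable w) (t2.differentiable w)]
    simp only [sub_mul]
  have e2 := A.commutator hs p.test_snd z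
  rw [e1]
  unfold F
  linear_combination e2

end LD

end Pool.Agent.Lib.MP_1707ab_an
end

section
/-!
Module LOCAL, part 6: boundedness and compactness of `F` in terms of `L^(1/2)`.
-/
set_option autoImplicit false

open MeasureTheory Complex Set Filter Topology
open scoped ContDiff ComplexConjugate

namespace Pool.Agent.Lib.MP_1707ab_an

lemma exists_bound_ball {G : ℂ → ℂ} (hG : Continuous G) (R : ℝ) :
    ∃ M : ℝ, 0 ≤ M ∧ ∀ z ∈ Metric.ball (0 : ℂ) R, ‖G z‖ ≤ M := by
  obtain ⟨C, hC⟩ := (isCompact_closedBall (0 : ℂ) R).exists_bound_of_continuousOn hG.continuousOn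
  exact ⟨max C 0, le_max_right _ _, fun z hz =>
    (hC z (Metric.ball_subset_closedBall hz)).trans (le_max_left _ _)⟩

lemma Test.exists_bound {g : ℂ → ℂ} (hg : Test g) : ∃ M : ℝ, 0 ≤ M ∧ ∀ z, ‖g z‖ ≤ M := by
  obtain ⟨C, hC⟩ := hg.2.exists_bound_of_continuous hg.continuous
  exact ⟨max C 0, le_max_right _ _, fun z => (hC z).trans (le_max_left _ _)⟩

lemma Test.exists_radius {g : ℂ → ℂ} (hg : Test g) (R : ℝ) :
    ∃ R', R ≤ R' ∧ tsupport g ⊆ Metric.ball 0 R' := by
  obtain ⟨r, hr⟩ := hg.2.isCompact.isBounded.subset_ball (0 : ℂ)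
  exact ⟨max R r, le_max_left _ _, hr.trans (Metric.ball_subset_ball (le_max_right _ _))⟩

lemma rpow_half_le {a b : ℝ} (ha : 0 ≤ a) (h : a ≤ b) : a ^ (1 / 2 : ℝ) ≤ b ^ (1 / 2 : ℝ) :=
  Real.rpow_le_rpow ha h (by norm_num)

lemma mul_rpow_half {a b : ℝ} (ha : 0 ≤ a) (hb : 0 ≤ b) :
    (a * b) ^ (1 / 2 : ℝ) = a ^ (1 / 2 : ℝ) * b ^ (1 / 2 : ℝ) := Real.mul_rpow ha hb

/-- `∫ ‖G φ‖ ≤ M ∫ ‖φ‖` if `‖G‖ ≤ M` on a ball containing the support of `φ` -/
lemma integral_norm_mul_le {G φ : ℂ → ℂ} {V : Set ℂ} {R M : ℝ} (hφ : Test φ)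
    (hs : tsupport φ ⊆ V) (hVR : V ⊆ Metric.ball 0 R)
    (hM : ∀ z ∈ Metric.ball (0 : ℂ) R, ‖G z‖ ≤ M) (hi : Integrable fun z => G z * φ z) :
    ∫ z, ‖G z * φ z‖ ≤ M * ∫ z, ‖φ z‖ := by
  rw [← integral_const_mul]
  refine integral_mono hi.norm (hφ.integrable.norm.const_mul _) fun z => ?_
  simp only [norm_mul]
  by_cases hz : z ∈ tsupport φ
  · exact mul_le_mul_of_nonneg_right (hM z (hVR (hs hz))) (norm_nonneg _)
  · rw [image_eq_zero_of_notMem_tsupport hz]
    simp

lemma hn_add_pi {u v : ℂ → ℂ} (hu : Continuous u) (hv : Continuous v) (R : ℝ) :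
    hn R (u + v) ≤ hn R u + hn R v := hn_add hu hv R

namespace LD

variable {D : LD}

/-- the quantity `q` -/
noncomputable def q (D : LD) (p : TT D.V) : ℝ := hn D.R (D.F p)

lemma q_nonneg (p : TT D.V) : 0 ≤ D.q p := hn_nonneg _ _

lemma q_add (A : CauAPI) (p q' : TT D.V) : D.q (p + q') ≤ D.q p + D.q q' := by
  unfold q
  have : D.F (p + q') = fun z => D.F p z + D.F q' z := funext fun z => F_add A p q' z
  rw [this]
  exact hn_add (F_continuous A p) (F_continuous A q') _

/-- Kolmogorov bound in terms of `hn` -/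
lemma exists_CK (A : CauAPI) (R : ℝ) : ∃ C : ℝ, 0 ≤ C ∧ ∀ Z, Test Z →
    hn R (Cau (dz Z)) ≤ C * (∫ z, ‖Z z‖) ^ (1 / 2 : ℝ) := A.kol R

lemma exists_C1 (A : CauAPI) (R : ℝ) : ∃ C : ℝ, 0 ≤ C ∧ ∀ g, Test g →
    n1 R (Cau g) ≤ C * ∫ z, ‖g z‖ := by
  obtain ⟨C, h0, hC⟩ := A.l1 R
  exact ⟨C, h0, fun g hg => (hC g hg.integrable).2⟩

lemma norm_rpow_nonneg (p : TT D.V) : 0 ≤ ‖p‖ ^ (1 / 2 : ℝ) := by positivity

lemma q_le (A : CauAPI) (D : LD) : ∃ C : ℝ, ∀ p : TT D.V, D.q p ≤ C * ‖p‖ ^ (1 / 2 : ℝ) := by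
  obtain ⟨C1, hC1, h1⟩ := exists_C1 A D.R
  obtain ⟨CK, hCK, hK⟩ := exists_CK A D.R
  obtain ⟨M, hM0, hM⟩ := exists_bound_ball D.hG0 D.R
  obtain ⟨M1, hM10, hM1⟩ := exists_bound_ball D.hG1 D.R
  refine ⟨M ^ (1 / 2 : ℝ) * (AR D.R * C1 ^ (1 / 2 : ℝ)) + M ^ (1 / 2 : ℝ) * CK +
    AR D.R * (C1 * M) ^ (1 / 2 : ℝ) + AR D.R * (C1 * M1) ^ (1 / 2 : ℝ) +
    CK * M ^ (1 / 2 : ℝ), fun p => ?_⟩
  have hp0 : 0 ≤ ‖p‖ := norm_nonneg p
  have hAR := AR_nonneg D.R
  have b1 : hn D.R (fun z => D.G0 z * Cau p.fst z) ≤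
      M ^ (1 / 2 : ℝ) * (AR D.R * C1 ^ (1 / 2 : ℝ)) * ‖p‖ ^ (1 / 2 : ℝ) := by
    refine (hn_mul_le D.hG0 (A.continuous p.test_fst) hM).trans ?_
    rw [mul_assoc]
    refine mul_le_mul_of_nonneg_left ?_ (by positivity)
    refine (hn_le_n1 (A.continuous p.test_fst) _).trans ?_
    rw [mul_assoc]
    refine mul_le_mul_of_nonneg_left ?_ hAR
    rw [← mul_rpow_half hC1 hp0]
    exact rpow_half_le (n1_nonneg _ _) ((h1 _ p.test_fst).trans
      (mul_le_mul_of_nonneg_left p.norm_fst_le hC1))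
  have b2 : hn D.R (fun z => D.G0 z * Cau (dz p.snd) z) ≤
      M ^ (1 / 2 : ℝ) * CK * ‖p‖ ^ (1 / 2 : ℝ) := by
    refine (hn_mul_le D.hG0 (A.continuous p.test_snd.dz) hM).trans ?_
    rw [mul_assoc]
    refine mul_le_mul_of_nonneg_left ?_ (by positivity)
    refine (hK _ p.test_snd).trans ?_
    refine mul_le_mul_of_nonneg_left ?_ hCK
    exact rpow_half_le (integral_nonneg fun _ => norm_nonneg _) p.norm_snd_le
  have b3 : hn D.R (fun z => -Cau (fun w => D.G0 w * p.fst w) z) ≤
      AR D.R * (C1 * M) ^ (1 / 2 : ℝ) * ‖p‖ ^ (1 / 2 : ℝ) := by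
    rw [hn_neg]
    refine (hn_le_n1 (A.continuous (t0 p)) _).trans ?_
    rw [mul_assoc]
    refine mul_le_mul_of_nonneg_left ?_ hAR
    rw [← mul_rpow_half (by positivity) hp0]
    refine rpow_half_le (n1_nonneg _ _) ((h1 _ (t0 p)).trans ?_)
    rw [mul_assoc]
    refine mul_le_mul_of_nonneg_left ?_ hC1
    exact (integral_norm_mul_le p.test_fst p.supp_fst D.hVR hM (t0 p).integrable).trans
      (mul_le_mul_of_nonneg_left p.norm_fst_le hM0)
  have b4 : hn D.R (Cau fun w => D.G1 w * p.snd w) ≤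
      AR D.R * (C1 * M1) ^ (1 / 2 : ℝ) * ‖p‖ ^ (1 / 2 : ℝ) := by
    refine (hn_le_n1 (A.continuous (t1 p)) _).trans ?_
    rw [mul_assoc]
    refine mul_le_mul_of_nonneg_left ?_ hAR
    rw [← mul_rpow_half (by positivity) hp0]
    refine rpow_half_le (n1_nonneg _ _) ((h1 _ (t1 p)).trans ?_)
    rw [mul_assoc]
    refine mul_le_mul_of_nonneg_left ?_ hC1
    exact (integral_norm_mul_le p.test_snd p.supp_snd D.hVR hM1 (t1 p).integrable).trans
      (mul_le_mul_of_nonneg_left p.norm_snd_le hM10)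
  have b5 : hn D.R (fun z => -Cau (dz fun w => D.G0 w * p.snd w) z) ≤
      CK * M ^ (1 / 2 : ℝ) * ‖p‖ ^ (1 / 2 : ℝ) := by
    rw [hn_neg]
    refine (hK _ (t0' p)).trans ?_
    rw [mul_assoc]
    refine mul_le_mul_of_nonneg_left ?_ hCK
    rw [← mul_rpow_half hM0 hp0]
    exact rpow_half_le (integral_nonneg fun _ => norm_nonneg _)
      ((integral_norm_mul_le p.test_snd p.supp_snd D.hVR hM (t0' p).integrable).trans
      (mul_le_mul_of_nonneg_left p.norm_snd_le hM0))
  have c1 : Continuous fun z => D.G0 z * Cau p.fst z := D.hG0.mul (A.continuous p.test_fst)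
  have c2 : Continuous fun z => D.G0 z * Cau (dz p.snd) z :=
    D.hG0.mul (A.continuous p.test_snd.dz)
  have c3 : Continuous fun z => -Cau (fun w => D.G0 w * p.fst w) z := (A.continuous (t0 p)).neg
  have c4 : Continuous (Cau fun w => D.G1 w * p.snd w) := A.continuous (t1 p)
  have c5 : Continuous fun z => -Cau (dz fun w => D.G0 w * p.snd w) z :=
    (A.continuous (t0' p).dz).neg
  have e : D.F p = (((fun z => D.G0 z * Cau p.fst z) + (fun z => D.G0 z * Cau (dz p.snd) z)) +
      (fun z => -Cau (fun w => D.G0 w * p.fst w) z) + (Cau fun w => D.G1 w * p.snd w)) +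
      (fun z => -Cau (dz fun w => D.G0 w * p.snd w) z) := by
    funext z
    simp only [Pi.add_apply]
    unfold F
    ring
  unfold q
  rw [e]
  have h12 := hn_add_pi c1 c2 D.R
  have h123 := hn_add_pi (c1.add c2) c3 D.R
  have h1234 := hn_add_pi ((c1.add c2).add c3) c4 D.R
  have h12345 := hn_add_pi (((c1.add c2).add c3).add c4) c5 D.R
  linarith

/-- compactness: on pairs annihilated by finitely many continuous functions, `q` is small -/
lemma q_compact (A : CauAPI) (D : LD) {X : Set ℂ} (hX : IsCompact X) (hVX : D.V ⊆ X) {ε : ℝ}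
    (hε : 0 < ε) : ∃ (m : ℕ) (φ : Fin m → ℂ → ℂ), (∀ j, ContinuousOn (φ j) X) ∧
      ∀ p : TT D.V, (∀ j, ∫ w, φ j w * p.fst w = 0) → (∀ j, ∫ w, φ j w * p.snd w = 0) →
        D.q p ≤ ε * ‖p‖ ^ (1 / 2 : ℝ) := by
  obtain ⟨CK, hCK, hK⟩ := exists_CK A D.R
  obtain ⟨M, hM0, hM⟩ := exists_bound_ball D.hG0 D.R
  have hAR := AR_nonneg D.R
  -- the approximation
  obtain ⟨η, hη, hηε⟩ : ∃ η : ℝ, 0 < η ∧ CK * η ^ (1 / 2 : ℝ) ≤ ε / 4 := by
    refine ⟨(ε / (4 * (CK + 1))) ^ 2, by positivity, ?_⟩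
    rw [← Real.sqrt_eq_rpow, Real.sqrt_sq (by positivity), mul_div_assoc', div_le_iff₀ (by positivity)]
    nlinarith
  obtain ⟨s, hs, hsη⟩ := exists_test_close D.hG0 D.R hη
  obtain ⟨Ms, hMs0, hMs⟩ := hs.dz.exists_bound
  obtain ⟨Mt, hMt0, hMt⟩ := hs.db.exists_bound
  obtain ⟨R2, hRR, hsR⟩ := hs.exists_radius D.R
  set K := M ^ (1 / 2 : ℝ) * AR D.R + AR D.R + AR D.R + Ms ^ (1 / 2 : ℝ) * AR D.R +
    CK * Mt ^ (1 / 2 : ℝ) with hKdef
  have hK0 : 0 ≤ K := by positivity
  obtain ⟨δ, hδ, hδε⟩ : ∃ δ : ℝ, 0 < δ ∧ K * δ ^ (1 / 2 : ℝ) ≤ ε / 2 := by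
    refine ⟨(ε / (2 * (K + 1))) ^ 2, by positivity, ?_⟩
    rw [← Real.sqrt_eq_rpow, Real.sqrt_sq (by positivity), mul_div_assoc', div_le_iff₀ (by positivity)]
    nlinarith
  obtain ⟨m1, φ1, hc1, h1⟩ := A.comp X hX D.V D.hV hVX (fun _ => 1) continuousOn_const R2 δ hδ
  obtain ⟨m2, φ2, hc2, h2⟩ := A.comp X hX D.V D.hV hVX D.G0 D.hG0.continuousOn D.R δ hδ
  obtain ⟨m3, φ3, hc3, h3⟩ := A.comp X hX D.V D.hV hVX D.G1 D.hG1.continuousOn D.R δ hδ
  refine ⟨m1 + m2 + m3, Fin.append (Fin.append φ1 φ2) φ3, ?_, ?_⟩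
  · intro j
    refine Fin.addCases (fun i => ?_) (fun i => ?_) j
    · rw [Fin.append_left]
      refine Fin.addCases (fun k => ?_) (fun k => ?_) i
      · rw [Fin.append_left]; exact hc1 k
      · rw [Fin.append_right]; exact hc2 k
    · rw [Fin.append_right]; exact hc3 i
  intro p hp1 hp2
  have hf1 : ∀ j, ∫ w, φ1 j w * p.fst w = 0 := fun j => by
    have := hp1 (Fin.castAdd m3 (Fin.castAdd m2 j))
    simpa only [Fin.append_left] using this
  have hs1 : ∀ j, ∫ w, φ1 j w * p.snd w = 0 := fun j => by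
    have := hp2 (Fin.castAdd m3 (Fin.castAdd m2 j))
    simpa only [Fin.append_left] using this
  have hf2 : ∀ j, ∫ w, φ2 j w * p.fst w = 0 := fun j => by
    have := hp1 (Fin.castAdd m3 (Fin.natAdd m1 j))
    simpa only [Fin.append_left, Fin.append_right] using this
  have hs3 : ∀ j, ∫ w, φ3 j w * p.snd w = 0 := fun j => by
    have := hp2 (Fin.natAdd (m1 + m2) j)
    simpa only [Fin.append_right] using this
  have hp0 : 0 ≤ ‖p‖ := norm_nonneg p
  have mono : ∀ u : ℂ → ℂ, Continuous u → n1 D.R u ≤ n1 R2 u := fun u hu =>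
    setIntegral_mono_set (integrableOn_ball_of_continuous hu.norm R2)
      (Eventually.of_forall fun _ => norm_nonneg _)
      (Metric.ball_subset_ball hRR).eventuallyLE
  have k1 : n1 R2 (Cau p.fst) ≤ δ * ‖p‖ := by
    have := h1 p.fst p.test_fst p.supp_fst hf1
    simp only [one_mul] at this
    exact this.trans (mul_le_mul_of_nonneg_left p.norm_fst_le hδ.le)
  have k1' : n1 R2 (Cau p.snd) ≤ δ * ‖p‖ := by
    have := h1 p.snd p.test_snd p.supp_snd hs1
    simp only [one_mul] at this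
    exact this.trans (mul_le_mul_of_nonneg_left p.norm_snd_le hδ.le)
  have k2 : n1 D.R (Cau fun w => D.G0 w * p.fst w) ≤ δ * ‖p‖ :=
    (h2 p.fst p.test_fst p.supp_fst hf2).trans (mul_le_mul_of_nonneg_left p.norm_fst_le hδ.le)
  have k3 : n1 D.R (Cau fun w => D.G1 w * p.snd w) ≤ δ * ‖p‖ :=
    (h3 p.snd p.test_snd p.supp_snd hs3).trans (mul_le_mul_of_nonneg_left p.norm_snd_le hδ.le)
  have hδp : (δ * ‖p‖) ^ (1 / 2 : ℝ) = δ ^ (1 / 2 : ℝ) * ‖p‖ ^ (1 / 2 : ℝ) :=
    mul_rpow_half hδ.le hp0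
  have ct1 := A.continuous p.test_fst
  have ct2 := A.continuous p.test_snd
  -- the seven terms
  have b1 : hn D.R (fun z => D.G0 z * Cau p.fst z) ≤
      M ^ (1 / 2 : ℝ) * AR D.R * (δ ^ (1 / 2 : ℝ) * ‖p‖ ^ (1 / 2 : ℝ)) := by
    refine (hn_mul_le D.hG0 ct1 hM).trans ?_
    rw [mul_assoc]
    refine mul_le_mul_of_nonneg_left ?_ (by positivity)
    refine (hn_le_n1 ct1 _).trans (mul_le_mul_of_nonneg_left ?_ hAR)
    rw [← hδp]
    exact rpow_half_le (n1_nonneg _ _) ((mono _ ct1).trans k1)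
  have b2 : hn D.R (fun z => -Cau (fun w => D.G0 w * p.fst w) z) ≤
      AR D.R * (δ ^ (1 / 2 : ℝ) * ‖p‖ ^ (1 / 2 : ℝ)) := by
    rw [hn_neg]
    refine (hn_le_n1 (A.continuous (t0 p)) _).trans (mul_le_mul_of_nonneg_left ?_ hAR)
    rw [← hδp]
    exact rpow_half_le (n1_nonneg _ _) k2
  have b3 : hn D.R (Cau fun w => D.G1 w * p.snd w) ≤
      AR D.R * (δ ^ (1 / 2 : ℝ) * ‖p‖ ^ (1 / 2 : ℝ)) := by
    refine (hn_le_n1 (A.continuous (t1 p)) _).trans (mul_le_mul_of_nonneg_left ?_ hAR)
    rw [← hδp]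
    exact rpow_half_le (n1_nonneg _ _) k3
  have b4 : hn D.R (fun z => -(dz s z * Cau p.snd z)) ≤
      Ms ^ (1 / 2 : ℝ) * AR D.R * (δ ^ (1 / 2 : ℝ) * ‖p‖ ^ (1 / 2 : ℝ)) := by
    rw [hn_neg]
    refine (hn_mul_le hs.dz.continuous ct2 (fun z _ => hMs z)).trans ?_
    rw [mul_assoc]
    refine mul_le_mul_of_nonneg_left ?_ (by positivity)
    refine (hn_le_n1 ct2 _).trans (mul_le_mul_of_nonneg_left ?_ hAR)
    rw [← hδp]
    exact rpow_half_le (n1_nonneg _ _) ((mono _ ct2).trans k1')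
  have t5 : Test fun w => db s w * Cau p.snd w := by
    have := hs.db.mul_left (A.smooth _ p.test_snd)
    simpa only [mul_comm] using this
  have b5 : hn D.R (Cau (dz fun w => db s w * Cau p.snd w)) ≤
      CK * Mt ^ (1 / 2 : ℝ) * (δ ^ (1 / 2 : ℝ) * ‖p‖ ^ (1 / 2 : ℝ)) := by
    refine (hK _ t5).trans ?_
    rw [mul_assoc]
    refine mul_le_mul_of_nonneg_left ?_ hCK
    rw [← hδp, ← mul_rpow_half hMt0 (by positivity)]
    refine rpow_half_le (integral_nonneg fun _ => norm_nonneg _) ?_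
    have e : ∫ z, ‖db s z * Cau p.snd z‖ = n1 R2 fun z => db s z * Cau p.snd z := by
      unfold n1
      rw [setIntegral_eq_integral_of_forall_compl_eq_zero]
      intro z hz
      have : z ∉ tsupport (db s) := fun hc => hz (hsR (tsupport_db s hc))
      simp only [image_eq_zero_of_notMem_tsupport this, zero_mul, norm_zero]
    rw [e]
    exact (n1_mul_le hs.db.continuous ct2 hMt).trans (mul_le_mul_of_nonneg_left k1' hMt0)
  have cs : Continuous fun z => D.G0 z - s z := D.hG0.sub hs.continuous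
  have b6 : hn D.R (fun z => (D.G0 z - s z) * Cau (dz p.snd) z) ≤
      ε / 4 * ‖p‖ ^ (1 / 2 : ℝ) := by
    refine (hn_mul_le cs (A.continuous p.test_snd.dz)
      (fun z hz => hsη z (Metric.ball_subset_closedBall hz))).trans ?_
    have h8 : hn D.R (Cau (dz p.snd)) ≤ CK * ‖p‖ ^ (1 / 2 : ℝ) :=
      (hK _ p.test_snd).trans (mul_le_mul_of_nonneg_left
        (rpow_half_le (integral_nonneg fun _ => norm_nonneg _) p.norm_snd_le) hCK)
    calc η ^ (1 / 2 : ℝ) * hn D.R (Cau (dz p.snd)) ≤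
        η ^ (1 / 2 : ℝ) * (CK * ‖p‖ ^ (1 / 2 : ℝ)) :=
          mul_le_mul_of_nonneg_left h8 (by positivity)
      _ = (CK * η ^ (1 / 2 : ℝ)) * ‖p‖ ^ (1 / 2 : ℝ) := by ring
      _ ≤ _ := mul_le_mul_of_nonneg_right hηε (by positivity)
  have t7 : Test fun w => (D.G0 w - s w) * p.snd w := by
    have := (t0' p).sub (p.test_snd.mul_left hs.1)
    simpa only [sub_mul] using this
  have b7 : hn D.R (fun z => -Cau (dz fun w => (D.G0 w - s w) * p.snd w) z) ≤
      ε / 4 * ‖p‖ ^ (1 / 2 : ℝ) := by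
    rw [hn_neg]
    refine (hK _ t7).trans ?_
    have h8 : ∫ z, ‖(D.G0 z - s z) * p.snd z‖ ≤ η * ‖p‖ :=
      (integral_norm_mul_le (G := fun z => D.G0 z - s z) p.test_snd p.supp_snd D.hVR
        (fun z hz => hsη z (Metric.ball_subset_closedBall hz)) t7.integrable).trans
        (mul_le_mul_of_nonneg_left p.norm_snd_le hη.le)
    calc _ ≤ CK * (η * ‖p‖) ^ (1 / 2 : ℝ) := mul_le_mul_of_nonneg_left
          (rpow_half_le (integral_nonneg fun _ => norm_nonneg _) h8) hCK
      _ = (CK * η ^ (1 / 2 : ℝ)) * ‖p‖ ^ (1 / 2 : ℝ) := by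
          rw [mul_rpow_half hη.le hp0]; ring
      _ ≤ _ := mul_le_mul_of_nonneg_right hηε (by positivity)
  have c1 : Continuous fun z => D.G0 z * Cau p.fst z := D.hG0.mul ct1
  have c2 : Continuous fun z => -Cau (fun w => D.G0 w * p.fst w) z := (A.continuous (t0 p)).neg
  have c3 : Continuous (Cau fun w => D.G1 w * p.snd w) := A.continuous (t1 p)
  have c4 : Continuous fun z => -(dz s z * Cau p.snd z) := (hs.dz.continuous.mul ct2).neg
  have c5 : Continuous (Cau (dz fun w => db s w * Cau p.snd w)) := A.continuous t5.dz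
  have c6 : Continuous fun z => (D.G0 z - s z) * Cau (dz p.snd) z :=
    cs.mul (A.continuous p.test_snd.dz)
  have c7 : Continuous fun z => -Cau (dz fun w => (D.G0 w - s w) * p.snd w) z :=
    (A.continuous t7.dz).neg
  have e : D.F p = ((((((fun z => D.G0 z * Cau p.fst z) +
      (fun z => -Cau (fun w => D.G0 w * p.fst w) z)) + (Cau fun w => D.G1 w * p.snd w)) +
      (fun z => -(dz s z * Cau p.snd z))) + (Cau (dz fun w => db s w * Cau p.snd w))) +
      (fun z => (D.G0 z - s z) * Cau (dz p.snd) z)) +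
      (fun z => -Cau (dz fun w => (D.G0 w - s w) * p.snd w) z) :=
    funext (F_decomp A hs p)
  unfold q
  rw [e]
  have h12 := hn_add_pi c1 c2 D.R
  have h123 := hn_add_pi (c1.add c2) c3 D.R
  have h1234 := hn_add_pi ((c1.add c2).add c3) c4 D.R
  have h12345 := hn_add_pi (((c1.add c2).add c3).add c4) c5 D.R
  have h123456 := hn_add_pi ((((c1.add c2).add c3).add c4).add c5) c6 D.R
  have h1234567 := hn_add_pi (((((c1.add c2).add c3).add c4).add c5).add c6) c7 D.R
  have hfin : K * δ ^ (1 / 2 : ℝ) * ‖p‖ ^ (1 / 2 : ℝ) ≤ ε / 2 * ‖p‖ ^ (1 / 2 : ℝ) :=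
    mul_le_mul_of_nonneg_right hδε (by positivity)
  rw [hKdef] at hfin
  nlinarith

end LD

end Pool.Agent.Lib.MP_1707ab_an
end

section
/-!
Module LOCAL, part 7: representation of the functional and the weak solution.
-/
set_option autoImplicit false

open MeasureTheory Complex Set Filter Topology
open scoped ContDiff ComplexConjugate

namespace Pool.Agent.Lib.MP_1707ab_an

/-- additional data: the test function `θ` and the set `N` where `G0` is holomorphic off `K` -/
structure LD2 extends LD where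
  θ : ℂ → ℂ
  hθ : Test θ
  N : Set ℂ
  hN : IsOpen N
  hθN : tsupport θ ⊆ N
  hNR : N ⊆ Metric.ball 0 R
  hdb : ∀ z ∈ N ∩ U, db G0 z = 0

namespace LD2

variable {D : LD2}

/-- the subspace `R` of pairs `(Z₀, Z₁)` such that `∂̄ Y = Z₀ + ∂ Z₁` has a solution `Y` -/
def Rsub (D : LD2) : Submodule ℂ (TT D.V) where
  carrier := {p | ∃ Y, Test Y ∧ tsupport Y ⊆ D.V ∧ ∀ z, db Y z = p.fst z + dz p.snd z}
  add_mem' := by
    rintro p p' ⟨Y, hY, hYs, h⟩ ⟨Y', hY', hYs', h'⟩
    refine ⟨_, hY.add hY', tsupport_add_subset hYs hYs', fun z => ?_⟩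
    rw [db_add (hY.differentiable z) (hY'.differentiable z), h, h']
    have : dz (p + p').snd z = dz p.snd z + dz p'.snd z :=
      dz_add (p.test_snd.differentiable z) (p'.test_snd.differentiable z)
    rw [this, TT.fst_add]
    ring
  zero_mem' := by
    refine ⟨0, test_zero, by simp, fun z => ?_⟩
    have h1 : db (0 : ℂ → ℂ) z = 0 := db_const 0
    have h2 : dz (0 : TT D.V).snd z = 0 := dz_const 0
    rw [h1, h2]
    have h3 : (0 : TT D.V).fst z = 0 := rfl
    rw [h3, add_zero]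
  smul_mem' := by
    rintro c p ⟨Y, hY, hYs, h⟩
    refine ⟨_, hY.const_mul c, (tsupport_mul_subset (fun _ => c) Y).trans hYs, fun z => ?_⟩
    rw [db_const_mul c (hY.differentiable z), h]
    have : dz (c • p).snd z = c * dz p.snd z := dz_const_mul c (p.test_snd.differentiable z)
    rw [this, TT.fst_smul]
    ring

lemma key (A : CauAPI) {p : TT D.V} {Y : ℂ → ℂ} (hY : Test Y)
    (h : ∀ z, db Y z = p.fst z + dz p.snd z) (z : ℂ) :
    D.G0 z * Y z = D.F p z + Cau (fun w => D.G0 w * p.fst w) z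
      - Cau (fun w => D.G1 w * p.snd w) z + Cau (dz fun w => D.G0 w * p.snd w) z := by
  have e1 : Y z = Cau p.fst z + Cau (dz p.snd) z := by
    rw [← A.add _ _ p.test_fst p.test_snd.dz, ← A.cauDb Y hY z]
    congr 1
    funext w
    exact h w
  unfold LD.F
  rw [e1]
  ring

lemma F_eq (A : CauAPI) {p : TT D.V} {Y : ℂ → ℂ} (hY : Test Y) (hYs : tsupport Y ⊆ D.V)
    (h : ∀ z, db Y z = p.fst z + dz p.snd z) :
    Test (fun w => db D.G0 w * Y w) ∧ ∀ z, D.F p z = Cau (fun w => db D.G0 w * Y w) z := by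
  have hYU : tsupport Y ⊆ D.U := hYs.trans D.hVU
  have t1 : Test fun w => db D.G0 w * Y w :=
    hY.mul_contDiffOn D.hU (contDiffOn_db D.hU D.hd) hYU
  refine ⟨t1, fun z => ?_⟩
  have t2 : Test fun w => D.G0 w * Y w := hY.mul_contDiffOn D.hU D.hd hYU
  have t3 := LD.t0 p
  have t4 := LD.t1 p
  have t5 := LD.t0' p
  have e1 : ∀ w, db (fun w => D.G0 w * Y w) w =
      ((db D.G0 w * Y w + D.G0 w * p.fst w) + dz (fun w => D.G0 w * p.snd w) w) -
        D.G1 w * p.snd w := by
    intro w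
    by_cases hw : w ∈ D.U
    · have hd : DifferentiableAt ℝ D.G0 w :=
        (D.hd.contDiffAt (D.hU.mem_nhds hw)).differentiableAt (by simp)
      rw [db_mul hd (hY.differentiable w), dz_mul hd (p.test_snd.differentiable w), h w,
        D.h1 hw]
      ring
    · have n1 : w ∉ tsupport Y := fun hc => hw (hYU hc)
      have n2 : w ∉ tsupport p.fst := fun hc => hw (D.hVU (p.supp_fst hc))
      have n3 : w ∉ tsupport p.snd := fun hc => hw (D.hVU (p.supp_snd hc))
      have n4 : w ∉ tsupport fun w => D.G0 w * Y w :=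
        fun hc => n1 (tsupport_mul_subset _ _ hc)
      have n5 : w ∉ tsupport fun w => D.G0 w * p.snd w :=
        fun hc => n3 (tsupport_mul_subset _ _ hc)
      rw [image_eq_zero_of_notMem_tsupport n1, image_eq_zero_of_notMem_tsupport n2,
        image_eq_zero_of_notMem_tsupport n3,
        image_eq_zero_of_notMem_tsupport (fun hc => n4 (tsupport_db _ hc)),
        image_eq_zero_of_notMem_tsupport (fun hc => n5 (tsupport_dz _ hc))]
      ring
  have e2 := A.cauDb _ t2 z
  rw [show (db fun w => D.G0 w * Y w) = fun w => ((db D.G0 w * Y w + D.G0 w * p.fst w) +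
      dz (fun w => D.G0 w * p.snd w) w) - D.G1 w * p.snd w from funext e1,
    A.sub _ _ ((t1.add t3).add t5.dz) t4, A.add _ _ (t1.add t3) t5.dz, A.add _ _ t1 t3] at e2
  have e3 := key A hY h z
  linear_combination -e3 - e2

lemma F_hol (A : CauAPI) {p : TT D.V} (hp : p ∈ D.Rsub) : DifferentiableOn ℂ (D.F p) D.N := by
  obtain ⟨Y, hY, hYs, h⟩ := hp
  obtain ⟨t1, hF⟩ := F_eq A hY hYs h
  intro z hz
  apply DifferentiableAt.differentiableWithinAt
  have e : D.F p = Cau fun w => db D.G0 w * Y w := funext hF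
  rw [e]
  apply differentiableAt_of_db ((A.smooth _ t1).differentiable (by simp) z)
  rw [A.dbCau _ t1]
  by_cases hzU : z ∈ D.U
  · rw [D.hdb z ⟨hz, hzU⟩, zero_mul]
  · have : z ∉ tsupport Y := fun hc => hzU (D.hVU (hYs hc))
    rw [image_eq_zero_of_notMem_tsupport this, mul_zero]

/-- the functional `p ↦ ∫ θ F p` -/
noncomputable def Lam (A : CauAPI) (D : LD2) : TT D.V →ₗ[ℂ] ℂ where
  toFun p := ∫ z, D.F p z * D.θ z
  map_add' p p' := by
    have hi : ∀ p : TT D.V, Integrable fun z => D.F p z * D.θ z := fun p =>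
      Test.integrable_mul isOpen_univ (LD.F_continuous A p).continuousOn D.hθ (subset_univ _)
    rw [← integral_add (hi p) (hi p')]
    congr 1
    funext z
    rw [LD.F_add A]
    ring
  map_smul' c p := by
    simp only [LD.F_smul, RingHom.id_apply, smul_eq_mul, mul_assoc, integral_const_mul]

lemma Lam_apply (A : CauAPI) (p : TT D.V) : D.Lam A p = ∫ z, D.F p z * D.θ z := rfl

lemma Lam_bound (A : CauAPI) (hH : SpecHolo) (D : LD2) : ∃ C : ℝ, ∀ p ∈ D.Rsub,
    ‖D.Lam A p‖ ^ (1 / 2 : ℝ) ≤ C * D.q p := by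
  obtain ⟨C, hC0, hC⟩ := hH
  obtain ⟨r, hr, hrN⟩ := D.hθ.2.isCompact.exists_thickening_subset_open D.hN D.hθN
  set B : ℝ := ∫ z, ‖D.θ z‖ with hB
  have hB0 : 0 ≤ B := integral_nonneg fun _ => norm_nonneg _
  refine ⟨B ^ (1 / 2 : ℝ) * (C / r ^ 2), fun p hp => ?_⟩
  have hq0 : 0 ≤ D.q p := LD.q_nonneg p
  set m : ℝ := (C / r ^ 2 * D.q p) ^ 2 with hm
  have hpt : ∀ z ∈ tsupport D.θ, ‖D.F p z‖ ≤ m := by
    intro z hz
    have hb : Metric.ball z r ⊆ D.N := fun w hw => hrN (Metric.mem_thickening_iff.2 ⟨z, hz, hw⟩)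
    have hbR : Metric.ball z r ⊆ Metric.ball 0 D.R := hb.trans D.hNR
    have hi : IntegrableOn (fun z => ‖D.F p z‖ ^ (1 / 2 : ℝ)) (Metric.ball 0 D.R) :=
      integrableOn_ball_of_continuous (continuous_half (LD.F_continuous A p)) D.R
    have h1 := hC (D.F p) z r hr ((F_hol A hp).mono hb) (hi.mono_set hbR)
    have h2 : ∫ z in Metric.ball z r, ‖D.F p z‖ ^ (1 / 2 : ℝ) ≤ D.q p :=
      setIntegral_mono_set hi (Eventually.of_forall fun _ => by positivity) hbR.eventuallyLE
    have h3 : ‖D.F p z‖ ^ (1 / 2 : ℝ) ≤ C / r ^ 2 * D.q p :=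
      h1.trans (mul_le_mul_of_nonneg_left h2 (by positivity))
    have h4 : ‖D.F p z‖ = (‖D.F p z‖ ^ (1 / 2 : ℝ)) ^ 2 := by
      rw [← Real.sqrt_eq_rpow, Real.sq_sqrt (norm_nonneg _)]
    rw [h4, hm]
    exact pow_le_pow_left₀ (by positivity) h3 2
  have h5 : ‖D.Lam A p‖ ≤ m * B := by
    rw [Lam_apply, hB, ← integral_const_mul]
    refine norm_integral_le_of_norm_le (D.hθ.integrable.norm.const_mul _)
      (Eventually.of_forall fun z => ?_)
    rw [norm_mul]
    by_cases hz : z ∈ tsupport D.θ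
    · exact mul_le_mul_of_nonneg_right (hpt z hz) (norm_nonneg _)
    · rw [image_eq_zero_of_notMem_tsupport hz]
      simp
  calc ‖D.Lam A p‖ ^ (1 / 2 : ℝ) ≤ (m * B) ^ (1 / 2 : ℝ) := rpow_half_le (norm_nonneg _) h5
    _ = (C / r ^ 2 * D.q p) * B ^ (1 / 2 : ℝ) := by
        rw [mul_rpow_half (by positivity) hB0, hm, ← Real.sqrt_eq_rpow, Real.sqrt_sq (by positivity)]
    _ = _ := by ring

/-- the representation of the functional by continuous functions -/
lemma exists_repr (A : CauAPI) (hH : SpecHolo) (hAbs : SpecAbs) (D : LD2) :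
    ∃ h k : ℂ → ℂ, ContinuousOn h (closure D.V) ∧ ContinuousOn k (closure D.V) ∧
      ∀ p ∈ D.Rsub, D.Lam A p = (∫ w, h w * p.fst w) + ∫ w, k w * p.snd w := by
  have hX : IsCompact (closure D.V) :=
    (Metric.isBounded_ball.subset D.hVR).isCompact_closure
  have : CompactSpace (closure D.V) := isCompact_iff_compactSpace.1 hX
  obtain ⟨Cq, hCq⟩ := LD.q_le A D.toLD
  obtain ⟨CL, hCL⟩ := Lam_bound A hH D
  obtain ⟨e, he⟩ := hAbs (TT D.V) (C(closure D.V, ℂ) × C(closure D.V, ℂ))
    (pairing D.hV subset_closure) (norm_pairing D.hV) D.q LD.q_nonneg (LD.q_add A) Cq hCq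
    (fun ε hε => by
      obtain ⟨m, φ, hφ, h⟩ := LD.q_compact A D.toLD hX subset_closure hε
      let ψ : Fin m → C(closure D.V, ℂ) := fun j =>
        ⟨_, continuousOn_iff_continuous_domRestrict.1 (hφ j)⟩
      classical
      refine ⟨Finset.univ.image (fun j => ((ψ j, 0) : C(closure D.V, ℂ) × C(closure D.V, ℂ))) ∪
        Finset.univ.image (fun j => ((0, ψ j) : C(closure D.V, ℂ) × C(closure D.V, ℂ))),
        fun p hp => h p (fun j => ?_) (fun j => ?_)⟩
      · have h1 := hp (ψ j, 0) (by simp)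
        rw [pairing_apply] at h1
        simp only [ext0_zero, zero_mul, integral_zero, add_zero] at h1
        rw [← h1]
        congr 1
        funext w
        by_cases hw : w ∈ tsupport p.fst
        · rw [ext0_of_mem _ (subset_closure (p.supp_fst hw))]
          rfl
        · rw [image_eq_zero_of_notMem_tsupport hw]
          simp
      · have h1 := hp (0, ψ j) (by simp)
        rw [pairing_apply] at h1
        simp only [ext0_zero, zero_mul, integral_zero, zero_add] at h1
        rw [← h1]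
        congr 1
        funext w
        by_cases hw : w ∈ tsupport p.snd
        · rw [ext0_of_mem _ (subset_closure (p.supp_snd hw))]
          rfl
        · rw [image_eq_zero_of_notMem_tsupport hw]
          simp)
    D.Rsub (D.Lam A) CL hCL
  exact ⟨ext0 e.1, ext0 e.2, continuousOn_ext0 _, continuousOn_ext0 _, fun p hp => he p hp⟩

/-- the weak solution -/
lemma exists_weak (A : CauAPI) (hH : SpecHolo) (hAbs : SpecAbs) (D : LD2) :
    ∃ h k : ℂ → ℂ, ContinuousOn h (closure D.V) ∧ ContinuousOn k (closure D.V) ∧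
      (∀ φ, Test φ → tsupport φ ⊆ D.V → ∫ w, h w * db φ w = -∫ w, (D.G0 w * D.θ w) * φ w) ∧
      (∀ φ, Test φ → tsupport φ ⊆ D.V → ∫ w, h w * dz φ w = -∫ w, k w * φ w) := by
  obtain ⟨h, k, hh, hk, hr⟩ := exists_repr A hH hAbs D
  have hCθ := A.smooth _ D.hθ
  have cC : Continuous (Cau D.θ) := hCθ.continuous
  have cdC : Continuous (dz (Cau D.θ)) := (contDiff_dz hCθ).continuous
  -- the identity for p in R
  have key2 : ∀ (p : TT D.V) (Y : ℂ → ℂ), Test Y → tsupport Y ⊆ D.V →
      (∀ z, db Y z = p.fst z + dz p.snd z) →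
      ∫ z, (D.G0 z * D.θ z) * Y z =
        (∫ w, (h w - Cau D.θ w * D.G0 w) * p.fst w) +
        ∫ w, (k w + (Cau D.θ w * D.G1 w + dz (Cau D.θ) w * D.G0 w)) * p.snd w := by
    intro p Y hY hYs hYp
    have hp : p ∈ D.Rsub := ⟨Y, hY, hYs, hYp⟩
    have iF : Integrable fun z => D.F p z * D.θ z :=
      Test.integrable_mul isOpen_univ (LD.F_continuous A p).continuousOn D.hθ (subset_univ _)
    have t3 := LD.t0 p
    have t4 := LD.t1 p
    have t5 := LD.t0' p
    have i3 : Integrable fun z => D.θ z * Cau (fun w => D.G0 w * p.fst w) z := by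
      have := (D.hθ.mul_left (A.smooth _ t3)).integrable
      simpa only [mul_comm] using this
    have i4 : Integrable fun z => D.θ z * Cau (fun w => D.G1 w * p.snd w) z := by
      have := (D.hθ.mul_left (A.smooth _ t4)).integrable
      simpa only [mul_comm] using this
    have i5 : Integrable fun z => D.θ z * Cau (dz fun w => D.G0 w * p.snd w) z := by
      have := (D.hθ.mul_left (A.smooth _ t5.dz)).integrable
      simpa only [mul_comm] using this
    have e1 : ∫ z, (D.G0 z * D.θ z) * Y z = (((∫ z, D.F p z * D.θ z) +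
        ∫ z, D.θ z * Cau (fun w => D.G0 w * p.fst w) z) -
        ∫ z, D.θ z * Cau (fun w => D.G1 w * p.snd w) z) +
        ∫ z, D.θ z * Cau (dz fun w => D.G0 w * p.snd w) z := by
      have e : (fun z => (D.G0 z * D.θ z) * Y z) = fun z => ((D.F p z * D.θ z +
          D.θ z * Cau (fun w => D.G0 w * p.fst w) z) -
          D.θ z * Cau (fun w => D.G1 w * p.snd w) z) +
          D.θ z * Cau (dz fun w => D.G0 w * p.snd w) z := by
        funext z
        have := key A hY hYp z
        calc D.G0 z * D.θ z * Y z = (D.G0 z * Y z) * D.θ z := by ring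
          _ = _ := by
            rw [this]
            ring
      have i34 : Integrable fun z => D.F p z * D.θ z +
          D.θ z * Cau (fun w => D.G0 w * p.fst w) z := iF.add i3
      have i345 : Integrable fun z => (D.F p z * D.θ z +
          D.θ z * Cau (fun w => D.G0 w * p.fst w) z) -
          D.θ z * Cau (fun w => D.G1 w * p.snd w) z := i34.sub i4
      rw [e, integral_add i345 i5, integral_sub i34 i4, integral_add iF i3]
    have e2 : ∫ z, Cau D.θ z * dz (fun w => D.G0 w * p.snd w) z =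
        -∫ z, dz (Cau D.θ) z * (D.G0 z * p.snd z) :=
      Test.integral_mul_dz isOpen_univ hCθ.contDiffOn t5 (subset_univ _)
    have e0 := hr p hp
    rw [Lam_apply] at e0
    rw [e1, e0, A.dual _ _ t3 D.hθ, A.dual _ _ t4 D.hθ, A.dual _ _ t5.dz D.hθ, e2, neg_neg]
    have j1 : Integrable fun w => h w * p.fst w :=
      Test.integrable_mul D.hV (hh.mono subset_closure) p.test_fst p.supp_fst
    have j2 : Integrable fun w => k w * p.snd w :=
      Test.integrable_mul D.hV (hk.mono subset_closure) p.test_snd p.supp_snd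
    have j3 : Integrable fun w => Cau D.θ w * (D.G0 w * p.fst w) := (t3.mul_left hCθ).integrable
    have j4 : Integrable fun w => Cau D.θ w * (D.G1 w * p.snd w) := (t4.mul_left hCθ).integrable
    have j5 : Integrable fun w => dz (Cau D.θ) w * (D.G0 w * p.snd w) :=
      (t5.mul_left (contDiff_dz hCθ)).integrable
    have f1 : ∫ w, (h w - Cau D.θ w * D.G0 w) * p.fst w =
        (∫ w, h w * p.fst w) - ∫ w, Cau D.θ w * (D.G0 w * p.fst w) := by
      rw [← integral_sub j1 j3]
      congr 1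
      funext w
      ring
    have f2 : ∫ w, (k w + (Cau D.θ w * D.G1 w + dz (Cau D.θ) w * D.G0 w)) * p.snd w =
        (∫ w, k w * p.snd w) + ((∫ w, Cau D.θ w * (D.G1 w * p.snd w)) +
          ∫ w, dz (Cau D.θ) w * (D.G0 w * p.snd w)) := by
      have e : (fun w => (k w + (Cau D.θ w * D.G1 w + dz (Cau D.θ) w * D.G0 w)) * p.snd w) =
          fun w => k w * p.snd w + (Cau D.θ w * (D.G1 w * p.snd w) +
          dz (Cau D.θ) w * (D.G0 w * p.snd w)) := by
        funext w
        ring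
      have j45 : Integrable fun w => Cau D.θ w * (D.G1 w * p.snd w) +
          dz (Cau D.θ) w * (D.G0 w * p.snd w) := j4.add j5
      rw [e, integral_add j2 j45, integral_add j4 j5]
    rw [f1, f2]
    ring
  refine ⟨fun w => -(h w - Cau D.θ w * D.G0 w),
    fun w => k w + (Cau D.θ w * D.G1 w + dz (Cau D.θ) w * D.G0 w), ?_, ?_, ?_, ?_⟩
  · exact (hh.sub (cC.mul D.hG0).continuousOn).neg
  · exact hk.add ((cC.mul D.hG1).add (cdC.mul D.hG0)).continuousOn
  · intro φ hφ hs
    have hs' : tsupport (db φ) ⊆ D.V := (tsupport_db φ).trans hs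
    have := key2 (TT.mk (db φ) 0 hφ.db hs' test_zero (by simp)) φ hφ hs (fun z => by
      simp only [TT.fst_mk, TT.snd_mk]
      have : dz (0 : ℂ → ℂ) z = 0 := dz_const 0
      rw [this, add_zero])
    simp only [TT.fst_mk, TT.snd_mk, Pi.zero_apply, mul_zero, integral_zero, add_zero] at this
    rw [this]
    simp only [neg_mul, integral_neg]
  · intro φ hφ hs
    have hs' : tsupport (fun z => -dz φ z) ⊆ D.V := by
      have : tsupport (fun z => -dz φ z) ⊆ tsupport (dz φ) := by
        have := tsupport_mul_subset (fun _ => -1) (dz φ)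
        simpa only [neg_one_mul] using this
      exact this.trans ((tsupport_dz φ).trans hs)
    have := key2 (TT.mk (fun z => -dz φ z) φ hφ.dz.neg hs' hφ hs) 0 test_zero (by simp)
      (fun z => by
        simp only [TT.fst_mk, TT.snd_mk]
        have : db (0 : ℂ → ℂ) z = 0 := db_const 0
        rw [this]
        ring)
    simp only [TT.fst_mk, TT.snd_mk, Pi.zero_apply, mul_zero, integral_zero, mul_neg,
      integral_neg] at this
    simp only [neg_mul, integral_neg]
    linear_combination -this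

end LD2

end Pool.Agent.Lib.MP_1707ab_an
end
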