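import Pool.Agent.Lib.MP_1707ab_an.Local1
import Pool.Agent.Lib.MP_1707ab_an.Local7

section
/-!
Module GLOBAL: the local theorem implies the global one.
-/
set_option autoImplicit false

open MeasureTheory Complex Set Filter Topology
open scoped ContDiff Manifold

namespace Pool.Agent.Lib.MP_1707ab_an

namespace Glob

/-! ### smooth cut-off functions -/

lemma exists_sep {s t : Set ℂ} (hs : IsClosed s) (ht : IsClosed t) (hd : Disjoint s t) :
    ∃ φ : ℂ → ℂ, ContDiff ℝ ∞ φ ∧ (∀ z ∈ s, φ =ᶠ[𝓝 z] fun _ => 0) ∧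
      (∀ z ∈ t, φ =ᶠ[𝓝 z] fun _ => 1) := by
  obtain ⟨φ, h0, h1, -⟩ :=
    exists_contMDiffMap_zero_one_nhds_of_isClosed (n := ⊤) (𝓘(ℝ, ℂ)) hs ht hd
  refine ⟨fun z => (φ z : ℂ), ?_, ?_, ?_⟩
  · have h := φ.contMDiff.contDiff
    exact Complex.ofRealCLM.contDiff.comp h
  · intro z hz
    have := (eventually_nhdsSet_iff_forall.1 h0) z hz
    filter_upwards [this] with w hw
    simp [hw]
  · intro z hz
    have := (eventually_nhdsSet_iff_forall.1 h1) z hz
    filter_upwards [this] with w hw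
    simp [hw]

lemma exists_chi {K V : Set ℂ} (hK : IsCompact K) (hV : IsOpen V) (hKV : K ⊆ V) :
    ∃ χ : ℂ → ℂ, Test χ ∧ (∀ z ∈ K, ∀ᶠ w in 𝓝 z, χ w = 1) ∧ tsupport χ ⊆ V := by
  obtain ⟨L, hL, hKL, hLV⟩ := exists_compact_between hK hV hKV
  obtain ⟨φ, h1, h0, -⟩ :=
    exists_contMDiffMap_one_nhds_of_subset_interior (n := ⊤) (𝓘(ℝ, ℂ)) hK.isClosed hKL
  have hs : tsupport (fun z => (φ z : ℂ)) ⊆ L := by
    refine closure_minimal ?_ hL.isClosed
    intro z hz
    by_contra hc
    apply hz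
    simp [h0 z hc]
  refine ⟨fun z => (φ z : ℂ), ⟨?_, ?_⟩, ?_, hs.trans hLV⟩
  · have h := φ.contMDiff.contDiff
    exact Complex.ofRealCLM.contDiff.comp h
  · exact hL.of_isClosed_subset (isClosed_tsupport _) hs
  · intro z hz
    have := (eventually_nhdsSet_iff_forall.1 h1) z hz
    filter_upwards [this] with w hw
    simp [hw]

/-- radial partition of unity -/
lemma exists_radial : ∃ ψ : ℕ → ℂ → ℂ, (∀ m, Test (ψ m)) ∧
    (∀ (m : ℕ) z, ‖z‖ < m → ψ m z = 0) ∧
    ∀ (N : ℕ) z, ‖z‖ < N → ∑ k ∈ Finset.range N, ψ k z = 1 := by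
  let B : ℕ → ContDiffBump (0 : ℂ) := fun m =>
    ⟨m + 1, m + 2, by positivity, by linarith⟩
  let ρ : ℕ → ℂ → ℂ := fun m z => (B m z : ℂ)
  have hρ : ∀ m, Test (ρ m) := by
    intro m
    refine ⟨Complex.ofRealCLM.contDiff.comp (B m).contDiff, ?_⟩
    exact (B m).hasCompactSupport.comp_left (g := fun x : ℝ => (x : ℂ)) (by simp)
  have h1 : ∀ (m : ℕ) z, ‖z‖ ≤ (m : ℝ) + 1 → ρ m z = 1 := by
    intro m z hz
    have : B m z = 1 := (B m).one_of_mem_closedBall (by simpa [B] using hz)
    simp [ρ, this]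
  refine ⟨fun m => if m = 0 then ρ 0 else fun z => ρ m z - ρ (m - 1) z, ?_, ?_, ?_⟩
  · intro m
    by_cases hm : m = 0
    · simp only [hm, if_true]; exact hρ 0
    · simp only [hm, if_false]; exact (hρ m).sub (hρ _)
  · intro m z hz
    by_cases hm : m = 0
    · subst hm
      have := norm_nonneg z
      simp at hz
      linarith
    · simp only [hm, if_false]
      obtain ⟨k, rfl⟩ := Nat.exists_eq_succ_of_ne_zero hm
      simp only [Nat.succ_eq_add_one, Nat.cast_add, Nat.cast_one, Nat.add_sub_cancel] at hz ⊢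
      rw [h1 (k + 1) z (by push_cast; linarith), h1 k z (by linarith), sub_self]
  · intro N z hz
    have key : ∀ n : ℕ, ∑ k ∈ Finset.range (n + 1),
        (if k = 0 then ρ 0 else fun z => ρ k z - ρ (k - 1) z) z = ρ n z := by
      intro n
      induction n with
      | zero => simp
      | succ n ih =>
        rw [Finset.sum_range_succ, ih]
        simp
    obtain ⟨n, rfl⟩ : ∃ n, N = n + 1 := by
      refine Nat.exists_eq_succ_of_ne_zero ?_
      rintro rfl
      have := norm_nonneg z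
      simp at hz
      linarith
    rw [key n]
    refine h1 n z ?_
    push_cast at hz
    linarith

/-! ### approximation by entire functions -/

lemma approx {g : ℂ → ℂ} {R r ε : ℝ} (hg : DifferentiableOn ℂ g (Metric.ball 0 R)) (hr : r < R)
    (hε : 0 < ε) : ∃ p : ℂ → ℂ, Differentiable ℂ p ∧ ∀ z, ‖z‖ < r → ‖g z - p z‖ ≤ ε := by
  by_cases hr0 : r ≤ 0
  · exact ⟨fun _ => 0, differentiable_const _, fun z hz => by
      have := norm_nonneg z
      linarith⟩
  push Not at hr0
  obtain ⟨R', hR', hR'R⟩ := exists_between hr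
  have hR0 : 0 < R' := hr0.trans hR'
  lift R' to NNReal using hR0.le
  lift r to NNReal using hr0.le
  have hc : DifferentiableOn ℂ g (Metric.closedBall 0 R') :=
    hg.mono (Metric.closedBall_subset_ball hR'R)
  have hp := hc.hasFPowerSeriesOnBall (by exact_mod_cast hR0)
  have ht := hp.tendstoUniformlyOn (r' := r) (by exact_mod_cast hR')
  rw [Metric.tendstoUniformlyOn_iff] at ht
  obtain ⟨n, hn⟩ := (ht ε hε).exists
  refine ⟨fun z => (cauchyPowerSeries g 0 R').partialSum n z, ?_, ?_⟩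
  · unfold FormalMultilinearSeries.partialSum
    refine Differentiable.fun_sum fun i _ => ?_
    have : (fun z : ℂ => (cauchyPowerSeries g 0 R') i fun _ => z) =
        fun z : ℂ => z ^ i • (cauchyPowerSeries g 0 R').coeff i := by
      ext z
      exact FormalMultilinearSeries.apply_eq_pow_smul_coeff
    rw [this]
    fun_prop
  · intro z hz
    have := hn z (by simpa using hz)
    rw [zero_add, dist_eq_norm] at this
    exact this.le

/-! ### one side of the decomposition -/

lemma side {S S₁ : Set ℂ} (hS : IsClosed S) (hS₁ : IsClosed S₁) (hsub : S₁ ⊆ S)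
    {f φ h : ℂ → ℂ} (hf : A1 S f) (hφ : ContDiff ℝ ∞ φ)
    (hφ0 : ∀ z ∈ closure (S \ S₁), φ =ᶠ[𝓝 z] fun _ => 0)
    (hh : ∀ z, (z ∉ S ∨ z ∈ closure (S \ S₁)) →
      ∃ U, IsOpen U ∧ z ∈ U ∧ ContDiffOn ℝ ∞ h U ∧ ∀ w ∈ U, db h w = f w * db φ w)
    (hl : ∀ z ∈ frontier S, (∃ y, Tendsto h (𝓝[Sᶜ] z) (𝓝 y)) ∧
      (∃ y, Tendsto (dz h) (𝓝[Sᶜ] z) (𝓝 y))) :
    A1 S₁ (fun z => φ z * f z - h z) := by
  have hφd : Differentiable ℝ φ := hφ.differentiable (by simp)
  -- off `S`
  have off : ∀ z ∉ S, DifferentiableAt ℂ (fun z => φ z * f z - h z) z ∧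
      deriv (fun z => φ z * f z - h z) z = dz φ z * f z + φ z * deriv f z - dz h z := by
    intro z hz
    obtain ⟨U, hU, hzU, hhU, hdb⟩ := hh z (Or.inl hz)
    have hfz : DifferentiableAt ℂ f z := hf.1.differentiableAt (hS.isOpen_compl.mem_nhds hz)
    have hfr : DifferentiableAt ℝ f z := hfz.restrictScalars ℝ
    have hhz : DifferentiableAt ℝ h z :=
      (hhU.contDiffAt (hU.mem_nhds hzU)).differentiableAt (by simp)
    have hm : DifferentiableAt ℝ (fun z => φ z * f z) z := (hφd z).mul hfr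
    have hF : DifferentiableAt ℝ (fun z => φ z * f z - h z) z := hm.sub hhz
    have hd : DifferentiableAt ℂ (fun z => φ z * f z - h z) z := by
      refine differentiableAt_of_db hF ?_
      rw [db_sub hm hhz, db_mul (hφd z) hfr, db_eq_zero hfz, hdb z hzU]
      ring
    refine ⟨hd, ?_⟩
    rw [← dz_eq_deriv hd, dz_sub hm hhz, dz_mul (hφd z) hfr, dz_eq_deriv hfz]
  -- near the points of the other side
  have near : ∀ z ∈ closure (S \ S₁), ∃ V, IsOpen V ∧ z ∈ V ∧ ContDiffOn ℝ ∞ h V ∧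
      ∀ w ∈ V, DifferentiableAt ℂ (fun z => φ z * f z - h z) w ∧
        φ w * f w - h w = -h w ∧
        deriv (fun z => φ z * f z - h z) w = -dz h w := by
    intro z hz
    obtain ⟨U, hU, hzU, hhU, hdb⟩ := hh z (Or.inr hz)
    obtain ⟨W, hW, hWo, hzW⟩ := eventually_nhds_iff.1 (hφ0 z hz)
    refine ⟨U ∩ W, hU.inter hWo, ⟨hzU, hzW⟩, hhU.mono inter_subset_left, ?_⟩
    rintro w ⟨hwU, hwW⟩
    have hφw : φ =ᶠ[𝓝 w] fun _ => 0 := by
      filter_upwards [hWo.mem_nhds hwW] with v hv using hW v hv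
    have hFe : (fun z => φ z * f z - h z) =ᶠ[𝓝 w] fun z => -h z := by
      filter_upwards [hφw] with v hv
      rw [hv]
      ring
    have hhw : DifferentiableAt ℝ h w :=
      (hhU.contDiffAt (hU.mem_nhds hwU)).differentiableAt (by simp)
    have hdw : DifferentiableAt ℂ (fun z => -h z) w := by
      refine differentiableAt_of_db hhw.neg ?_
      rw [db_neg, hdb w hwU, db_congr hφw, db_const]
      simp
    refine ⟨hdw.congr_of_eventuallyEq hFe, hFe.self_of_nhds, ?_⟩
    rw [hFe.deriv_eq, ← dz_eq_deriv hdw, dz_neg]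
  refine ⟨?_, ?_⟩
  · intro z hz
    by_cases hzS : z ∈ S
    · obtain ⟨V, hV, hzV, -, h2⟩ := near z (subset_closure ⟨hzS, hz⟩)
      exact (h2 z hzV).1.differentiableWithinAt
    · exact (off z hzS).1.differentiableWithinAt
  · intro z hz
    have hz1 : z ∈ S₁ := hS₁.frontier_subset hz
    by_cases hzc : z ∈ closure (S \ S₁)
    · obtain ⟨V, hV, hzV, hhV, h2⟩ := near z hzc
      have hVn : V ∈ 𝓝 z := hV.mem_nhds hzV
      have c1 : ContinuousAt h z := (hhV.contDiffAt hVn).continuousAt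
      have c2 : ContinuousAt (dz h) z :=
        ((contDiffOn_dz hV hhV).contDiffAt hVn).continuousAt
      constructor
      · refine ⟨-h z, Tendsto.mono_left ?_ nhdsWithin_le_nhds⟩
        refine c1.neg.tendsto.congr' ?_
        filter_upwards [hVn] with w hw
        exact (h2 w hw).2.1.symm
      · refine ⟨-dz h z, Tendsto.mono_left ?_ nhdsWithin_le_nhds⟩
        refine c2.neg.tendsto.congr' ?_
        filter_upwards [hVn] with w hw
        exact (h2 w hw).2.2.symm
    · have hnear : ∀ᶠ w in 𝓝 z, w ∉ S \ S₁ := by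
        filter_upwards [isClosed_closure.isOpen_compl.mem_nhds hzc] with w hw hc
        exact hw (subset_closure hc)
      have hnw : 𝓝[S₁ᶜ] z = 𝓝[Sᶜ] z := by
        rw [nhdsWithin_eq_iff_eventuallyEq]
        filter_upwards [hnear] with w hw
        apply propext
        change w ∉ S₁ ↔ w ∉ S
        constructor
        · intro h1 h2
          exact hw ⟨h2, h1⟩
        · intro h1 h2
          exact h1 (hsub h2)
      have hzf : z ∈ frontier S := by
        rw [frontier_eq_closure_inter_closure]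
        refine ⟨subset_closure (hsub hz1), ?_⟩
        rw [mem_closure_iff_nhdsWithin_neBot, ← hnw, ← mem_closure_iff_nhdsWithin_neBot]
        rw [frontier_eq_closure_inter_closure] at hz
        exact hz.2
      obtain ⟨⟨y1, hy1⟩, ⟨y2, hy2⟩⟩ := hf.2 z hzf
      obtain ⟨⟨y3, hy3⟩, ⟨y4, hy4⟩⟩ := hl z hzf
      have c1 : Tendsto φ (𝓝[Sᶜ] z) (𝓝 (φ z)) :=
        hφ.continuous.continuousAt.tendsto.mono_left nhdsWithin_le_nhds
      have c2 : Tendsto (dz φ) (𝓝[Sᶜ] z) (𝓝 (dz φ z)) :=
        (contDiff_dz hφ).continuous.continuousAt.tendsto.mono_left nhdsWithin_le_nhds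
      rw [hnw]
      constructor
      · exact ⟨_, (c1.mul hy1).sub hy3⟩
      · refine ⟨_, (((c2.mul hy1).add (c1.mul hy2)).sub hy4).congr' ?_⟩
        filter_upwards [self_mem_nhdsWithin] with w hw
        exact (off w hw).2.symm

/-! ### the corrected local solutions -/

lemma exists_g (hL : SpecLocal) {S : Set ℂ} (hS : IsClosed S) {f : ℂ → ℂ} (hf : A1 S f)
    {O : Set ℂ} (hO : IsOpen O) {θ : ℂ → ℂ} (hθ : Test θ) (hθO : tsupport θ ⊆ O) (m : ℕ)
    (hθm : ∀ z, ‖z‖ < m → θ z = 0) :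
    ∃ (K : Set ℂ) (g : ℂ → ℂ), IsClosed K ∧ K ⊆ S ∩ O ∧ (∀ z ∈ K, (m : ℝ) - 1 < ‖z‖) ∧
      ContDiffOn ℝ ∞ g Kᶜ ∧ (∀ z ∈ Kᶜ, db g z = f z * θ z) ∧
      (∀ z ∈ frontier S, (∃ y, Tendsto g (𝓝[Sᶜ] z) (𝓝 y)) ∧
        (∃ y, Tendsto (dz g) (𝓝[Sᶜ] z) (𝓝 y))) ∧
      DifferentiableOn ℂ g (Metric.ball 0 ((m : ℝ) - 1)) ∧
      ∀ z, ‖z‖ < (m : ℝ) - 2 → ‖g z‖ ≤ (1 / 2) ^ m := by
  have hVo : IsOpen (O ∩ {z : ℂ | (m : ℝ) - 1 < ‖z‖}) :=
    hO.inter (isOpen_lt continuous_const continuous_norm)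
  have hθV : tsupport θ ⊆ O ∩ {z : ℂ | (m : ℝ) - 1 < ‖z‖} := by
    refine subset_inter hθO ?_
    have : tsupport θ ⊆ {z : ℂ | (m : ℝ) ≤ ‖z‖} := by
      refine closure_minimal ?_ (isClosed_le continuous_const continuous_norm)
      intro z hz
      by_contra hc
      exact hz (hθm z (not_le.1 hc))
    intro z hz
    have h1 : (m : ℝ) ≤ ‖z‖ := this hz
    change (m : ℝ) - 1 < ‖z‖
    linarith
  obtain ⟨χ, hχ, hχ1, hχV⟩ := exists_chi hθ.2.isCompact hVo hθV
  obtain ⟨h, hh1, hh2, hh3⟩ := hL S hS f hf θ χ hθ hχ hχ1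
  set K := S ∩ tsupport χ with hKdef
  have hK : IsClosed K := hS.inter (isClosed_tsupport χ)
  have hKm : ∀ z ∈ K, (m : ℝ) - 1 < ‖z‖ := fun z hz => (hχV hz.2).2
  have hhol : DifferentiableOn ℂ h (Metric.ball 0 ((m : ℝ) - 1)) := by
    intro z hz
    have hzn : ‖z‖ < (m : ℝ) - 1 := by simpa using hz
    have hzK : z ∈ Kᶜ := fun hc => by
      have := hKm z hc
      linarith
    refine DifferentiableAt.differentiableWithinAt ?_
    refine differentiableAt_of_db
      ((hh1.contDiffAt (hK.isOpen_compl.mem_nhds hzK)).differentiableAt (by simp)) ?_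
    rw [hh2 z hzK, hθm z (by linarith), mul_zero]
  obtain ⟨p, hp, hpb⟩ := approx (r := (m : ℝ) - 2) hhol (by linarith)
    (show (0 : ℝ) < (1 / 2) ^ m by positivity)
  have hpd : ContDiff ℝ ∞ p := (hp.contDiff (n := ∞)).restrict_scalars ℝ
  have hpr : Differentiable ℝ p := hpd.differentiable (by simp)
  have hhr : ∀ z ∈ Kᶜ, DifferentiableAt ℝ h z := fun z hz =>
    (hh1.contDiffAt (hK.isOpen_compl.mem_nhds hz)).differentiableAt (by simp)
  have hg1 : ContDiffOn ℝ ∞ (fun z => h z - p z) Kᶜ := hh1.sub hpd.contDiffOn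
  refine ⟨K, fun z => h z - p z, hK, fun z hz => ⟨hz.1, (hχV hz.2).1⟩, hKm, hg1, ?_, ?_,
    hhol.sub hp.differentiableOn, hpb⟩
  · intro z hz
    rw [db_sub (hhr z hz) (hpr z), hh2 z hz, db_eq_zero (hp z), sub_zero]
  · intro z hz
    by_cases hzK : z ∈ K
    · have hsub : Sᶜ ⊆ Kᶜ := compl_subset_compl.2 inter_subset_left
      have hzf : z ∈ frontier K := by
        rw [frontier_eq_closure_inter_closure] at hz ⊢
        exact ⟨subset_closure hzK, closure_mono hsub hz.2⟩
      obtain ⟨⟨y1, hy1⟩, ⟨y2, hy2⟩⟩ := hh3 z hzf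
      have hy1' := hy1.mono_left (nhdsWithin_mono z hsub)
      have hy2' := hy2.mono_left (nhdsWithin_mono z hsub)
      constructor
      · exact ⟨_, hy1'.sub
          (hpd.continuous.continuousAt.tendsto.mono_left nhdsWithin_le_nhds)⟩
      · refine ⟨_, (hy2'.sub ((contDiff_dz hpd).continuous.continuousAt.tendsto.mono_left
          nhdsWithin_le_nhds)).congr' ?_⟩
        filter_upwards [self_mem_nhdsWithin] with w hw
        exact (dz_sub (hhr w (hsub hw)) (hpr w)).symm
    · have hn : Kᶜ ∈ 𝓝 z := hK.isOpen_compl.mem_nhds hzK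
      exact ⟨⟨_, (hg1.contDiffAt hn).continuousAt.tendsto.mono_left nhdsWithin_le_nhds⟩,
        ⟨_, ((contDiffOn_dz hK.isOpen_compl hg1).contDiffAt hn).continuousAt.tendsto.mono_left
          nhdsWithin_le_nhds⟩⟩

/-! ### the Mittag-Leffler sum -/

lemma dz_sum {ι : Type} (s : Finset ι) (g : ι → ℂ → ℂ) {z : ℂ}
    (hg : ∀ i ∈ s, DifferentiableAt ℝ (g i) z) :
    dz (fun w => ∑ i ∈ s, g i w) z = ∑ i ∈ s, dz (g i) z := by
  classical
  induction s using Finset.induction_on with
  | empty => simp [dz_const]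
  | insert a s ha ih =>
    simp only [Finset.sum_insert ha]
    rw [dz_add (hg a (Finset.mem_insert_self a s)), ih]
    · exact fun i hi => hg i (Finset.mem_insert_of_mem hi)
    · exact DifferentiableAt.fun_sum fun i hi => hg i (Finset.mem_insert_of_mem hi)

lemma db_sum {ι : Type} (s : Finset ι) (g : ι → ℂ → ℂ) {z : ℂ}
    (hg : ∀ i ∈ s, DifferentiableAt ℝ (g i) z) :
    db (fun w => ∑ i ∈ s, g i w) z = ∑ i ∈ s, db (g i) z := by
  classical
  induction s using Finset.induction_on with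
  | empty => simp [db_const]
  | insert a s ha ih =>
    simp only [Finset.sum_insert ha]
    rw [db_add (hg a (Finset.mem_insert_self a s)), ih]
    · exact fun i hi => hg i (Finset.mem_insert_of_mem hi)
    · exact DifferentiableAt.fun_sum fun i hi => hg i (Finset.mem_insert_of_mem hi)

lemma exists_h (hL : SpecLocal) {S : Set ℂ} (hS : IsClosed S) {f : ℂ → ℂ} (hf : A1 S f)
    {O : Set ℂ} (hO : IsOpen O) {θ : ℂ → ℂ} (hθ : ContDiff ℝ ∞ θ) (hθO : tsupport θ ⊆ O) :
    ∃ h : ℂ → ℂ,
      (∀ z, z ∉ S ∩ O →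
        ∃ U, IsOpen U ∧ z ∈ U ∧ ContDiffOn ℝ ∞ h U ∧ ∀ w ∈ U, db h w = f w * θ w) ∧
      ∀ z ∈ frontier S, (∃ y, Tendsto h (𝓝[Sᶜ] z) (𝓝 y)) ∧
        (∃ y, Tendsto (dz h) (𝓝[Sᶜ] z) (𝓝 y)) := by
  obtain ⟨ψ, hψ, hψ0, hψ1⟩ := exists_radial
  have hg : ∀ m : ℕ, ∃ (K : Set ℂ) (g : ℂ → ℂ), IsClosed K ∧ K ⊆ S ∩ O ∧
      (∀ z ∈ K, (m : ℝ) - 1 < ‖z‖) ∧
      ContDiffOn ℝ ∞ g Kᶜ ∧ (∀ z ∈ Kᶜ, db g z = f z * (θ z * ψ m z)) ∧
      (∀ z ∈ frontier S, (∃ y, Tendsto g (𝓝[Sᶜ] z) (𝓝 y)) ∧
        (∃ y, Tendsto (dz g) (𝓝[Sᶜ] z) (𝓝 y))) ∧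
      DifferentiableOn ℂ g (Metric.ball 0 ((m : ℝ) - 1)) ∧
      ∀ z, ‖z‖ < (m : ℝ) - 2 → ‖g z‖ ≤ (1 / 2) ^ m := by
    intro m
    refine exists_g hL hS hf hO (θ := fun z => θ z * ψ m z) (Test.mul_left hθ (hψ m)) ?_ m ?_
    · refine subset_trans ?_ hθO
      refine closure_mono fun z hz => ?_
      simp only [Function.mem_support, ne_eq, mul_eq_zero, not_or] at hz ⊢
      exact hz.1
    · intro z hz
      rw [hψ0 m z hz, mul_zero]
  choose K g hK hKS hKm hg1 hg2 hg3 hg4 hg5 using hg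
  -- local description
  have loc : ∀ M : ℕ, ∃ T : ℂ → ℂ, DifferentiableOn ℂ T (Metric.ball 0 (M : ℝ)) ∧
      ∀ z ∈ Metric.ball (0 : ℂ) (M : ℝ),
        ∑' m, g m z = ∑ m ∈ Finset.range (M + 2), g m z + T z := by
    intro M
    have hb : ∀ (i : ℕ) (w : ℂ), w ∈ Metric.ball (0 : ℂ) (M : ℝ) →
        ‖g (i + (M + 2)) w‖ ≤ (1 / 2) ^ i := by
      intro i w hw
      have hw' : ‖w‖ < M := by simpa using hw
      refine (hg5 (i + (M + 2)) w ?_).trans ?_
      · push_cast
        have : (0 : ℝ) ≤ i := Nat.cast_nonneg i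
        linarith
      · exact pow_le_pow_of_le_one (by norm_num) (by norm_num) (by omega)
    have hsum : Summable (fun i : ℕ => ((1 : ℝ) / 2) ^ i) := summable_geometric_two
    refine ⟨fun z => ∑' i, g (i + (M + 2)) z, ?_, ?_⟩
    · refine differentiableOn_tsum_of_summable_norm hsum (fun i => ?_) Metric.isOpen_ball hb
      refine (hg4 (i + (M + 2))).mono (Metric.ball_subset_ball ?_)
      push_cast
      have : (0 : ℝ) ≤ i := Nat.cast_nonneg i
      linarith
    · intro z hz
      have hs : Summable (fun i => g (i + (M + 2)) z) :=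
        Summable.of_norm_bounded hsum (fun i => hb i z hz)
      have hs2 : Summable (fun i => g i z) := (summable_nat_add_iff (M + 2)).1 hs
      exact (hs2.sum_add_tsum_nat_add (M + 2)).symm
  refine ⟨fun z => ∑' m, g m z, ?_, ?_⟩
  · intro z hz
    obtain ⟨M, hM⟩ := exists_nat_gt ‖z‖
    obtain ⟨T, hT, hTe⟩ := loc M
    have hKz : ∀ m, z ∉ K m := fun m hc => hz (hKS m hc)
    set U := Metric.ball (0 : ℂ) (M : ℝ) ∩ ⋂ m ∈ Finset.range (M + 2), (K m)ᶜ with hU
    have hUo : IsOpen U := by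
      refine Metric.isOpen_ball.inter ?_
      exact isOpen_biInter_finset fun m _ => (hK m).isOpen_compl
    have hzU : z ∈ U := by
      refine ⟨by simpa using hM, ?_⟩
      simp only [mem_iInter]
      exact fun m _ => hKz m
    have hUb : U ⊆ Metric.ball (0 : ℂ) (M : ℝ) := inter_subset_left
    have hUK : ∀ m ∈ Finset.range (M + 2), U ⊆ (K m)ᶜ := by
      intro m hm w hw
      have := hw.2
      simp only [mem_iInter] at this
      exact this m hm
    have hTs : ContDiffOn ℝ ∞ T (Metric.ball 0 (M : ℝ)) :=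
      (hT.contDiffOn (n := ∞) Metric.isOpen_ball).restrict_scalars ℝ
    have hloc : ContDiffOn ℝ ∞ (fun z => ∑ m ∈ Finset.range (M + 2), g m z + T z) U := by
      refine ContDiffOn.add ?_ (hTs.mono hUb)
      exact ContDiffOn.sum fun m hm => (hg1 m).mono (hUK m hm)
    refine ⟨U, hUo, hzU, hloc.congr fun w hw => hTe w (hUb hw), ?_⟩
    intro w hw
    have he : (fun z => ∑' m, g m z) =ᶠ[𝓝 w]
        fun z => ∑ m ∈ Finset.range (M + 2), g m z + T z := by
      filter_upwards [hUo.mem_nhds hw] with v hv using hTe v (hUb hv)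
    have hgd : ∀ m ∈ Finset.range (M + 2), DifferentiableAt ℝ (g m) w := fun m hm =>
      ((hg1 m).contDiffAt ((hK m).isOpen_compl.mem_nhds (hUK m hm hw))).differentiableAt
        (by simp)
    have hTd : DifferentiableAt ℂ T w :=
      hT.differentiableAt (Metric.isOpen_ball.mem_nhds (hUb hw))
    rw [db_congr he, db_add (DifferentiableAt.fun_sum hgd) (hTd.restrictScalars ℝ),
      db_sum _ _ hgd, db_eq_zero hTd, add_zero,
      Finset.sum_congr rfl fun m hm => hg2 m w (hUK m hm hw), ← Finset.mul_sum,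
      ← Finset.mul_sum, hψ1 (M + 2) w, mul_one]
    have : ‖w‖ < M := by simpa using hUb hw
    push_cast
    linarith
  · intro z hz
    obtain ⟨M, hM⟩ := exists_nat_gt ‖z‖
    obtain ⟨T, hT, hTe⟩ := loc M
    have hzb : z ∈ Metric.ball (0 : ℂ) (M : ℝ) := by simpa using hM
    have hbn : Metric.ball (0 : ℂ) (M : ℝ) ∈ 𝓝 z := Metric.isOpen_ball.mem_nhds hzb
    have hTs : ContDiffOn ℝ ∞ T (Metric.ball 0 (M : ℝ)) :=
      (hT.contDiffOn (n := ∞) Metric.isOpen_ball).restrict_scalars ℝ
    have c1 : Tendsto T (𝓝[Sᶜ] z) (𝓝 (T z)) :=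
      (hTs.contDiffAt hbn).continuousAt.tendsto.mono_left nhdsWithin_le_nhds
    have c2 : Tendsto (dz T) (𝓝[Sᶜ] z) (𝓝 (dz T z)) :=
      ((contDiffOn_dz Metric.isOpen_ball hTs).contDiffAt hbn).continuousAt.tendsto.mono_left
        nhdsWithin_le_nhds
    choose y1 hy1 using fun m => (hg3 m z hz).1
    choose y2 hy2 using fun m => (hg3 m z hz).2
    constructor
    · refine ⟨∑ m ∈ Finset.range (M + 2), y1 m + T z, ?_⟩
      refine ((tendsto_finsetSum _ fun m _ => hy1 m).add c1).congr' ?_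
      filter_upwards [nhdsWithin_le_nhds hbn] with w hw
      exact (hTe w hw).symm
    · refine ⟨∑ m ∈ Finset.range (M + 2), y2 m + dz T z, ?_⟩
      refine ((tendsto_finsetSum _ fun m _ => hy2 m).add c2).congr' ?_
      filter_upwards [nhdsWithin_le_nhds hbn, self_mem_nhdsWithin] with w hw hwS
      have he : (fun z => ∑' m, g m z) =ᶠ[𝓝 w]
          fun z => ∑ m ∈ Finset.range (M + 2), g m z + T z := by
        filter_upwards [Metric.isOpen_ball.mem_nhds hw] with v hv using hTe v hv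
      have hgd : ∀ m ∈ Finset.range (M + 2), DifferentiableAt ℝ (g m) w := fun m _ =>
        ((hg1 m).contDiffAt ((hK m).isOpen_compl.mem_nhds
          (fun hc => hwS (hKS m hc).1))).differentiableAt (by simp)
      have hTd : DifferentiableAt ℂ T w := hT.differentiableAt (Metric.isOpen_ball.mem_nhds hw)
      rw [dz_congr he, dz_add (DifferentiableAt.fun_sum hgd) (hTd.restrictScalars ℝ),
        dz_sum _ _ hgd]

end Glob

/-- the local theorem implies the global one -/
theorem specGlobal (hL : SpecLocal) : SpecGlobal := by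
  intro S S₁ S₂ hS hS₁ hS₂ hSS hdec f hf
  have hsub1 : S₁ ⊆ S := hSS ▸ subset_union_left
  have hsub2 : S₂ ⊆ S := hSS ▸ subset_union_right
  have hclS : ∀ T : Set ℂ, closure (S \ T) ⊆ S := fun T =>
    closure_minimal sdiff_subset hS
  have hdisj : Disjoint (closure (S \ S₁)) (closure (S \ S₂)) := by
    rw [Set.disjoint_left]
    intro z h1 h2
    rcases hdec z (hclS _ h1) with ⟨U, hU, hUS⟩ | ⟨U, hU, hUS⟩
    · obtain ⟨w, hwU, hw⟩ := mem_closure_iff_nhds.1 h1 U hU
      exact hw.2 (hUS ⟨hwU, hw.1⟩)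
    · obtain ⟨w, hwU, hw⟩ := mem_closure_iff_nhds.1 h2 U hU
      exact hw.2 (hUS ⟨hwU, hw.1⟩)
  obtain ⟨φ, hφ, hφ0, hφ1⟩ := Glob.exists_sep isClosed_closure isClosed_closure hdisj
  have hφd : Differentiable ℝ φ := hφ.differentiable (by simp)
  set O : Set ℂ := (closure (S \ S₁) ∪ closure (S \ S₂))ᶜ with hOdef
  have hO : IsOpen O := (isClosed_closure.union isClosed_closure).isOpen_compl
  have hθO : tsupport (db φ) ⊆ O := by
    intro z hz hc
    have : z ∉ tsupport (db φ) := by
      rw [notMem_tsupport_iff_eventuallyEq]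
      rcases hc with hc | hc
      · filter_upwards [(hφ0 z hc).eventually_nhds] with w hw
        rw [db_congr hw, db_const]
        rfl
      · filter_upwards [(hφ1 z hc).eventually_nhds] with w hw
        rw [db_congr hw, db_const]
        rfl
    exact this hz
  obtain ⟨h, hh1, hh2⟩ := Glob.exists_h hL hS hf hO (contDiff_db hφ) hθO
  have hφ' : ContDiff ℝ ∞ (fun z => 1 - φ z) := contDiff_const.sub hφ
  refine ⟨fun z => φ z * f z - h z, fun z => (1 - φ z) * f z - -h z, ?_, ?_, ?_⟩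
  · refine Glob.side hS hS₁ hsub1 hf hφ hφ0 ?_ hh2
    intro z hz
    refine hh1 z ?_
    rintro ⟨h1, h2⟩
    rcases hz with hz | hz
    · exact hz h1
    · exact h2 (Or.inl hz)
  · refine Glob.side (h := fun z => -h z) hS hS₂ hsub2 hf hφ' ?_ ?_ ?_
    · intro z hz
      filter_upwards [hφ1 z hz] with w hw
      rw [hw, sub_self]
    · intro z hz
      obtain ⟨U, hU, hzU, h1, h2⟩ := hh1 z (by
        rintro ⟨h1, h2⟩
        rcases hz with hz | hz
        · exact hz h1
        · exact h2 (Or.inr hz))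
      refine ⟨U, hU, hzU, h1.neg, ?_⟩
      intro w hw
      rw [db_neg, h2 w hw, db_sub (differentiableAt_const 1) (hφd w), db_const]
      ring
    · intro z hz
      obtain ⟨⟨y1, hy1⟩, ⟨y2, hy2⟩⟩ := hh2 z hz
      refine ⟨⟨-y1, hy1.neg⟩, ⟨-y2, hy2.neg.congr fun w => dz_neg.symm⟩⟩
  · intro z _
    simp only [Pi.add_apply]
    ring

end Pool.Agent.Lib.MP_1707ab_an
end

section
/-!
Module WEYL: continuous weak solutions of `∂̄ h = g`, `∂ h = k` are classical solutions.
-/
set_option autoImplicit false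

open MeasureTheory Complex Set Filter Topology Metric
open scoped ContDiff Convolution

namespace Pool.Agent.Lib.MP_1707ab_an

lemma Weyl.continuous_mul {V : Set ℂ} (hV : IsOpen V) {G Z : ℂ → ℂ} (hG : ContinuousOn G V)
    (hZ : Test Z) (hs : tsupport Z ⊆ V) : Continuous fun w => G w * Z w := by
  refine continuous_iff_continuousAt.2 fun z => ?_
  by_cases hz : z ∈ tsupport Z
  · exact (hG.continuousAt (hV.mem_nhds (hs hz))).mul hZ.continuous.continuousAt
  · have h := notMem_tsupport_iff_eventuallyEq.1 hz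
    have : (fun z => G z * Z z) =ᶠ[𝓝 z] fun _ => 0 := by
      filter_upwards [h] with w hw
      rw [hw]
      simp
    exact continuousAt_const.congr this.symm

/-- a continuous weakly holomorphic function is holomorphic -/
lemma Weyl.holo {z₀ : ℂ} {r : ℝ} (hr : 0 < r) {u : ℂ → ℂ} (hu : ContinuousOn u (closedBall z₀ r))
    (hw : ∀ φ, Test φ → tsupport φ ⊆ ball z₀ r → ∫ z, u z * db φ z = 0) :
    DifferentiableOn ℂ u (ball z₀ (r / 2)) := by
  set v : ℂ → ℂ := (closedBall z₀ r).indicator u with hv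
  have hvi : Integrable v :=
    (integrable_indicator_iff measurableSet_closedBall).2
      (hu.integrableOn_compact (isCompact_closedBall _ _))
  have hvl : LocallyIntegrable v := hvi.locallyIntegrable
  -- mollifiers
  set s : ℕ → ℝ := fun n => r / (2 * ((n : ℝ) + 1)) with hs
  have hs0 : ∀ n, 0 < s n := fun n => by simp only [hs]; positivity
  have hs1 : ∀ n, s n ≤ r / 2 := by
    intro n
    simp only [hs]
    apply div_le_div_of_nonneg_left hr.le (by norm_num)
    have : (0 : ℝ) ≤ n := Nat.cast_nonneg n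
    linarith
  have hslim : Tendsto s atTop (𝓝 0) := by
    have h1 : Tendsto (fun n : ℕ => (1 : ℝ) / ((n : ℝ) + 1)) atTop (𝓝 0) :=
      tendsto_one_div_add_atTop_nhds_zero_nat
    have h2 := h1.const_mul (r / 2)
    rw [mul_zero] at h2
    refine h2.congr fun n => ?_
    simp only [hs]
    field_simp
  let ρ : ℕ → ContDiffBump (0 : ℂ) := fun n => ⟨s n / 2, s n, half_pos (hs0 n), half_lt_self (hs0 n)⟩
  let R : ℕ → ℂ → ℂ := fun n z => (((ρ n).normed volume z : ℝ) : ℂ)
  have hR : ∀ n, Test (R n) := by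
    intro n
    refine ⟨ofRealCLM.contDiff.comp (ρ n).contDiff_normed, ?_⟩
    exact (ρ n).hasCompactSupport_normed.comp_left ofReal_zero
  have hRsupp : ∀ n z, s n ≤ ‖z‖ → R n z = 0 := by
    intro n z hz
    have h1 : z ∉ Function.support ((ρ n).normed volume) := by
      rw [(ρ n).support_normed_eq, mem_ball_zero_iff, not_lt]
      exact hz
    simp only [R]
    rw [Function.notMem_support.1 h1, ofReal_zero]
  let w : ℕ → ℂ → ℂ := fun n => v ⋆[ContinuousLinearMap.mul ℝ ℂ, volume] R n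
  have hwd : ∀ n x, HasFDerivAt (w n)
      ((v ⋆[(ContinuousLinearMap.mul ℝ ℂ).precompR ℂ, volume] fderiv ℝ (R n)) x) x := fun n x =>
    (hR n).2.hasFDerivAt_convolution_right (ContinuousLinearMap.mul ℝ ℂ) hvl
      ((hR n).1.of_le (by simp)) x
  have hwd' : ∀ n x e, fderiv ℝ (w n) x e = ∫ t, v t * fderiv ℝ (R n) (x - t) e := by
    intro n x e
    rw [(hwd n x).fderiv, convolution_precompR_apply _ hvl ((hR n).2.fderiv ℝ)
      ((hR n).1.continuous_fderiv (by simp))]
    rfl
  have hint : ∀ n x e, Integrable fun t => v t * fderiv ℝ (R n) (x - t) e := by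
    intro n x e
    have hc : Continuous fun a => fderiv ℝ (R n) a e :=
      ((hR n).1.continuous_fderiv (by simp)).clm_apply continuous_const
    exact ((hR n).2.fderiv_apply ℝ e).convolutionExists_right (ContinuousLinearMap.mul ℝ ℂ) hvl
      hc x
  have hwholo : ∀ n, DifferentiableOn ℂ (w n) (ball z₀ (r / 2)) := by
    intro n x hx
    refine DifferentiableAt.differentiableWithinAt ?_
    refine differentiableAt_of_db (hwd n x).differentiableAt ?_
    -- the test function
    set φ : ℂ → ℂ := fun t => R n (x - t) with hφ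
    have hφd : ∀ t e, fderiv ℝ φ t e = -fderiv ℝ (R n) (x - t) e := by
      intro t e
      have h1 : HasFDerivAt (fun t : ℂ => x - t) (-ContinuousLinearMap.id ℝ ℂ) t := by
        simpa using (hasFDerivAt_id (𝕜 := ℝ) t).const_sub x
      have h2 := ((hR n).differentiable (x - t)).hasFDerivAt.comp t h1
      have h3 : fderiv ℝ φ t = (fderiv ℝ (R n) (x - t)).comp (-ContinuousLinearMap.id ℝ ℂ) :=
        h2.fderiv
      rw [h3]
      simp
    have hφs : tsupport φ ⊆ closedBall x (s n) := by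
      refine closure_minimal ?_ isClosed_closedBall
      intro t ht
      by_contra hc
      rw [mem_closedBall, dist_comm, dist_eq, not_le] at hc
      exact ht (hRsupp n _ hc.le)
    have hφs2 : tsupport φ ⊆ ball z₀ r := by
      refine hφs.trans fun t ht => ?_
      rw [mem_closedBall] at ht
      rw [mem_ball] at hx ⊢
      have := dist_triangle t x z₀
      have := hs1 n
      linarith
    have hφT : Test φ := by
      refine ⟨(hR n).1.comp (contDiff_const.sub contDiff_id), ?_⟩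
      exact (isCompact_closedBall _ _).of_isClosed_subset (isClosed_tsupport _) hφs
    have h0 := hw φ hφT hφs2
    have h1 : db (w n) x = ∫ t, v t * db (R n) (x - t) := by
      unfold db
      rw [hwd', hwd', ← integral_const_mul, ← integral_add (hint n x 1) ((hint n x I).const_mul I),
        ← integral_div]
      refine integral_congr_ae (Eventually.of_forall fun t => ?_)
      simp only
      ring
    have h2 : ∫ t, v t * db (R n) (x - t) = -∫ t, u t * db φ t := by
      rw [← integral_neg]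
      refine integral_congr_ae (Eventually.of_forall fun t => ?_)
      simp only
      have e : db φ t = -db (R n) (x - t) := by
        unfold db
        rw [hφd, hφd]
        ring
      by_cases ht : t ∈ closedBall z₀ r
      · rw [hv, indicator_of_mem ht, e]
        ring
      · have h3 : db φ t = 0 := by
          have : t ∉ tsupport φ := fun h => ht (ball_subset_closedBall (hφs2 h))
          exact image_eq_zero_of_notMem_tsupport fun h => this (tsupport_db φ h)
        rw [e, neg_eq_zero] at h3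
        rw [e, h3]
        simp
    rw [h1, h2, h0, neg_zero]
  -- uniform convergence
  have hconv : TendstoUniformlyOn w u atTop (ball z₀ (r / 2)) := by
    rw [Metric.tendstoUniformlyOn_iff]
    intro ε hε
    have huc := (isCompact_closedBall z₀ r).uniformContinuousOn_of_continuous hu
    rw [Metric.uniformContinuousOn_iff] at huc
    obtain ⟨δ, hδ, h⟩ := huc (ε / 2) (half_pos hε)
    filter_upwards [hslim.eventually (gt_mem_nhds hδ)] with n hn x hx
    have hxc : x ∈ closedBall z₀ r := ball_subset_closedBall (ball_subset_ball (by linarith) hx)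
    have e1 : w n x = ((ρ n).normed volume ⋆[ContinuousLinearMap.lsmul ℝ ℝ, volume] v) x := by
      rw [convolution_lsmul_swap]
      simp only [w, convolution_def, ContinuousLinearMap.mul_apply', R]
      refine integral_congr_ae (Eventually.of_forall fun t => ?_)
      simp only [real_smul]
      ring
    have e2 : v x = u x := by rw [hv, indicator_of_mem hxc]
    have h2 : dist (((ρ n).normed volume ⋆[ContinuousLinearMap.lsmul ℝ ℝ, volume] v) x) (v x)
        ≤ ε / 2 := by
      refine (ρ n).dist_normed_convolution_le hvi.aestronglyMeasurable fun y hy => ?_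
      have hy' : dist y x < s n := hy
      have hyc : y ∈ closedBall z₀ r := by
        rw [mem_closedBall]
        rw [mem_ball] at hx
        have := dist_triangle y x z₀
        have := hs1 n
        linarith
      rw [e2, hv, indicator_of_mem hyc]
      exact (h y hyc x hxc (hy'.trans hn)).le
    rw [dist_comm, e1, ← e2]
    linarith
  exact hconv.tendstoLocallyUniformlyOn.differentiableOn (Eventually.of_forall hwholo) isOpen_ball

/-- the fundamental lemma of the calculus of variations, for continuous functions -/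
lemma Weyl.eqOn {U : Set ℂ} (hU : IsOpen U) {a b : ℂ → ℂ} (ha : ContinuousOn a U)
    (hb : ContinuousOn b U)
    (h : ∀ φ, Test φ → tsupport φ ⊆ U → ∫ z, a z * φ z = ∫ z, b z * φ z) : EqOn a b U := by
  have h1 : ∀ᵐ x ∂(volume : Measure ℂ), x ∈ U → (fun z => a z - b z) x = 0 := by
    refine hU.ae_eq_zero_of_integral_contDiff_smul_eq_zero
      ((ha.sub hb).locallyIntegrableOn hU.measurableSet) ?_
    intro g hg hgc hgs
    set φ : ℂ → ℂ := fun z => (g z : ℂ) with hφ
    have hφT : Test φ := ⟨ofRealCLM.contDiff.comp hg, hgc.comp_left ofReal_zero⟩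
    have hφs : tsupport φ ⊆ U := by
      refine (closure_mono ?_).trans hgs
      intro z hz h0
      apply hz
      simp only [hφ]
      rw [h0, ofReal_zero]
    have hia : Integrable fun z => a z * φ z := by
      exact (Weyl.continuous_mul hU ha hφT hφs).integrable_of_hasCompactSupport hφT.2.mul_left
    have hib : Integrable fun z => b z * φ z := by
      exact (Weyl.continuous_mul hU hb hφT hφs).integrable_of_hasCompactSupport hφT.2.mul_left
    have e : ∀ z, g z • (a z - b z) = a z * φ z - b z * φ z := by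
      intro z
      simp only [hφ, real_smul]
      ring
    rw [integral_congr_ae (Eventually.of_forall e), integral_sub hia hib, h φ hφT hφs, sub_self]
  refine Measure.eqOn_open_of_ae_eq (μ := volume) ?_ hU ha hb
  rw [EventuallyEq, ae_restrict_iff' hU.measurableSet]
  filter_upwards [h1] with x hx hxU
  exact sub_eq_zero.1 (hx hxU)

theorem specWeyl (hS : SpecCauSmooth) (hD : SpecDbCau) : SpecWeyl := by
  intro U hU h g k hh hg hk h1 h2
  have hsmooth : ContDiffOn ℝ ∞ h U := by
    intro z₀ hz₀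
    refine ContDiffAt.contDiffWithinAt ?_
    obtain ⟨r₀, hr₀, hr₀U⟩ := Metric.isOpen_iff.1 hU z₀ hz₀
    set r : ℝ := r₀ / 3 with hr
    have hrpos : 0 < r := by positivity
    let ψ : ContDiffBump z₀ := ⟨r, 2 * r, hrpos, by linarith⟩
    set ψc : ℂ → ℂ := fun z => (ψ z : ℂ) with hψc
    have hψs : tsupport ψc ⊆ ball z₀ r₀ := by
      have h3 : tsupport ψc ⊆ closedBall z₀ (2 * r) := by
        refine closure_minimal ?_ isClosed_closedBall
        intro z hz
        have h4 : z ∈ Function.support ψ := by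
          intro h0
          apply hz
          simp only [hψc]
          rw [h0, ofReal_zero]
        rw [ψ.support_eq] at h4
        exact ball_subset_closedBall h4
      exact h3.trans (closedBall_subset_ball (by rw [hr]; linarith))
    have hψT : Test ψc :=
      ⟨ofRealCLM.contDiff.comp ψ.contDiff, ψ.hasCompactSupport.comp_left ofReal_zero⟩
    set γ : ℂ → ℂ := fun z => g z * ψc z with hγ
    have hγT : Test γ := hψT.mul_contDiffOn hU hg (hψs.trans hr₀U)
    have hγg : ∀ z ∈ closedBall z₀ r, γ z = g z := by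
      intro z hz
      simp only [hγ, hψc]
      rw [ψ.one_of_mem_closedBall hz, ofReal_one, mul_one]
    have hcs := hS γ hγT
    have hcd := hD γ hγT
    have hbU : closedBall z₀ r ⊆ U :=
      (closedBall_subset_ball (by rw [hr]; linarith)).trans hr₀U
    set u : ℂ → ℂ := fun z => h z - Cau γ z with hu
    have huc : ContinuousOn u (closedBall z₀ r) :=
      (hh.mono hbU).sub hcs.continuous.continuousOn
    have huh : DifferentiableOn ℂ u (ball z₀ (r / 2)) := by
      refine Weyl.holo hrpos huc fun φ hφ hφs => ?_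
      have hφU : tsupport φ ⊆ U := hφs.trans (ball_subset_closedBall.trans hbU)
      have e1 := h1 φ hφ hφU
      have e2 : ∫ z, Cau γ z * db φ z = -∫ z, db (Cau γ) z * φ z :=
        hφ.integral_mul_db isOpen_univ hcs.contDiffOn (subset_univ _)
      have e3 : ∫ z, db (Cau γ) z * φ z = ∫ z, g z * φ z := by
        refine integral_congr_ae (Eventually.of_forall fun z => ?_)
        simp only
        by_cases hz : z ∈ tsupport φ
        · rw [hcd, hγg z (ball_subset_closedBall (hφs hz))]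
        · rw [image_eq_zero_of_notMem_tsupport hz, mul_zero, mul_zero]
      have i1 : Integrable fun z => h z * db φ z := by
        exact (Weyl.continuous_mul hU hh hφ.db
          ((tsupport_db φ).trans hφU)).integrable_of_hasCompactSupport hφ.db.2.mul_left
      have i2 : Integrable fun z => Cau γ z * db φ z :=
        (Test.mul_left hcs hφ.db).integrable
      have e4 : ∀ z, u z * db φ z = h z * db φ z - Cau γ z * db φ z := by
        intro z
        simp only [hu]
        ring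
      rw [integral_congr_ae (Eventually.of_forall e4), integral_sub i1 i2, e1, e2, e3, sub_self]
    have hus : ContDiffAt ℝ ∞ u z₀ := by
      have h3 : ContDiffOn ℂ ∞ u (ball z₀ (r / 2)) := huh.contDiffOn isOpen_ball
      exact (h3.contDiffAt (ball_mem_nhds z₀ (by positivity))).restrict_scalars ℝ
    have h4 : h = fun z => u z + Cau γ z := by
      funext z
      simp only [hu]
      ring
    rw [h4]
    exact hus.add hcs.contDiffAt
  refine ⟨hsmooth, ?_, ?_⟩
  · refine Weyl.eqOn hU (contDiffOn_db hU hsmooth).continuousOn hg.continuousOn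
      fun φ hφ hφs => ?_
    have e1 := h1 φ hφ hφs
    have e2 := hφ.integral_mul_db hU hsmooth hφs
    rw [e2] at e1
    exact neg_injective e1
  · refine Weyl.eqOn hU (contDiffOn_dz hU hsmooth).continuousOn hk fun φ hφ hφs => ?_
    have e1 := h2 φ hφ hφs
    have e2 := hφ.integral_mul_dz hU hsmooth hφs
    rw [e2] at e1
    exact neg_injective e1

end Pool.Agent.Lib.MP_1707ab_an
end

section
/-!
Module LOCAL, part 8: the local theorem.
-/
set_option autoImplicit false

open MeasureTheory Complex Set Filter Topology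
open scoped ContDiff ComplexConjugate

namespace Pool.Agent.Lib.MP_1707ab_an

lemma cauAPI (hK : SpecKol) : CauAPI where
  smooth := specCauSmooth
  dbCau := specDbCau
  dzCau := specDzCau
  cauDb := specCauDb
  dual := specCauDual
  add := fun _ _ hf hg z => cau_add hf hg z
  l1 := specCauL1
  kol := hK
  comp := specComp

theorem specLocal (hK : SpecKol) : SpecLocal := by
  intro S hS f hf θ χ hθ hχ hθχ
  have A := cauAPI hK
  have hKcl : IsClosed (S ∩ tsupport χ) := hS.inter (isClosed_tsupport χ)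
  have hU : IsOpen (S ∩ tsupport χ)ᶜ := hKcl.isOpen_compl
  have hg := contDiffOn_g0 hS hf hχ
  have hg1 : ContDiffOn ℝ ∞ (dz fun z => χ z * f z) (S ∩ tsupport χ)ᶜ := contDiffOn_dz hU hg
  obtain ⟨G0, hG0, hG0e⟩ := exists_extension hg.continuousOn
    (fun z hz => tendsto_g0 hf hχ hz.1)
  obtain ⟨G1, hG1, hG1e⟩ := exists_extension hg1.continuousOn
    (fun z hz => tendsto_g1 hS hf hχ hz.1)
  obtain ⟨R, -, hR⟩ := hχ.exists_radius 0
  have hθsub : tsupport θ ⊆ tsupport χ := by
    intro z hz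
    have := (hθχ z hz).self_of_nhds
    exact subset_tsupport _ (by rw [Function.mem_support, this]; exact one_ne_zero)
  have hN1 : ∀ z, (∀ᶠ w in 𝓝 z, χ w = 1) → χ z = 1 := fun z hz => hz.self_of_nhds
  have hG0f : ∀ w ∈ (S ∩ tsupport χ)ᶜ, G0 w = χ w * f w := fun w hw => hG0e hw
  set D : LD2 :=
    { U := (S ∩ tsupport χ)ᶜ
      hU := hU
      G0 := G0
      G1 := G1
      hG0 := hG0
      hG1 := hG1
      hd := hg.congr hG0e
      h1 := fun z hz => by
        rw [hG1e hz]
        exact (dz_congr (Filter.eventuallyEq_of_mem (hU.mem_nhds hz) hG0e)).symm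
      V := (S ∩ tsupport χ)ᶜ ∩ Metric.ball 0 R
      hV := hU.inter Metric.isOpen_ball
      hVU := inter_subset_left
      R := R
      hVR := inter_subset_right
      θ := θ
      hθ := hθ
      N := {z | ∀ᶠ w in 𝓝 z, χ w = 1}
      hN := isOpen_setOfPred_eventually_nhds
      hθN := hθχ
      hNR := fun z hz => by
        have h1 : χ z = 1 := hN1 z hz
        exact hR (subset_tsupport _ (by rw [Function.mem_support, h1]; exact one_ne_zero))
      hdb := by
        rintro z ⟨hz, hzU⟩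
        have h1 : χ z = 1 := hN1 z hz
        have h2 : z ∈ tsupport χ :=
          subset_tsupport _ (by rw [Function.mem_support, h1]; exact one_ne_zero)
        have h3 : z ∈ Sᶜ := fun hc => hzU ⟨hc, h2⟩
        have h4 : G0 =ᶠ[𝓝 z] f := by
          filter_upwards [hU.mem_nhds hzU, hz] with w hw1 hw2
          rw [hG0f w hw1, hw2, one_mul]
        rw [db_congr h4]
        exact db_eq_zero (hf.1.differentiableAt (hS.isOpen_compl.mem_nhds h3)) } with hD
  obtain ⟨h, k, hh, hk, w1, w2⟩ := D.exists_weak A specHolo specAbs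
  have hVdef : D.V = (S ∩ tsupport χ)ᶜ ∩ Metric.ball 0 R := rfl
  have hVopen : IsOpen D.V := D.hV
  have hVU : D.V ⊆ (S ∩ tsupport χ)ᶜ := inter_subset_left
  have hgθ : ContDiffOn ℝ ∞ (fun w => G0 w * θ w) D.V :=
    ((hg.congr hG0e).mono hVU).mul hθ.1.contDiffOn
  obtain ⟨hsm, hdbh, hdzh⟩ := specWeyl specCauSmooth specDbCau D.V hVopen h
    (fun w => G0 w * θ w) k (hh.mono subset_closure) hgθ (hk.mono subset_closure) w1 w2
  -- cutoff
  obtain ⟨c, hc, hc1, hcs⟩ := Glob.exists_chi hχ.2.isCompact (Metric.isOpen_ball (x := (0 : ℂ))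
    (ε := R)) hR
  have hdc : tsupport (db c) ⊆ D.V := by
    intro z hz
    refine ⟨fun hzK => ?_, hcs (tsupport_db c hz)⟩
    have h1 := hc1 z hzK.2
    have h2 : z ∉ tsupport (db c) := by
      rw [notMem_tsupport_iff_eventuallyEq]
      filter_upwards [h1.eventually_nhds] with w hw
      have : c =ᶠ[𝓝 w] fun _ => 1 := hw
      rw [db_congr this]
      exact db_const 1
    exact h2 hz
  have tC : Test fun z => h z * db c z := hc.db.mul_contDiffOn hVopen hsm hdc
  have sC : ContDiff ℝ ∞ (Cau fun z => h z * db c z) := specCauSmooth _ tC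
  -- near points outside the ball
  have hout : ∀ z ∉ Metric.ball (0 : ℂ) R, (fun w => c w * h w) =ᶠ[𝓝 z] fun _ => 0 := by
    intro z hz
    have h1 : z ∉ tsupport c := fun hc => hz (hcs hc)
    filter_upwards [notMem_tsupport_iff_eventuallyEq.1 h1] with w hw
    rw [hw]
    simp
  have hsm2 : ∀ z ∈ (S ∩ tsupport χ)ᶜ, ContDiffAt ℝ ∞ (fun w => c w * h w) z := by
    intro z hz
    by_cases hzR : z ∈ Metric.ball (0 : ℂ) R
    · exact hc.1.contDiffAt.mul (hsm.contDiffAt (hVopen.mem_nhds ⟨hz, hzR⟩))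
    · exact contDiffAt_const.congr_of_eventuallyEq (hout z hzR)
  refine ⟨fun z => c z * h z - Cau (fun w => h w * db c w) z, ?_, ?_, ?_⟩
  · intro z hz
    exact ((hsm2 z hz).sub sC.contDiffAt).contDiffWithinAt
  · intro z hz
    rw [db_sub ((hsm2 z hz).differentiableAt (by simp)) (sC.differentiable (by simp) z),
      specDbCau _ tC]
    by_cases hzR : z ∈ Metric.ball (0 : ℂ) R
    · have hzV : z ∈ D.V := ⟨hz, hzR⟩
      rw [db_mul (hc.differentiable z)
        ((hsm.contDiffAt (hVopen.mem_nhds hzV)).differentiableAt (by simp)), hdbh z hzV]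
      have : c z * (G0 z * θ z) = f z * θ z := by
        by_cases h0 : z ∈ tsupport θ
        · have h1 : χ z = 1 := (hθχ z h0).self_of_nhds
          have h2 : c z = 1 := (hc1 z (hθsub h0)).self_of_nhds
          rw [h2, hG0f z hz, h1]
          ring
        · rw [image_eq_zero_of_notMem_tsupport h0]
          ring
      linear_combination this
    · have h1 : z ∉ tsupport (db c) := fun hc => hzR (D.hVR (hdc hc))
      have h2 : z ∉ tsupport θ := fun hc => hzR (hR (hθsub hc))
      rw [db_congr (hout z hzR), db_const, image_eq_zero_of_notMem_tsupport h1,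
        image_eq_zero_of_notMem_tsupport h2]
      ring
  · intro z hz
    have hzK : z ∈ S ∩ tsupport χ := by
      have := hz.1
      rwa [hKcl.closure_eq] at this
    have hzR : z ∈ Metric.ball (0 : ℂ) R := hR hzK.2
    have hzcl : z ∈ closure (S ∩ tsupport χ)ᶜ := by
      rw [closure_compl]
      exact hz.2
    have hnhds : 𝓝[(S ∩ tsupport χ)ᶜ] z = 𝓝[D.V] z := by
      rw [hVdef, nhdsWithin_inter_of_mem']
      exact mem_nhdsWithin_of_mem_nhds (Metric.isOpen_ball.mem_nhds hzR)
    have hzV : z ∈ closure D.V := by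
      rw [mem_closure_iff_nhdsWithin_neBot, ← hnhds, ← mem_closure_iff_nhdsWithin_neBot]
      exact hzcl
    have th : Tendsto h (𝓝[D.V] z) (𝓝 (h z)) := (hh z hzV).mono_left (nhdsWithin_mono _ subset_closure)
    have tk : Tendsto k (𝓝[D.V] z) (𝓝 (k z)) := (hk z hzV).mono_left (nhdsWithin_mono _ subset_closure)
    have tc : Tendsto c (𝓝[D.V] z) (𝓝 (c z)) := hc.continuous.continuousAt.tendsto.mono_left
      nhdsWithin_le_nhds
    have tCau : Tendsto (Cau fun w => h w * db c w) (𝓝[D.V] z)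
        (𝓝 (Cau (fun w => h w * db c w) z)) :=
      sC.continuous.continuousAt.tendsto.mono_left nhdsWithin_le_nhds
    have tdCau : Tendsto (dz (Cau fun w => h w * db c w)) (𝓝[D.V] z)
        (𝓝 (dz (Cau (fun w => h w * db c w)) z)) :=
      (contDiff_dz sC).continuous.continuousAt.tendsto.mono_left nhdsWithin_le_nhds
    rw [hnhds]
    refine ⟨⟨_, (tc.mul th).sub tCau⟩, ⟨_, (tk.sub tdCau).congr' ?_⟩⟩
    have h1 : ∀ᶠ w in 𝓝 z, ∀ᶠ v in 𝓝 w, c v = 1 := (hc1 z hzK.2).eventually_nhds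
    filter_upwards [self_mem_nhdsWithin, mem_nhdsWithin_of_mem_nhds h1] with w hw hw1
    have hwU : w ∈ (S ∩ tsupport χ)ᶜ := hVU hw
    rw [dz_sub ((hsm2 w hwU).differentiableAt (by simp)) (sC.differentiable (by simp) w)]
    have : (fun v => c v * h v) =ᶠ[𝓝 w] h := by
      filter_upwards [hw1] with v hv
      rw [hv, one_mul]
    rw [dz_congr this, hdzh w hw]

end Pool.Agent.Lib.MP_1707ab_an
end

section
/-!
From `SpecGlobal` to the statement in the form of the problem, for `n = 1`.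
-/
set_option autoImplicit false

open MeasureTheory Complex Set Filter Topology
open scoped ContDiff ComplexConjugate

namespace Pool.Agent.Lib.MP_1707ab_an

lemma mem_iff {T : Set ℂ} (hT : IsClosed T) (f : ℂ → ℂ) :
    (DifferentiableOn ℂ f Tᶜ ∧ ∀ k ≤ 1, ∃ g : ℂ → ℂ, ContinuousOn g (Tᶜ ∪ frontier T) ∧
      EqOn g (iteratedDeriv k f) Tᶜ) ↔ A1 T f := by
  have hT' : IsOpen Tᶜ := hT.isOpen_compl
  constructor
  · rintro ⟨hd, h⟩
    refine ⟨hd, fun z hz => ?_⟩
    have key : ∀ F : ℂ → ℂ, (∃ g : ℂ → ℂ, ContinuousOn g (Tᶜ ∪ frontier T) ∧ EqOn g F Tᶜ) →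
        ∃ y, Tendsto F (𝓝[Tᶜ] z) (𝓝 y) := by
      rintro F ⟨g, hg, hgF⟩
      refine ⟨g z, ?_⟩
      have h1 : Tendsto g (𝓝[Tᶜ] z) (𝓝 (g z)) :=
        (hg z (Or.inr hz)).mono_left (nhdsWithin_mono _ subset_union_left)
      exact h1.congr' (Filter.eventuallyEq_of_mem self_mem_nhdsWithin hgF)
    refine ⟨key _ ?_, key _ ?_⟩
    · have := h 0 (by norm_num)
      rwa [iteratedDeriv_zero] at this
    · have := h 1 le_rfl
      rwa [iteratedDeriv_one] at this
  · rintro ⟨hd, h⟩
    refine ⟨hd, ?_⟩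
    have key : ∀ F : ℂ → ℂ, ContinuousOn F Tᶜ →
        (∀ z ∈ frontier T, ∃ y, Tendsto F (𝓝[Tᶜ] z) (𝓝 y)) →
        ∃ g : ℂ → ℂ, ContinuousOn g (Tᶜ ∪ frontier T) ∧ EqOn g F Tᶜ := by
      intro F hF hlim
      refine ⟨extendFrom Tᶜ F, continuousOn_extendFrom ?_ ?_, fun z hz => ?_⟩
      · rintro z (hz | hz)
        · exact subset_closure hz
        · rw [closure_compl]
          exact hz.2
      · rintro z (hz | hz)
        · exact ⟨F z, hF z hz⟩
        · exact hlim z hz
      · exact extendFrom_eq (subset_closure hz) (hF z hz)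
    intro k hk
    interval_cases k
    · rw [iteratedDeriv_zero]
      exact key f hd.continuousOn fun z hz => (h z hz).1
    · rw [iteratedDeriv_one]
      refine key (deriv f) ?_ fun z hz => (h z hz).2
      exact ((hd.deriv hT').continuousOn)

lemma A1.tendsto_all {T : Set ℂ} (hT : IsClosed T) {f : ℂ → ℂ} (hf : A1 T f) (z : ℂ) :
    (∃ y, Tendsto f (𝓝[Tᶜ] z) (𝓝 y)) ∧ (∃ y, Tendsto (deriv f) (𝓝[Tᶜ] z) (𝓝 y)) := by
  by_cases hz : z ∈ T
  · exact hf.exists_tendsto hz
  · have h1 : ContinuousWithinAt f Tᶜ z := hf.1.continuousOn z hz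
    have h2 : ContinuousWithinAt (deriv f) Tᶜ z :=
      (hf.1.deriv hT.isOpen_compl).continuousOn z hz
    exact ⟨⟨_, h1⟩, ⟨_, h2⟩⟩

lemma A1.of_sum {S S₁ S₂ : Set ℂ} (hS : IsClosed S) (hS₁ : IsClosed S₁) (hS₂ : IsClosed S₂)
    (h : S = S₁ ∪ S₂) {f f₁ f₂ : ℂ → ℂ} (h1 : A1 S₁ f₁) (h2 : A1 S₂ f₂)
    (he : EqOn f (f₁ + f₂) Sᶜ) : A1 S f := by
  have i1 : Sᶜ ⊆ S₁ᶜ := by
    rw [h]
    exact compl_subset_compl.2 subset_union_left
  have i2 : Sᶜ ⊆ S₂ᶜ := by
    rw [h]
    exact compl_subset_compl.2 subset_union_right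
  have hSo : IsOpen Sᶜ := hS.isOpen_compl
  refine ⟨((h1.1.mono i1).add (h2.1.mono i2)).congr he, fun z _ => ?_⟩
  obtain ⟨⟨y1, t1⟩, ⟨y1', t1'⟩⟩ := h1.tendsto_all hS₁ z
  obtain ⟨⟨y2, t2⟩, ⟨y2', t2'⟩⟩ := h2.tendsto_all hS₂ z
  refine ⟨⟨y1 + y2, ?_⟩, ⟨y1' + y2', ?_⟩⟩
  · refine ((t1.mono_left (nhdsWithin_mono _ i1)).add
      (t2.mono_left (nhdsWithin_mono _ i2))).congr' ?_
    filter_upwards [self_mem_nhdsWithin] with w hw
    exact (he hw).symm
  · refine ((t1'.mono_left (nhdsWithin_mono _ i1)).add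
      (t2'.mono_left (nhdsWithin_mono _ i2))).congr' ?_
    filter_upwards [self_mem_nhdsWithin] with w hw
    have e : f =ᶠ[𝓝 w] f₁ + f₂ := Filter.eventuallyEq_of_mem (hSo.mem_nhds hw) he
    rw [e.deriv_eq]
    exact (deriv_add (h1.1.differentiableAt (hS₁.isOpen_compl.mem_nhds (i1 hw)))
      (h2.1.differentiableAt (hS₂.isOpen_compl.mem_nhds (i2 hw)))).symm

/-- the case `n = 1` of the problem, from Kolmogorov's bound for the Beurling transform -/
theorem split_one (hK : SpecKol) (A : Set ℂ → ℕ → Set (ℂ → ℂ))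
    (hA : ∀ (T : Set ℂ) (n : ℕ) (f : ℂ → ℂ), f ∈ A T n ↔
      (DifferentiableOn ℂ f Tᶜ ∧
        ∀ k ≤ n, ∃ g : ℂ → ℂ, ContinuousOn g (Tᶜ ∪ frontier T) ∧
          Set.EqOn g (iteratedDeriv k f) Tᶜ))
    (S S₁ S₂ : Set ℂ) (hS : IsClosed S) (hS₁ : IsClosed S₁) (hS₂ : IsClosed S₂)
    (h : S = S₁ ∪ S₂)
    (hint : ∀ z ∈ S, (∃ U ∈ 𝓝 z, U ∩ S ⊆ S₁) ∨ (∃ U ∈ 𝓝 z, U ∩ S ⊆ S₂)) (f : ℂ → ℂ) :
    f ∈ A S 1 ↔ ∃ f₁ ∈ A S₁ 1, ∃ f₂ ∈ A S₂ 1, Set.EqOn f (f₁ + f₂) Sᶜ := by
  have hm : ∀ (T : Set ℂ), IsClosed T → ∀ g, g ∈ A T 1 ↔ A1 T g := fun T hT g => by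
    rw [hA, mem_iff hT]
  rw [hm S hS]
  constructor
  · intro hf
    obtain ⟨f₁, f₂, h1, h2, he⟩ :=
      specGlobal (specLocal hK) S S₁ S₂ hS hS₁ hS₂ h hint f hf
    exact ⟨f₁, (hm S₁ hS₁ f₁).2 h1, f₂, (hm S₂ hS₂ f₂).2 h2, he⟩
  · rintro ⟨f₁, h1, f₂, h2, he⟩
    exact A1.of_sum hS hS₁ hS₂ h ((hm S₁ hS₁ f₁).1 h1) ((hm S₂ hS₂ f₂).1 h2) he

end Pool.Agent.Lib.MP_1707ab_an
end
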