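import Pool.Agent.Lib.MP_1707ab_an.Local1

/-!
Problem MP_1707ab_an, the case `n = 1`, module WEAK, part L2: the Beurling transform
`Z ↦ ∂ C Z` contracts the `L^2` norm (on test functions).
-/

set_option autoImplicit false

open MeasureTheory Complex Set Filter Topology Metric
open scoped ContDiff ComplexConjugate

namespace Pool.Agent.Lib.MP_1707ab_an

namespace L2Aux

/-! ### conjugates -/

lemma fderiv_conj {f : ℂ → ℂ} {z : ℂ} (hf : DifferentiableAt ℝ f z) (v : ℂ) :
    fderiv ℝ (fun w => conj (f w)) z v = conj (fderiv ℝ f z v) := by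
  have h : HasFDerivAt (fun w => conj (f w))
      ((Complex.conjCLE : ℂ →L[ℝ] ℂ).comp (fderiv ℝ f z)) z :=
    (Complex.conjCLE : ℂ →L[ℝ] ℂ).hasFDerivAt.comp z hf.hasFDerivAt
  rw [h.fderiv]
  simp

lemma dz_conj {f : ℂ → ℂ} {z : ℂ} (hf : DifferentiableAt ℝ f z) :
    dz (fun w => conj (f w)) z = conj (db f z) := by
  rw [dz, db, fderiv_conj hf, fderiv_conj hf]
  have h2 : conj (2 : ℂ) = 2 := Complex.conj_ofNat 2
  simp [sub_eq_add_neg, h2]

lemma db_conj {f : ℂ → ℂ} {z : ℂ} (hf : DifferentiableAt ℝ f z) :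
    db (fun w => conj (f w)) z = conj (dz f z) := by
  rw [dz, db, fderiv_conj hf, fderiv_conj hf]
  have h2 : conj (2 : ℂ) = 2 := Complex.conj_ofNat 2
  simp [h2]

lemma contDiff_conj {f : ℂ → ℂ} (hf : ContDiff ℝ ∞ f) : ContDiff ℝ ∞ (fun w => conj (f w)) :=
  (Complex.conjCLE : ℂ →L[ℝ] ℂ).contDiff.comp hf

/-! ### cut-off functions -/

/-- the basic bump function -/
noncomputable def bump : ContDiffBump (0 : ℂ) := ⟨1, 2, one_pos, one_lt_two⟩

/-- the basic complex cut-off -/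
noncomputable def bumpC (z : ℂ) : ℂ := (bump z : ℝ)

/-- the cut-off at scale `N` -/
noncomputable def cut (N : ℝ) (z : ℂ) : ℂ := bumpC (N⁻¹ • z)

lemma contDiff_bumpC : ContDiff ℝ ∞ bumpC :=
  Complex.ofRealCLM.contDiff.comp bump.contDiff

lemma bumpC_supp : HasCompactSupport bumpC := by
  refine HasCompactSupport.intro (isCompact_closedBall (0 : ℂ) 2) ?_
  intro z hz
  rw [bumpC, bump.zero_of_le_dist, ofReal_zero]
  have : ¬ dist z 0 ≤ 2 := hz
  exact (not_le.1 this).le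

lemma cut_re (N : ℝ) (z : ℂ) : cut N z = ((bump (N⁻¹ • z) : ℝ) : ℂ) := rfl

lemma contDiff_cut (N : ℝ) : ContDiff ℝ ∞ (cut N) :=
  contDiff_bumpC.comp (contDiff_const_smul _)

lemma cut_zero {N : ℝ} (hN : 0 < N) {z : ℂ} (hz : 2 * N < ‖z‖) : cut N z = 0 := by
  rw [cut_re, bump.zero_of_le_dist, ofReal_zero]
  rw [dist_zero_right, norm_smul, norm_inv, Real.norm_of_nonneg hN.le, inv_mul_eq_div]
  show (2 : ℝ) ≤ _
  rw [le_div_iff₀ hN]
  exact hz.le

lemma test_cut {N : ℝ} (hN : 0 < N) : Test (cut N) := by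
  refine ⟨contDiff_cut N, HasCompactSupport.intro (isCompact_closedBall (0 : ℂ) (2 * N)) ?_⟩
  intro z hz
  refine cut_zero hN ?_
  simpa using hz

lemma cut_one {N : ℝ} (hN : 0 < N) {z : ℂ} (hz : ‖z‖ ≤ N) : cut N z = 1 := by
  rw [cut_re, bump.one_of_mem_closedBall, ofReal_one]
  rw [mem_closedBall, dist_zero_right, norm_smul, norm_inv, Real.norm_of_nonneg hN.le,
    inv_mul_eq_div]
  show _ ≤ (1 : ℝ)
  rw [div_le_one hN]
  exact hz

lemma exists_cut_bound : ∃ K : ℝ, 0 ≤ K ∧ ∀ (N : ℝ), 0 < N → ∀ (z v : ℂ),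
    ‖fderiv ℝ (cut N) z v‖ ≤ K / N * ‖v‖ := by
  obtain ⟨K, hK⟩ := (bumpC_supp.fderiv ℝ).exists_bound_of_continuous
    (contDiff_bumpC.continuous_fderiv (by simp))
  refine ⟨max K 0, le_max_right _ _, ?_⟩
  intro N hN z v
  have h1 : HasFDerivAt (fun z : ℂ => N⁻¹ • z) (N⁻¹ • ContinuousLinearMap.id ℝ ℂ) z :=
    (hasFDerivAt_id z).const_smul N⁻¹
  have h2 : HasFDerivAt bumpC (fderiv ℝ bumpC (N⁻¹ • z)) (N⁻¹ • z) :=
    (contDiff_bumpC.differentiable (by simp) _).hasFDerivAt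
  have h3 : HasFDerivAt (cut N) ((fderiv ℝ bumpC (N⁻¹ • z)).comp
      (N⁻¹ • ContinuousLinearMap.id ℝ ℂ)) z := h2.comp z h1
  rw [h3.fderiv]
  have h4 : ((fderiv ℝ bumpC (N⁻¹ • z)).comp (N⁻¹ • ContinuousLinearMap.id ℝ ℂ)) v
      = N⁻¹ • fderiv ℝ bumpC (N⁻¹ • z) v := by
    simp
  rw [h4, norm_smul, norm_inv, Real.norm_of_nonneg hN.le, div_eq_inv_mul, mul_assoc]
  refine mul_le_mul_of_nonneg_left ?_ (by positivity)
  refine (ContinuousLinearMap.le_opNorm _ _).trans ?_
  exact mul_le_mul_of_nonneg_right ((hK _).trans (le_max_left _ _)) (norm_nonneg _)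

lemma norm_dz_le {f : ℂ → ℂ} {z : ℂ} {c : ℝ} (h : ∀ v, ‖fderiv ℝ f z v‖ ≤ c * ‖v‖) :
    ‖dz f z‖ ≤ c := by
  have h1 := h 1
  have h2 := h I
  rw [norm_one, mul_one] at h1
  rw [norm_I, mul_one] at h2
  rw [dz, norm_div]
  have h3 : ‖fderiv ℝ f z 1 - I * fderiv ℝ f z I‖ ≤ c + c := by
    refine (norm_sub_le _ _).trans ?_
    rw [norm_mul, norm_I, one_mul]
    exact add_le_add h1 h2
  rw [div_le_iff₀ (by simp)]
  simp only [RCLike.norm_ofNat]
  linarith

lemma norm_db_le {f : ℂ → ℂ} {z : ℂ} {c : ℝ} (h : ∀ v, ‖fderiv ℝ f z v‖ ≤ c * ‖v‖) :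
    ‖db f z‖ ≤ c := by
  have h1 := h 1
  have h2 := h I
  rw [norm_one, mul_one] at h1
  rw [norm_I, mul_one] at h2
  rw [db, norm_div]
  have h3 : ‖fderiv ℝ f z 1 + I * fderiv ℝ f z I‖ ≤ c + c := by
    refine (norm_add_le _ _).trans ?_
    rw [norm_mul, norm_I, one_mul]
    exact add_le_add h1 h2
  rw [div_le_iff₀ (by simp)]
  simp only [RCLike.norm_ofNat]
  linarith

lemma fderiv_cut_zero {N : ℝ} (hN : 0 < N) {z : ℂ} (hz : ‖z‖ < N ∨ 2 * N < ‖z‖) (v : ℂ) :
    fderiv ℝ (cut N) z v = 0 := by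
  rcases hz with hz | hz
  · have h : cut N =ᶠ[𝓝 z] fun _ => 1 := by
      have : ∀ᶠ w in 𝓝 z, ‖w‖ < N := continuous_norm.continuousAt.eventually_lt_const hz
      filter_upwards [this] with w hw
      exact cut_one hN hw.le
    rw [h.fderiv_eq]
    simp
  · have h : cut N =ᶠ[𝓝 z] fun _ => 0 := by
      have : ∀ᶠ w in 𝓝 z, 2 * N < ‖w‖ := continuous_norm.continuousAt.eventually_const_lt hz
      filter_upwards [this] with w hw
      exact cut_zero hN hw
    rw [h.fderiv_eq]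
    simp

/-- the error term -/
noncomputable def EE (N : ℝ) (Z : ℂ → ℂ) (z : ℂ) : ℂ :=
  dz (cut N) z * (Cau Z z * conj (Cau (dz Z) z)) - db (cut N) z * (Cau Z z * conj (Z z))

lemma main_identity {Z : ℂ → ℂ} (hZ : Test Z) {N : ℝ} (hN : 0 < N) :
    ∫ z, cut N z * (Cau (dz Z) z * conj (Cau (dz Z) z) - Z z * conj (Z z)) = -∫ z, EE N Z z := by
  have hu : ContDiff ℝ ∞ (Cau Z) := specCauSmooth Z hZ
  have hB : ContDiff ℝ ∞ (Cau (dz Z)) := specCauSmooth _ hZ.dz
  have hc := test_cut hN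
  have hcc : ContDiff ℝ ∞ (cut N) := contDiff_cut N
  have hBc := contDiff_conj hB
  have hZc := contDiff_conj hZ.1
  have h1 : Test (fun z => (Cau Z z * conj (Cau (dz Z) z)) * cut N z) :=
    Test.mul_left (hu.mul hBc) hc
  have h2 : Test (fun z => (Cau Z z * conj (Z z)) * cut N z) :=
    Test.mul_left (hu.mul hZc) hc
  have e1 : ∀ z, dz (fun z => (Cau Z z * conj (Cau (dz Z) z)) * cut N z) z
      = (Cau (dz Z) z * conj (Cau (dz Z) z) + Cau Z z * conj (dz Z z)) * cut N z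
        + (Cau Z z * conj (Cau (dz Z) z)) * dz (cut N) z := by
    intro z
    have d1 : DifferentiableAt ℝ (Cau Z) z := hu.differentiable (by simp) z
    have d2 : DifferentiableAt ℝ (fun w => conj (Cau (dz Z) w)) z := hBc.differentiable (by simp) z
    have d3 : DifferentiableAt ℝ (cut N) z := hcc.differentiable (by simp) z
    rw [dz_mul (d1.fun_mul d2) d3, dz_mul d1 d2, dz_conj (hB.differentiable (by simp) z),
      specDzCau Z hZ, specDbCau _ hZ.dz]
  have e2 : ∀ z, db (fun z => (Cau Z z * conj (Z z)) * cut N z) z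
      = (Z z * conj (Z z) + Cau Z z * conj (dz Z z)) * cut N z
        + (Cau Z z * conj (Z z)) * db (cut N) z := by
    intro z
    have d1 : DifferentiableAt ℝ (Cau Z) z := hu.differentiable (by simp) z
    have d2 : DifferentiableAt ℝ (fun w => conj (Z w)) z := hZc.differentiable (by simp) z
    have d3 : DifferentiableAt ℝ (cut N) z := hcc.differentiable (by simp) z
    rw [db_mul (d1.fun_mul d2) d3, db_mul d1 d2, db_conj (hZ.differentiable z), specDbCau Z hZ]
  have i1 := h1.integral_dz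
  have i2 := h2.integral_db
  have j1 := h1.dz.integrable
  have j2 := h2.db.integrable
  have hsub : ∫ z, (dz (fun z => (Cau Z z * conj (Cau (dz Z) z)) * cut N z) z
      - db (fun z => (Cau Z z * conj (Z z)) * cut N z) z) = 0 := by
    rw [integral_sub j1 j2, i1, i2, sub_zero]
  have t1 : Test (fun z => (Cau (dz Z) z * conj (Cau (dz Z) z) - Z z * conj (Z z)) * cut N z) :=
    Test.mul_left ((hB.mul hBc).sub (hZ.1.mul hZc)) hc
  have t2 : Test (EE N Z) := by
    have a := Test.mul_left (hu.mul hBc) hc.dz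
    have b := Test.mul_left (hu.mul hZc) hc.db
    have c := a.sub b
    have e : EE N Z = fun z => (Cau Z z * conj (Cau (dz Z) z)) * dz (cut N) z
        - (Cau Z z * conj (Z z)) * db (cut N) z := by
      funext z
      rw [EE]
      ring
    rw [e]
    exact c
  have hs2 : ∫ z, ((Cau (dz Z) z * conj (Cau (dz Z) z) - Z z * conj (Z z)) * cut N z + EE N Z z)
      = 0 := by
    rw [← hsub]
    refine integral_congr_ae (Eventually.of_forall fun z => ?_)
    simp only [e1, e2, EE]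
    ring
  rw [integral_add t1.integrable t2.integrable] at hs2
  have h3 : ∫ z, cut N z * (Cau (dz Z) z * conj (Cau (dz Z) z) - Z z * conj (Z z))
      = ∫ z, (Cau (dz Z) z * conj (Cau (dz Z) z) - Z z * conj (Z z)) * cut N z := by
    refine integral_congr_ae (Eventually.of_forall fun z => ?_)
    simp only
    ring
  rw [h3]
  linear_combination hs2

lemma exists_decay {Z : ℂ → ℂ} (hZ : Test Z) : ∃ C, ∀ z, ‖Z z‖ ≤ C / (1 + ‖z‖) := by
  have hc : Continuous (fun z => ((1 + ‖z‖ : ℝ) : ℂ) * Z z) := by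
    have := hZ.continuous
    fun_prop
  have hs : HasCompactSupport (fun z => ((1 + ‖z‖ : ℝ) : ℂ) * Z z) := hZ.2.mul_left
  obtain ⟨C, hC⟩ := hs.exists_bound_of_continuous hc
  refine ⟨C, fun z => ?_⟩
  have h := hC z
  rw [norm_mul, Complex.norm_real, Real.norm_of_nonneg (by positivity)] at h
  rw [le_div_iff₀ (by positivity), mul_comm]
  exact h

lemma exists_EE_bound {Z : ℂ → ℂ} (hZ : Test Z) : ∃ K : ℝ, 0 ≤ K ∧ ∀ N : ℝ, 0 < N →
    ‖∫ z, EE N Z z‖ ≤ K / N := by
  obtain ⟨K, hK0, hK⟩ := exists_cut_bound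
  obtain ⟨C1, h1⟩ := specCauDecay Z hZ
  obtain ⟨C2, h2⟩ := specCauDecay _ hZ.dz
  obtain ⟨C3, h3⟩ := exists_decay hZ
  have hC1 : 0 ≤ C1 := by
    have := (norm_nonneg _).trans (h1 0)
    simpa using this
  have hC2 : 0 ≤ C2 := by
    have := (norm_nonneg _).trans (h2 0)
    simpa using this
  have hC3 : 0 ≤ C3 := by
    have := (norm_nonneg _).trans (h3 0)
    simpa using this
  refine ⟨4 * Real.pi * (K * C1 * (C2 + C3)), by positivity, ?_⟩
  intro N hN
  have hpt : ∀ z, ‖EE N Z z‖ ≤ K * C1 * (C2 + C3) / N ^ 3 := by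
    intro z
    rcases lt_or_ge ‖z‖ N with hz | hz
    · have hd : dz (cut N) z = 0 := by
        rw [dz, fderiv_cut_zero hN (Or.inl hz), fderiv_cut_zero hN (Or.inl hz)]
        simp
      have hb : db (cut N) z = 0 := by
        rw [db, fderiv_cut_zero hN (Or.inl hz), fderiv_cut_zero hN (Or.inl hz)]
        simp
      rw [EE, hd, hb]
      simp only [zero_mul, sub_zero, norm_zero]
      positivity
    · have hd : ‖dz (cut N) z‖ ≤ K / N := norm_dz_le (hK N hN z)
      have hb : ‖db (cut N) z‖ ≤ K / N := norm_db_le (hK N hN z)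
      have key : ∀ C, 0 ≤ C → C / (1 + ‖z‖) ≤ C / N := by
        intro C hC
        exact div_le_div_of_nonneg_left hC hN (by linarith)
      have a1 := (h1 z).trans (key C1 hC1)
      have a2 := (h2 z).trans (key C2 hC2)
      have a3 := (h3 z).trans (key C3 hC3)
      rw [EE]
      refine (norm_sub_le _ _).trans ?_
      simp only [norm_mul, RCLike.norm_conj]
      have b1 : ‖dz (cut N) z‖ * (‖Cau Z z‖ * ‖Cau (dz Z) z‖) ≤ K / N * (C1 / N * (C2 / N)) := by
        gcongr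
      have b2 : ‖db (cut N) z‖ * (‖Cau Z z‖ * ‖Z z‖) ≤ K / N * (C1 / N * (C3 / N)) := by
        gcongr
      calc _ ≤ K / N * (C1 / N * (C2 / N)) + K / N * (C1 / N * (C3 / N)) := add_le_add b1 b2
        _ = K * C1 * (C2 + C3) / N ^ 3 := by
          field_simp
  have hout : ∀ z, z ∉ closedBall (0 : ℂ) (2 * N) → EE N Z z = 0 := by
    intro z hz
    have hz' : 2 * N < ‖z‖ := by simpa using hz
    rw [EE, dz, db, fderiv_cut_zero hN (Or.inr hz'), fderiv_cut_zero hN (Or.inr hz')]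
    simp
  rw [← setIntegral_eq_integral_of_forall_compl_eq_zero hout]
  refine (norm_setIntegral_le_of_norm_le_const (by
    exact (isCompact_closedBall _ _).measure_lt_top) (fun z _ => hpt z)).trans ?_
  rw [Measure.real, Complex.volume_closedBall]
  simp only [ENNReal.toReal_mul, ENNReal.toReal_pow,
    ENNReal.toReal_ofReal (by positivity : (0 : ℝ) ≤ 2 * N), ENNReal.coe_toReal,
    NNReal.coe_real_pi]
  refine le_of_eq ?_
  field_simp
  ring

end L2Aux

open L2Aux

theorem specL2 : SpecL2 := by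
  intro Z hZ
  obtain ⟨K, hK0, hK⟩ := exists_EE_bound hZ
  have hB : Continuous (Cau (dz Z)) := (specCauSmooth _ hZ.dz).continuous
  have hZi : Integrable (fun z => ‖Z z‖ ^ 2) := by
    have hc : Continuous (fun z => ‖Z z‖ ^ 2) := hZ.continuous.norm.pow 2
    refine hc.integrable_of_hasCompactSupport
      (HasCompactSupport.intro hZ.2.isCompact fun z hz => ?_)
    rw [image_eq_zero_of_notMem_tsupport hz]
    simp
  have hball : ∀ N : ℝ, 0 < N →
      ∫ z in ball (0 : ℂ) N, ‖Cau (dz Z) z‖ ^ 2 ≤ (∫ z, ‖Z z‖ ^ 2) + K / N := by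
    intro N hN
    have hmain := main_identity hZ hN
    have hE := hK N hN
    set cr : ℂ → ℝ := fun z => bump (N⁻¹ • z) with hcr
    have hcr0 : ∀ z, 0 ≤ cr z := fun z => bump.nonneg
    have hcr1 : ∀ z, cr z ≤ 1 := fun z => bump.le_one
    have hcrc : Continuous cr := bump.continuous.comp (continuous_const_smul _)
    have hcrs : HasCompactSupport cr := by
      refine HasCompactSupport.intro (isCompact_closedBall (0 : ℂ) (2 * N)) ?_
      intro z hz
      have h := cut_zero hN (z := z) (by simpa using hz)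
      rw [cut_re] at h
      exact_mod_cast h
    have e1 : ∀ z, cut N z * (Cau (dz Z) z * conj (Cau (dz Z) z) - Z z * conj (Z z))
        = ((cr z * (‖Cau (dz Z) z‖ ^ 2 - ‖Z z‖ ^ 2) : ℝ) : ℂ) := by
      intro z
      rw [cut_re, Complex.mul_conj, Complex.mul_conj, Complex.normSq_eq_norm_sq,
        Complex.normSq_eq_norm_sq]
      push_cast
      rfl
    simp_rw [e1] at hmain
    rw [integral_complex_ofReal] at hmain
    have h1 : ∫ z, cr z * (‖Cau (dz Z) z‖ ^ 2 - ‖Z z‖ ^ 2) ≤ K / N := by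
      refine le_trans (le_abs_self _) ?_
      rw [← Real.norm_eq_abs, ← Complex.norm_real, hmain, norm_neg]
      exact hE
    have i1 : Integrable (fun z => cr z * ‖Cau (dz Z) z‖ ^ 2) :=
      (hcrc.mul (hB.norm.pow 2)).integrable_of_hasCompactSupport hcrs.mul_right
    have i2 : Integrable (fun z => cr z * ‖Z z‖ ^ 2) :=
      (hcrc.mul (hZ.continuous.norm.pow 2)).integrable_of_hasCompactSupport hcrs.mul_right
    have h2 : ∫ z, cr z * (‖Cau (dz Z) z‖ ^ 2 - ‖Z z‖ ^ 2)
        = (∫ z, cr z * ‖Cau (dz Z) z‖ ^ 2) - ∫ z, cr z * ‖Z z‖ ^ 2 := by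
      rw [← integral_sub i1 i2]
      refine integral_congr_ae (Eventually.of_forall fun z => ?_)
      simp only
      ring
    have h3 : ∫ z, cr z * ‖Z z‖ ^ 2 ≤ ∫ z, ‖Z z‖ ^ 2 := by
      refine integral_mono i2 hZi fun z => ?_
      have := mul_le_mul_of_nonneg_right (hcr1 z) (sq_nonneg ‖Z z‖)
      simpa using this
    have h4 : ∫ z in ball (0 : ℂ) N, ‖Cau (dz Z) z‖ ^ 2 ≤ ∫ z, cr z * ‖Cau (dz Z) z‖ ^ 2 := by
      have h5 : ∫ z in ball (0 : ℂ) N, ‖Cau (dz Z) z‖ ^ 2
          = ∫ z in ball (0 : ℂ) N, cr z * ‖Cau (dz Z) z‖ ^ 2 := by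
        refine setIntegral_congr_fun measurableSet_ball fun z hz => ?_
        have h := cut_one hN (z := z) (le_of_lt (by simpa using hz))
        rw [cut_re] at h
        have h' : cr z = 1 := by exact_mod_cast h
        simp only [h', one_mul]
      rw [h5]
      refine setIntegral_le_integral i1 (Eventually.of_forall fun z => ?_)
      exact mul_nonneg (hcr0 z) (sq_nonneg _)
    linarith
  have hcover : AECover (volume : Measure ℂ) atTop (fun n : ℕ => ball (0 : ℂ) ((n : ℝ) + 1)) :=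
    aecover_ball (tendsto_natCast_atTop_atTop.atTop_add tendsto_const_nhds)
  have hnn : ∀ᵐ z : ℂ, 0 ≤ ‖Cau (dz Z) z‖ ^ 2 := Eventually.of_forall fun z => sq_nonneg _
  have hloc : ∀ n : ℕ, IntegrableOn (fun z => ‖Cau (dz Z) z‖ ^ 2) (ball (0 : ℂ) ((n : ℝ) + 1)) := by
    intro n
    refine ((hB.norm.pow 2).continuousOn.integrableOn_compact
      (isCompact_closedBall (0 : ℂ) ((n : ℝ) + 1))).mono_set ball_subset_closedBall
  have hint : Integrable (fun z => ‖Cau (dz Z) z‖ ^ 2) := by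
    refine hcover.integrable_of_integral_bounded_of_nonneg_ae ((∫ z, ‖Z z‖ ^ 2) + K) hloc hnn ?_
    refine Eventually.of_forall fun n => ?_
    have hn : (0 : ℝ) < (n : ℝ) + 1 := by positivity
    refine (hball _ hn).trans ?_
    have : K / ((n : ℝ) + 1) ≤ K := by
      refine div_le_self hK0 ?_
      have : (0 : ℝ) ≤ n := Nat.cast_nonneg n
      linarith
    linarith
  refine ⟨hint, ?_⟩
  have ht := hcover.integral_tendsto_of_countably_generated hint
  have ht2 : Tendsto (fun n : ℕ => (∫ z, ‖Z z‖ ^ 2) + K / ((n : ℝ) + 1)) atTop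
      (𝓝 ((∫ z, ‖Z z‖ ^ 2) + 0)) := by
    refine tendsto_const_nhds.add ?_
    exact tendsto_const_nhds.div_atTop
      (tendsto_natCast_atTop_atTop.atTop_add tendsto_const_nhds)
  rw [add_zero] at ht2
  exact le_of_tendsto_of_tendsto' ht ht2 fun n => hball _ (by positivity)

end Pool.Agent.Lib.MP_1707ab_an
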