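import Pool.Agent.Lib.MP_1707ab_an.Defs

section
/-!
Module ABS of MP_1707ab_an: a functional on a subspace `R` which is continuous for a
compact gauge `q` is given by an element of `E` (Krein-Smulian type argument).
-/
set_option autoImplicit false

open Set Filter Topology

namespace Pool.Agent.Lib.MP_1707ab_an

namespace Abs

variable {T E : Type} [SeminormedAddCommGroup T] [NormedSpace ℂ T]
  [NormedAddCommGroup E] [NormedSpace ℂ E]

/-- Helly's theorem -/
theorem helly (P : E →L[ℂ] T →L[ℂ] ℂ) (hP : ∀ e, ‖P e‖ = ‖e‖) (S : Finset E) (Z : T)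
    (c c' : ℝ) (hc : 0 ≤ c) (hcc : c < c')
    (h : ∀ e ∈ Submodule.span ℂ (S : Set E), ‖P e Z‖ ≤ c * ‖e‖) :
    ∃ Z' : T, ‖Z'‖ < c' ∧ ∀ e ∈ Submodule.span ℂ (S : Set E), P e Z' = P e Z := by
  classical
  let L : S → T →ₗ[ℂ] ℂ := fun e => (P (e : E) : T →ₗ[ℂ] ℂ)
  let T0 : Submodule ℂ T := ⨅ i, LinearMap.ker (L i)
  -- the norm of the class of `Z`
  obtain ⟨g, hg1, hg2⟩ := exists_dual_vector'' ℂ (Submodule.Quotient.mk Z : T ⧸ T0)
  let φ : T →ₗ[ℂ] ℂ := (g : (T ⧸ T0) →ₗ[ℂ] ℂ).comp T0.mkQ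
  have hφ : φ ∈ Submodule.span ℂ (Set.range L) := by
    apply mem_span_of_iInf_ker_le_ker
    intro t ht
    rw [LinearMap.mem_ker]
    have : T0.mkQ t = 0 := by
      rw [Submodule.mkQ_apply, Submodule.Quotient.mk_eq_zero]
      exact ht
    change g (T0.mkQ t) = 0
    rw [this, map_zero]
  have hφnorm : ∀ t, ‖φ t‖ ≤ ‖t‖ := by
    intro t
    change ‖g (T0.mkQ t)‖ ≤ ‖t‖
    calc ‖g (T0.mkQ t)‖ ≤ ‖g‖ * ‖T0.mkQ t‖ := g.le_opNorm _
      _ ≤ 1 * ‖T0.mkQ t‖ := by gcongr
      _ ≤ ‖t‖ := by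
        rw [one_mul]
        exact Submodule.Quotient.norm_mk_le T0 t
  obtain ⟨e, he, hPe⟩ : ∃ e ∈ Submodule.span ℂ (S : Set E), (P e : T →ₗ[ℂ] ℂ) = φ := by
    have hle : Submodule.span ℂ (Set.range L) ≤
        (Submodule.span ℂ (S : Set E)).map
          ((ContinuousLinearMap.coeLM ℂ : (T →L[ℂ] ℂ) →ₗ[ℂ] (T →ₗ[ℂ] ℂ)).comp
            (P : E →ₗ[ℂ] T →L[ℂ] ℂ)) := by
      rw [Submodule.span_le]
      rintro _ ⟨i, rfl⟩
      exact ⟨(i : E), Submodule.subset_span i.2, rfl⟩
    obtain ⟨e, he, h⟩ := hle hφ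
    exact ⟨e, he, h⟩
  have henorm : ‖e‖ ≤ 1 := by
    rw [← hP e]
    apply ContinuousLinearMap.opNorm_le_bound _ zero_le_one
    intro t
    rw [one_mul]
    have : P e t = φ t := by rw [← hPe]; rfl
    rw [this]
    exact hφnorm t
  have hZ : ‖(Submodule.Quotient.mk Z : T ⧸ T0)‖ ≤ c := by
    have h1 : P e Z = ((‖(Submodule.Quotient.mk Z : T ⧸ T0)‖ : ℝ) : ℂ) := by
      have : P e Z = φ Z := by rw [← hPe]; rfl
      rw [this]
      exact hg2
    have h2 := h e he
    rw [h1, Complex.norm_real, norm_norm] at h2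
    nlinarith
  obtain ⟨m, hm1, hm2⟩ := Submodule.Quotient.norm_mk_lt
    (Submodule.Quotient.mk Z : T ⧸ T0) (sub_pos.mpr hcc)
  refine ⟨m, by linarith, ?_⟩
  intro e he
  have hmem : m - Z ∈ T0 := (Submodule.Quotient.eq T0).1 hm1
  have hS : ∀ x ∈ S, P x (m - Z) = 0 := by
    intro x hx
    have := (Submodule.mem_iInf _).1 hmem ⟨x, hx⟩
    exact this
  have : P e (m - Z) = 0 := by
    induction he using Submodule.span_induction with
    | mem x hx => exact hS x hx
    | zero => simp
    | add x y _ _ hx hy => simp [hx, hy]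
    | smul a x _ hx => simp [hx]
  rw [map_sub, sub_eq_zero] at this
  exact this

/-- a finite net of the unit ball of a finite dimensional subspace -/
theorem net (P : E →L[ℂ] T →L[ℂ] ℂ) (S : Finset E) :
    ∃ N : Finset E, (∀ x ∈ N, ‖x‖ ≤ 1) ∧ ∀ (Z : T) (a : ℝ), 0 ≤ a →
      (∀ x ∈ N, ‖P x Z‖ ≤ a) →
      ∀ e ∈ Submodule.span ℂ (S : Set E), ‖P e Z‖ ≤ 2 * a * ‖e‖ := by
  classical
  let V : Submodule ℂ E := Submodule.span ℂ (S : Set E)
  have : FiniteDimensional ℂ V := FiniteDimensional.span_finset ℂ S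
  have : ProperSpace V := FiniteDimensional.proper ℂ V
  have hK : IsCompact (Metric.closedBall (0 : V) 1) := isCompact_closedBall _ _
  obtain ⟨t, ht1, ht2, ht3⟩ := hK.finite_cover_balls (show (0 : ℝ) < 1 / 2 by norm_num)
  refine ⟨ht2.toFinset.image (fun v : V => (v : E)), ?_, ?_⟩
  · intro x hx
    rw [Finset.mem_image] at hx
    obtain ⟨v, hv, rfl⟩ := hx
    have := ht1 (ht2.mem_toFinset.1 hv)
    rw [mem_closedBall_zero_iff] at this
    exact this
  · intro Z a ha hN
    let ψ : V →L[ℂ] ℂ := ((ContinuousLinearMap.apply ℂ ℂ Z).comp P).comp V.subtypeL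
    have hψ : ∀ v : V, ψ v = P (v : E) Z := fun v => rfl
    have hunit : ∀ v : V, ‖v‖ ≤ 1 → ‖ψ v‖ ≤ a + ‖ψ‖ / 2 := by
      intro v hv
      have hv' : v ∈ Metric.closedBall (0 : V) 1 := by
        rw [mem_closedBall_zero_iff]; exact hv
      have := ht3 hv'
      simp only [mem_iUnion, exists_prop] at this
      obtain ⟨x, hx, hvx⟩ := this
      rw [Metric.mem_ball, dist_eq_norm] at hvx
      have h1 : ‖ψ x‖ ≤ a := by
        rw [hψ]
        exact hN _ (Finset.mem_image.2 ⟨x, ht2.mem_toFinset.2 hx, rfl⟩)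
      have h2 : ‖ψ (v - x)‖ ≤ ‖ψ‖ * (1 / 2) :=
        (ψ.le_opNorm _).trans (by gcongr)
      calc ‖ψ v‖ = ‖ψ x + ψ (v - x)‖ := by rw [← map_add]; congr 2; abel
        _ ≤ ‖ψ x‖ + ‖ψ (v - x)‖ := norm_add_le _ _
        _ ≤ a + ‖ψ‖ / 2 := by linarith
    have hbound : ‖ψ‖ ≤ a + ‖ψ‖ / 2 := by
      apply ContinuousLinearMap.opNorm_le_bound _ (by positivity)
      intro v
      by_cases hv : v = 0
      · subst hv; simp
      · have hv0 : 0 < ‖v‖ := norm_pos_iff.2 hv
        have := hunit ((‖v‖⁻¹ : ℂ) • v) (by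
          rw [norm_smul, norm_inv, Complex.norm_real, norm_norm, inv_mul_cancel₀ hv0.ne'])
        rw [map_smul, norm_smul, norm_inv, Complex.norm_real, norm_norm,
          inv_mul_le_iff₀ hv0] at this
        linarith
    have hψ2 : ‖ψ‖ ≤ 2 * a := by linarith
    intro e he
    have := ψ.le_opNorm ⟨e, he⟩
    rw [hψ] at this
    calc ‖P e Z‖ ≤ ‖ψ‖ * ‖e‖ := this
      _ ≤ 2 * a * ‖e‖ := by gcongr

/-- representation by an absolutely convergent combination of a null family -/
theorem repr [CompleteSpace E] (P : E →L[ℂ] T →L[ℂ] ℂ) (hP : ∀ e, ‖P e‖ = ‖e‖)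
    (R : Submodule ℂ T) (Λ : T →ₗ[ℂ] ℂ) {ι : Type} (g : ι → E) (M : ℝ)
    (hM : ∀ i, ‖g i‖ ≤ M) (hg : ∀ δ : ℝ, 0 < δ → {i | δ < ‖g i‖}.Finite)
    (h : ∀ Z ∈ R, (∀ i, ‖P (g i) Z‖ ≤ 1) → ‖Λ Z‖ ≤ 1) :
    ∃ e : E, ∀ Z ∈ R, Λ Z = P e Z := by
  classical
  let _ : TopologicalSpace ι := ⊥
  have : DiscreteTopology ι := ⟨rfl⟩
  have hPb : ∀ (Z : T) (i : ι), ‖P (g i) Z‖ ≤ M * ‖Z‖ := by
    intro Z i
    calc ‖P (g i) Z‖ ≤ ‖P (g i)‖ * ‖Z‖ := (P (g i)).le_opNorm Z
      _ ≤ M * ‖Z‖ := by rw [hP]; gcongr; exact hM i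
  let Φ : T →ₗ[ℂ] (BoundedContinuousFunction ι ℂ) :=
    { toFun := fun Z => BoundedContinuousFunction.ofNormedAddCommGroupDiscrete
        (fun i => P (g i) Z) (M * ‖Z‖) (hPb Z)
      map_add' := by intro x y; ext i; simp
      map_smul' := by intro a x; ext i; simp }
  have hΦ : ∀ Z i, Φ Z i = P (g i) Z := fun Z i => rfl
  let Φ' : R →ₗ[ℂ] (BoundedContinuousFunction ι ℂ) := Φ.comp R.subtype
  let Λ' : R →ₗ[ℂ] ℂ := Λ.comp R.subtype
  -- the bound by the sup norm
  have hbd : ∀ Z ∈ R, ‖Λ Z‖ ≤ ‖Φ Z‖ := by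
    intro Z hZ
    apply le_of_forall_pos_le_add
    intro ε hε
    have hpos : 0 < ‖Φ Z‖ + ε := by positivity
    have := h ((((‖Φ Z‖ + ε)⁻¹ : ℝ) : ℂ) • Z) (R.smul_mem _ hZ) (by
      intro i
      rw [map_smul, norm_smul, Complex.norm_real, Real.norm_of_nonneg (by positivity),
        inv_mul_le_iff₀ hpos, mul_one, ← hΦ]
      exact ((Φ Z).norm_coe_le_norm i).trans (by linarith))
    rw [map_smul, norm_smul, Complex.norm_real, Real.norm_of_nonneg (by positivity),
      inv_mul_le_iff₀ hpos, mul_one] at this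
    exact this
  have hker : LinearMap.ker Φ' ≤ LinearMap.ker Λ' := by
    intro Z hZ
    rw [LinearMap.mem_ker] at hZ ⊢
    have := hbd Z Z.2
    have h0 : Φ (Z : T) = 0 := hZ
    rw [h0, norm_zero] at this
    exact norm_le_zero_iff.1 this
  let φ0 : LinearMap.range Φ' →ₗ[ℂ] ℂ :=
    ((LinearMap.ker Φ').liftQ Λ' hker).comp (Φ'.quotKerEquivRange.symm : _ →ₗ[ℂ] _)
  have hφ0 : ∀ (Z : R) (hZ : Φ' Z ∈ LinearMap.range Φ'), φ0 ⟨Φ' Z, hZ⟩ = Λ Z := by
    intro Z hZ
    change ((LinearMap.ker Φ').liftQ Λ' hker) (Φ'.quotKerEquivRange.symm ⟨Φ' Z, hZ⟩) = Λ Z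
    rw [LinearMap.quotKerEquivRange_symm_apply_image]
    rfl
  let φ : LinearMap.range Φ' →L[ℂ] ℂ := φ0.mkContinuous 1 (by
    rintro ⟨y, hy⟩
    obtain ⟨Z, rfl⟩ := LinearMap.mem_range.1 hy
    rw [hφ0 Z hy, one_mul]
    exact hbd Z Z.2)
  have hφn : ‖φ‖ ≤ 1 := LinearMap.mkContinuous_norm_le _ zero_le_one _
  obtain ⟨ψ, hψ1, hψ2⟩ := exists_extension_norm_eq (LinearMap.range Φ') φ
  have hψn : ‖ψ‖ ≤ 1 := by rw [hψ2]; exact hφn
  have hψΛ : ∀ Z ∈ R, ψ (Φ Z) = Λ Z := by
    intro Z hZ
    have := hψ1 ⟨Φ' ⟨Z, hZ⟩, LinearMap.mem_range_self _ _⟩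
    rw [show ψ (Φ Z) = ψ (Φ' ⟨Z, hZ⟩) from rfl]
    rw [this]
    exact hφ0 ⟨Z, hZ⟩ _
  -- the delta functions
  let δ : ι → BoundedContinuousFunction ι ℂ := fun i =>
    BoundedContinuousFunction.ofNormedAddCommGroupDiscrete
      (fun j => if j = i then 1 else 0) 1 (by intro j; split_ifs <;> simp)
  have hδ : ∀ i j, δ i j = if j = i then 1 else 0 := fun i j => rfl
  have hsumδ : ∀ (s : Finset ι) (b : ι → ℂ) (j : ι),
      (∑ i ∈ s, b i • δ i : BoundedContinuousFunction ι ℂ) j = if j ∈ s then b j else 0 := by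
    intro s b j
    rw [BoundedContinuousFunction.coe_sum, Finset.sum_apply]
    simp only [BoundedContinuousFunction.coe_smul, hδ, smul_eq_mul, mul_ite, mul_one, mul_zero]
    exact Finset.sum_ite_eq s j b
  let a : ι → ℂ := fun i => ψ (δ i)
  have hasum : ∀ s : Finset ι, ∑ i ∈ s, ‖a i‖ ≤ 1 := by
    intro s
    let b : ι → ℂ := fun i => if a i = 0 then 0 else (‖a i‖ : ℂ) / a i
    have hb : ∀ i, ‖b i‖ ≤ 1 := by
      intro i
      simp only [b]
      split_ifs with hi
      · simp
      · rw [norm_div, Complex.norm_real, norm_norm, div_self (norm_ne_zero_iff.2 hi)]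
    have hba : ∀ i, b i * a i = (‖a i‖ : ℂ) := by
      intro i
      simp only [b]
      split_ifs with hi
      · rw [hi]; simp
      · rw [div_mul_cancel₀ _ hi]
    have hnorm : ‖(∑ i ∈ s, b i • δ i : BoundedContinuousFunction ι ℂ)‖ ≤ 1 := by
      rw [BoundedContinuousFunction.norm_le zero_le_one]
      intro j
      rw [hsumδ]
      split_ifs
      · exact hb j
      · simp
    have h1 : ψ (∑ i ∈ s, b i • δ i) = ((∑ i ∈ s, ‖a i‖ : ℝ) : ℂ) := by
      rw [map_sum, Complex.ofReal_sum]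
      refine Finset.sum_congr rfl fun i _ => ?_
      rw [map_smul, smul_eq_mul]
      exact hba i
    have h2 : ‖ψ (∑ i ∈ s, b i • δ i)‖ ≤ 1 * 1 :=
      (ψ.le_opNorm _).trans (by gcongr)
    rw [h1, Complex.norm_real, Real.norm_of_nonneg (Finset.sum_nonneg fun i _ => norm_nonneg _)]
      at h2
    linarith
  have hasummable : Summable fun i => ‖a i‖ :=
    summable_of_sum_le (fun i => norm_nonneg _) hasum
  have hsE : Summable fun i => a i • g i := by
    apply Summable.of_norm_bounded (g := fun i => ‖a i‖ * M) (hasummable.mul_right M)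
    intro i
    rw [norm_smul]
    gcongr
    exact hM i
  refine ⟨∑' i, a i • g i, ?_⟩
  intro Z hZ
  rw [← hψΛ Z hZ]
  have h1 : HasSum (fun i => P (g i) Z • δ i) (Φ Z) := by
    rw [HasSum, SummationFilter.unconditional_filter, Metric.tendsto_nhds]
    intro ε hε
    -- the finite set where the coordinates are large
    have hfin : {i | ε / 2 < ‖P (g i) Z‖}.Finite := by
      apply (hg (ε / 2 / (‖Z‖ + 1)) (by positivity)).subset
      intro i hi
      have h1 : ‖P (g i) Z‖ ≤ ‖g i‖ * ‖Z‖ := by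
        rw [← hP (g i)]
        exact (P (g i)).le_opNorm Z
      have h2 : (0 : ℝ) < ‖Z‖ + 1 := by positivity
      rw [mem_ofPred_eq] at hi ⊢
      rw [div_lt_iff₀ h2]
      nlinarith [norm_nonneg (g i)]
    filter_upwards [Filter.eventually_ge_atTop hfin.toFinset] with s hs
    rw [dist_eq_norm]
    refine lt_of_le_of_lt ?_ (half_lt_self hε)
    rw [BoundedContinuousFunction.norm_le (by positivity)]
    intro j
    rw [BoundedContinuousFunction.coe_sub, Pi.sub_apply, hsumδ, hΦ]
    split_ifs with hj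
    · rw [sub_self, norm_zero]
      positivity
    · rw [zero_sub, norm_neg]
      by_contra hcon
      rw [not_le] at hcon
      exact hj (hs (hfin.mem_toFinset.2 hcon))
  have h2 : HasSum (fun i => ψ (P (g i) Z • δ i)) (ψ (Φ Z)) := ψ.hasSum h1
  have h3 : HasSum (fun i => P (a i • g i) Z) (P (∑' i, a i • g i) Z) :=
    (((ContinuousLinearMap.apply ℂ ℂ Z).comp P)).hasSum hsE.hasSum
  have h4 : (fun i => ψ (P (g i) Z • δ i)) = fun i => P (a i • g i) Z := by
    funext i
    rw [map_smul, map_smul]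
    simp only [smul_apply, smul_eq_mul, a]
    ring
  rw [h4] at h2
  exact h2.unique h3

end Abs

open Abs in
theorem specAbs : SpecAbs := by
  classical
  intro T E _ _ _ _ _ P hP q hq0 hqadd Cq hCq hcomp R Λ CΛ hΛ
  set C : ℝ := max CΛ 0 with hC
  set D : ℝ := max Cq 0 with hD
  have hC0 : 0 ≤ C := le_max_right _ _
  have hD0 : 0 ≤ D := le_max_right _ _
  have hΛ' : ∀ Z ∈ R, ‖Λ Z‖ ^ (1 / 2 : ℝ) ≤ C * q Z := fun Z hZ =>
    (hΛ Z hZ).trans (mul_le_mul_of_nonneg_right (le_max_left _ _) (hq0 Z))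
  have hCq' : ∀ Z, q Z ≤ D * ‖Z‖ ^ (1 / 2 : ℝ) := fun Z =>
    (hCq Z).trans (mul_le_mul_of_nonneg_right (le_max_left _ _) (by positivity))
  set σ : ℝ := 1 / (2 * (C * D + 1)) with hσ
  have hCD : 0 ≤ C * D := mul_nonneg hC0 hD0
  have hσ0 : 0 < σ := by rw [hσ]; positivity
  set ρ : ℝ := σ ^ 2 / 3 with hρ
  have hρ0 : 0 < ρ := by rw [hρ]; positivity
  have hσρ : (3 * ρ) ^ (1 / 2 : ℝ) = σ := by
    rw [hρ, mul_div_cancel₀ _ (by norm_num : (3 : ℝ) ≠ 0), ← Real.sqrt_eq_rpow,
      Real.sqrt_sq hσ0.le]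
  have hCDσ : C * (D * σ) ≤ 1 / 2 := by
    rw [hσ, ← mul_assoc, mul_one_div, div_le_iff₀ (by positivity)]
    linarith
  let d : ℕ → ℝ := fun k => (3 * (2 * k + 3) * ρ) ^ (1 / 2 : ℝ)
  have hd : ∀ k, 0 < d k := fun k => Real.rpow_pos_of_pos (by positivity) _
  let ε : ℕ → ℝ := fun k => 1 / ((C + 1) * 2 ^ (k + 2) * d k)
  have hε : ∀ k, 0 < ε k := fun k => by
    have := hd k
    positivity
  have hεd : ∀ k, C * (ε k * d k) ≤ (1 / 2 : ℝ) ^ (k + 2) := by
    intro k
    have h1 : ε k * d k = 1 / ((C + 1) * 2 ^ (k + 2)) := by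
      simp only [ε]
      rw [one_div, mul_inv, mul_assoc, inv_mul_cancel₀ (hd k).ne', mul_one, one_div]
    rw [h1, mul_one_div, div_le_iff₀ (by positivity), one_div, inv_pow, mul_comm (C + 1),
      ← mul_assoc, inv_mul_cancel₀ (by positivity), one_mul]
    linarith
  choose s' hs' using fun k => hcomp (ε k) (hε k)
  let S : ℕ → Finset E := fun k => (Finset.range (k + 1)).biUnion s'
  have hs'S : ∀ k, s' k ⊆ S k := fun k =>
    Finset.subset_biUnion_of_mem s' (Finset.mem_range.2 (Nat.lt_succ_self k))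
  have hSS : ∀ k, S k ⊆ S (k + 1) := fun k =>
    Finset.biUnion_subset_biUnion_of_subset_left _ (Finset.range_mono (Nat.le_succ _))
  have hspan : ∀ k, Submodule.span ℂ (S k : Set E) ≤ Submodule.span ℂ (S (k + 1) : Set E) :=
    fun k => Submodule.span_mono (Finset.coe_subset.2 (hSS k))
  choose N hN1 hN2 using fun k => net P (S k)
  let g : (Σ k : ℕ, {x // x ∈ N k}) → E := fun i =>
    ((((((i.1 : ℝ) + 1) * ρ)⁻¹ : ℝ) : ℂ)) • (i.2 : E)
  have hgn : ∀ i, ‖g i‖ ≤ (((i.1 : ℝ) + 1) * ρ)⁻¹ := by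
    intro i
    simp only [g]
    rw [norm_smul, Complex.norm_real, Real.norm_of_nonneg (by positivity)]
    calc (((i.1 : ℝ) + 1) * ρ)⁻¹ * ‖(i.2 : E)‖ ≤ (((i.1 : ℝ) + 1) * ρ)⁻¹ * 1 := by
          gcongr
          exact hN1 _ _ i.2.2
      _ = _ := mul_one _
  apply repr P hP R Λ g ρ⁻¹
  · intro i
    refine (hgn i).trans ?_
    apply inv_anti₀ hρ0
    have : (0 : ℝ) ≤ (i.1 : ℝ) := Nat.cast_nonneg _
    nlinarith
  · intro δ hδ
    obtain ⟨K, hK⟩ := exists_nat_ge (1 / (δ * ρ))
    apply ((Finset.range K).sigma fun k => (N k).attach).finite_toSet.subset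
    intro i hi
    rw [Finset.mem_coe, Finset.mem_sigma, Finset.mem_range]
    refine ⟨?_, Finset.mem_attach _ _⟩
    have h1 : δ < (((i.1 : ℝ) + 1) * ρ)⁻¹ := lt_of_lt_of_le hi (hgn i)
    rw [lt_inv_comm₀ hδ (by positivity)] at h1
    have h2 : ((i.1 : ℝ) + 1) < 1 / (δ * ρ) := by
      rw [lt_div_iff₀ (by positivity), mul_comm δ ρ, ← mul_assoc]
      calc ((i.1 : ℝ) + 1) * ρ * δ < δ⁻¹ * δ := by gcongr
        _ = 1 := inv_mul_cancel₀ hδ.ne'
    have h3 : ((i.1 : ℝ)) < K := by linarith
    exact_mod_cast h3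
  · intro Z hZ hi
    have hPx : ∀ k, ∀ x ∈ N k, ‖P x Z‖ ≤ ((k : ℝ) + 1) * ρ := by
      intro k x hx
      have := hi ⟨k, x, hx⟩
      simp only [g] at this
      rw [map_smul, smul_apply, norm_smul, Complex.norm_real, Real.norm_of_nonneg (by positivity),
        inv_mul_le_iff₀ (by positivity), mul_one] at this
      exact this
    have hPe : ∀ k, ∀ e ∈ Submodule.span ℂ (S k : Set E), ‖P e Z‖ ≤ 2 * (((k : ℝ) + 1) * ρ) * ‖e‖ :=
      fun k => hN2 k Z (((k : ℝ) + 1) * ρ) (by positivity) (hPx k)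
    choose r hr1 hr2 using fun k : ℕ => helly P hP (S k) Z (2 * (((k : ℝ) + 1) * ρ))
      (3 * (((k : ℝ) + 1) * ρ)) (by positivity) (by
        have : 0 < ((k : ℝ) + 1) * ρ := by positivity
        linarith) (hPe k)
    have key : ∀ (n : ℕ) (W : T), ‖W‖ ≤ 3 * (((n : ℝ) + 1) * ρ) →
        (∀ e ∈ Submodule.span ℂ (S n : Set E), P e W = P e Z) →
        C * q W ≤ 1 - (1 / 2 : ℝ) ^ (n + 1) := by
      intro n
      induction n with
      | zero =>
        intro W hW _
        rw [Nat.cast_zero, zero_add, one_mul] at hW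
        have h1 : q W ≤ D * σ := by
          refine (hCq' W).trans ?_
          gcongr
          rw [← hσρ]
          exact Real.rpow_le_rpow (norm_nonneg _) hW (by norm_num)
        calc C * q W ≤ C * (D * σ) := by gcongr
          _ ≤ 1 / 2 := hCDσ
          _ = _ := by norm_num
      | succ n ih =>
        intro W hW hWe
        have h1 := ih (r n) (hr1 n).le (hr2 n)
        have h2 : q (W - r n) ≤ ε n * d n := by
          refine (hs' n (W - r n) ?_).trans ?_
          · intro e he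
            have he' : e ∈ Submodule.span ℂ (S n : Set E) :=
              Submodule.subset_span (hs'S n he)
            rw [map_sub, hWe e (hspan n he'), hr2 n e he', sub_self]
          · refine mul_le_mul_of_nonneg_left ?_ (hε n).le
            simp only [d]
            apply Real.rpow_le_rpow (norm_nonneg _) _ (by norm_num)
            refine (norm_sub_le _ _).trans ?_
            have := (hr1 n).le
            push_cast at hW
            nlinarith
        have h3 : q W ≤ q (r n) + q (W - r n) := by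
          have := hqadd (r n) (W - r n)
          rwa [add_sub_cancel] at this
        calc C * q W ≤ C * (q (r n) + q (W - r n)) := by gcongr
          _ = C * q (r n) + C * q (W - r n) := by ring
          _ ≤ (1 - (1 / 2 : ℝ) ^ (n + 1)) + (1 / 2 : ℝ) ^ (n + 2) := by
            refine add_le_add h1 (le_trans ?_ (hεd n))
            gcongr
          _ = _ := by ring
    obtain ⟨n, hn⟩ := exists_nat_ge (‖Z‖ / (3 * ρ))
    have hnZ : ‖Z‖ ≤ 3 * (((n : ℝ) + 1) * ρ) := by
      rw [div_le_iff₀ (by positivity)] at hn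
      nlinarith
    have h4 := key n Z hnZ (fun e _ => rfl)
    have h5 : ‖Λ Z‖ ^ (1 / 2 : ℝ) ≤ 1 := by
      refine (hΛ' Z hZ).trans (h4.trans ?_)
      have : (0 : ℝ) ≤ (1 / 2 : ℝ) ^ (n + 1) := by positivity
      linarith
    by_contra hcon
    rw [not_le] at hcon
    exact absurd h5 (not_le.2 (Real.one_lt_rpow hcon (by norm_num)))

end Pool.Agent.Lib.MP_1707ab_an
end

section
/-!
Basic calculus of the Wirtinger derivatives `dz`, `db` and of test functions.
-/
set_option autoImplicit false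

open MeasureTheory Complex Set Filter Topology
open scoped ContDiff

namespace Pool.Agent.Lib.MP_1707ab_an

variable {f g : ℂ → ℂ} {z : ℂ}

/-! ### algebra -/

lemma dz_add (hf : DifferentiableAt ℝ f z) (hg : DifferentiableAt ℝ g z) :
    dz (fun w => f w + g w) z = dz f z + dz g z := by
  unfold dz
  rw [fderiv_fun_add hf hg]
  simp only [add_apply]
  ring

lemma db_add (hf : DifferentiableAt ℝ f z) (hg : DifferentiableAt ℝ g z) :
    db (fun w => f w + g w) z = db f z + db g z := by
  unfold db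
  rw [fderiv_fun_add hf hg]
  simp only [add_apply]
  ring

lemma dz_sub (hf : DifferentiableAt ℝ f z) (hg : DifferentiableAt ℝ g z) :
    dz (fun w => f w - g w) z = dz f z - dz g z := by
  unfold dz
  rw [fderiv_fun_sub hf hg]
  simp only [sub_apply]
  ring

lemma db_sub (hf : DifferentiableAt ℝ f z) (hg : DifferentiableAt ℝ g z) :
    db (fun w => f w - g w) z = db f z - db g z := by
  unfold db
  rw [fderiv_fun_sub hf hg]
  simp only [sub_apply]
  ring

lemma dz_neg : dz (fun w => -f w) z = -dz f z := by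
  unfold dz
  rw [fderiv_fun_neg]
  simp only [neg_apply]
  ring

lemma db_neg : db (fun w => -f w) z = -db f z := by
  unfold db
  rw [fderiv_fun_neg]
  simp only [neg_apply]
  ring

lemma dz_const (c : ℂ) : dz (fun _ => c) z = 0 := by
  simp [dz]

lemma db_const (c : ℂ) : db (fun _ => c) z = 0 := by
  simp [db]

lemma dz_mul (hf : DifferentiableAt ℝ f z) (hg : DifferentiableAt ℝ g z) :
    dz (fun w => f w * g w) z = dz f z * g z + f z * dz g z := by
  unfold dz
  rw [fderiv_fun_mul hf hg]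
  simp only [add_apply, smul_apply, smul_eq_mul]
  ring

lemma db_mul (hf : DifferentiableAt ℝ f z) (hg : DifferentiableAt ℝ g z) :
    db (fun w => f w * g w) z = db f z * g z + f z * db g z := by
  unfold db
  rw [fderiv_fun_mul hf hg]
  simp only [add_apply, smul_apply, smul_eq_mul]
  ring

lemma dz_const_mul (c : ℂ) (hf : DifferentiableAt ℝ f z) :
    dz (fun w => c * f w) z = c * dz f z := by
  rw [dz_mul (differentiableAt_const c) hf, dz_const]
  ring

lemma db_const_mul (c : ℂ) (hf : DifferentiableAt ℝ f z) :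
    db (fun w => c * f w) z = c * db f z := by
  rw [db_mul (differentiableAt_const c) hf, db_const]
  ring

lemma dz_congr (h : f =ᶠ[𝓝 z] g) : dz f z = dz g z := by
  unfold dz
  rw [h.fderiv_eq]

lemma db_congr (h : f =ᶠ[𝓝 z] g) : db f z = db g z := by
  unfold db
  rw [h.fderiv_eq]

/-! ### holomorphic functions -/

lemma db_eq_zero (hf : DifferentiableAt ℂ f z) : db f z = 0 := by
  unfold db
  have h : fderiv ℝ f z = (fderiv ℂ f z).restrictScalars ℝ := hf.fderiv_restrictScalars ℝ
  rw [h]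
  have h2 : fderiv ℂ f z I = I * fderiv ℂ f z 1 := by
    have := (fderiv ℂ f z).map_smul I 1
    simp only [smul_eq_mul, mul_one] at this
    exact this
  simp only [ContinuousLinearMap.coe_restrictScalars']
  rw [h2, ← mul_assoc, I_mul_I]
  ring

lemma dz_eq_deriv (hf : DifferentiableAt ℂ f z) : dz f z = deriv f z := by
  unfold dz
  have h : fderiv ℝ f z = (fderiv ℂ f z).restrictScalars ℝ := hf.fderiv_restrictScalars ℝ
  rw [h]
  have h2 : fderiv ℂ f z I = I * fderiv ℂ f z 1 := by
    have := (fderiv ℂ f z).map_smul I 1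
    simp only [smul_eq_mul, mul_one] at this
    exact this
  simp only [ContinuousLinearMap.coe_restrictScalars']
  rw [h2, ← mul_assoc, I_mul_I, fderiv_apply_one_eq_deriv]
  ring

lemma differentiableAt_of_db (hf : DifferentiableAt ℝ f z) (h : db f z = 0) :
    DifferentiableAt ℂ f z := by
  have h1 : fderiv ℝ f z I = I * fderiv ℝ f z 1 := by
    unfold db at h
    have h2 : fderiv ℝ f z 1 + I * fderiv ℝ f z I = 0 := by
      have := mul_eq_zero.1 (show (fderiv ℝ f z 1 + I * fderiv ℝ f z I) * (1 / 2) = 0 by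
        rw [← h]; ring)
      rcases this with h3 | h3
      · exact h3
      · norm_num at h3
    have h4 : I * (fderiv ℝ f z 1 + I * fderiv ℝ f z I) = 0 := by rw [h2, mul_zero]
    rw [mul_add, ← mul_assoc, I_mul_I] at h4
    linear_combination -h4
  exact differentiableAt_complex_iff_differentiableAt_real.2 ⟨hf, by simpa using h1⟩

/-! ### smoothness and supports -/

lemma contDiff_dz (hf : ContDiff ℝ ∞ f) : ContDiff ℝ ∞ (dz f) := by
  have h := hf.fderiv_right (m := ∞) (by simp)
  unfold dz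
  have h1 : ContDiff ℝ ∞ fun z => fderiv ℝ f z 1 := h.clm_apply contDiff_const
  have h2 : ContDiff ℝ ∞ fun z => fderiv ℝ f z I := h.clm_apply contDiff_const
  exact (h1.sub (contDiff_const.mul h2)).div_const 2

lemma contDiff_db (hf : ContDiff ℝ ∞ f) : ContDiff ℝ ∞ (db f) := by
  have h := hf.fderiv_right (m := ∞) (by simp)
  unfold db
  have h1 : ContDiff ℝ ∞ fun z => fderiv ℝ f z 1 := h.clm_apply contDiff_const
  have h2 : ContDiff ℝ ∞ fun z => fderiv ℝ f z I := h.clm_apply contDiff_const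
  exact (h1.add (contDiff_const.mul h2)).div_const 2

lemma contDiffOn_dz {U : Set ℂ} (hU : IsOpen U) (hf : ContDiffOn ℝ ∞ f U) :
    ContDiffOn ℝ ∞ (dz f) U := by
  have h := hf.fderiv_of_isOpen hU (m := ∞) (by simp)
  unfold dz
  have h1 : ContDiffOn ℝ ∞ (fun z => fderiv ℝ f z 1) U := h.clm_apply contDiffOn_const
  have h2 : ContDiffOn ℝ ∞ (fun z => fderiv ℝ f z I) U := h.clm_apply contDiffOn_const
  exact (h1.sub (contDiffOn_const.mul h2)).div_const 2

lemma contDiffOn_db {U : Set ℂ} (hU : IsOpen U) (hf : ContDiffOn ℝ ∞ f U) :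
    ContDiffOn ℝ ∞ (db f) U := by
  have h := hf.fderiv_of_isOpen hU (m := ∞) (by simp)
  unfold db
  have h1 : ContDiffOn ℝ ∞ (fun z => fderiv ℝ f z 1) U := h.clm_apply contDiffOn_const
  have h2 : ContDiffOn ℝ ∞ (fun z => fderiv ℝ f z I) U := h.clm_apply contDiffOn_const
  exact (h1.add (contDiffOn_const.mul h2)).div_const 2

lemma tsupport_dz (f : ℂ → ℂ) : tsupport (dz f) ⊆ tsupport f := by
  intro z hz
  by_contra hc
  have h := notMem_tsupport_iff_eventuallyEq.1 hc
  have h2 : z ∉ tsupport (dz f) := by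
    rw [notMem_tsupport_iff_eventuallyEq]
    filter_upwards [h.eventually_nhds] with w hw
    rw [dz_congr hw]
    exact dz_const 0
  exact h2 hz

lemma tsupport_db (f : ℂ → ℂ) : tsupport (db f) ⊆ tsupport f := by
  intro z hz
  by_contra hc
  have h := notMem_tsupport_iff_eventuallyEq.1 hc
  have h2 : z ∉ tsupport (db f) := by
    rw [notMem_tsupport_iff_eventuallyEq]
    filter_upwards [h.eventually_nhds] with w hw
    rw [db_congr hw]
    exact db_const 0
  exact h2 hz

namespace Test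

lemma contDiff (h : Test f) : ContDiff ℝ ∞ f := h.1

lemma hasCompactSupport (h : Test f) : HasCompactSupport f := h.2

lemma continuous (h : Test f) : Continuous f := h.1.continuous

lemma differentiable (h : Test f) : Differentiable ℝ f := h.1.differentiable (by simp)

lemma integrable (h : Test f) : Integrable f := h.continuous.integrable_of_hasCompactSupport h.2

lemma dz (h : Test f) : Test (dz f) :=
  ⟨contDiff_dz h.1, h.2.of_isClosed_subset (isClosed_tsupport _) (tsupport_dz f)⟩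

lemma db (h : Test f) : Test (db f) :=
  ⟨contDiff_db h.1, h.2.of_isClosed_subset (isClosed_tsupport _) (tsupport_db f)⟩

lemma add (hf : Test f) (hg : Test g) : Test (fun z => f z + g z) :=
  ⟨hf.1.add hg.1, hf.2.add hg.2⟩

lemma neg (hf : Test f) : Test (fun z => -f z) := ⟨hf.1.neg, hf.2.neg⟩

lemma sub (hf : Test f) (hg : Test g) : Test (fun z => f z - g z) := by
  simpa [sub_eq_add_neg] using hf.add hg.neg

lemma const_mul (c : ℂ) (hf : Test f) : Test (fun z => c * f z) :=
  ⟨contDiff_const.mul hf.1, hf.2.mul_left⟩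

lemma mul_left (hg : ContDiff ℝ ∞ g) (hf : Test f) : Test (fun z => g z * f z) :=
  ⟨hg.mul hf.1, hf.2.mul_left⟩

/-- a function smooth on an open set times a test function supported in this set -/
lemma mul_contDiffOn {U : Set ℂ} (hU : IsOpen U) (hg : ContDiffOn ℝ ∞ g U) (hf : Test f)
    (hs : tsupport f ⊆ U) : Test (fun z => g z * f z) := by
  refine ⟨contDiff_iff_contDiffAt.2 fun z => ?_, hf.2.mul_left⟩
  by_cases hz : z ∈ tsupport f
  · exact (hg.contDiffAt (hU.mem_nhds (hs hz))).mul hf.1.contDiffAt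
  · have h := notMem_tsupport_iff_eventuallyEq.1 hz
    have : (fun z => g z * f z) =ᶠ[𝓝 z] fun _ => 0 := by
      filter_upwards [h] with w hw
      rw [hw]
      simp
    exact contDiffAt_const.congr_of_eventuallyEq this

end Test

lemma tsupport_mul_subset (f g : ℂ → ℂ) : tsupport (fun z => f z * g z) ⊆ tsupport g :=
  closure_mono (fun z hz => by
    simp only [Function.mem_support, ne_eq, mul_eq_zero, not_or] at hz ⊢
    exact hz.2)

/-! ### integration by parts -/

lemma Test.integral_fderiv (hf : Test f) (v : ℂ) : ∫ z, fderiv ℝ f z v = 0 := by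
  have hi : Integrable (fun z => fderiv ℝ f z v) :=
    ((hf.1.continuous_fderiv (by simp)).clm_apply continuous_const).integrable_of_hasCompactSupport
      (hf.2.fderiv_apply ℝ v)
  have h := integral_mul_fderiv_eq_neg_fderiv_mul_of_integrable (μ := (volume : Measure ℂ))
    (f := fun _ : ℂ => (1 : ℂ)) (g := f) (v := v) (by simp) (by simpa using hi)
    (by simpa using hf.integrable) (fun x _ => differentiableAt_const _)
    (fun x _ => hf.differentiable x)
  simpa using h

lemma Test.integral_dz (hf : Test f) : ∫ z, MP_1707ab_an.dz f z = 0 := by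
  have h1 : ∀ v : ℂ, Integrable (fun z => fderiv ℝ f z v) := fun v =>
    ((hf.1.continuous_fderiv (by simp)).clm_apply continuous_const).integrable_of_hasCompactSupport
      (hf.2.fderiv_apply ℝ v)
  unfold MP_1707ab_an.dz
  rw [integral_div, integral_sub (h1 1) ((h1 I).const_mul I), integral_const_mul,
    hf.integral_fderiv, hf.integral_fderiv]
  simp

lemma Test.integral_db (hf : Test f) : ∫ z, MP_1707ab_an.db f z = 0 := by
  have h1 : ∀ v : ℂ, Integrable (fun z => fderiv ℝ f z v) := fun v =>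
    ((hf.1.continuous_fderiv (by simp)).clm_apply continuous_const).integrable_of_hasCompactSupport
      (hf.2.fderiv_apply ℝ v)
  unfold MP_1707ab_an.db
  rw [integral_div, integral_add (h1 1) ((h1 I).const_mul I), integral_const_mul,
    hf.integral_fderiv, hf.integral_fderiv]
  simp

/-- integration by parts, `g` smooth near the support of the test function `f` -/
lemma Test.integral_mul_dz {U : Set ℂ} (hU : IsOpen U) (hg : ContDiffOn ℝ ∞ g U) (hf : Test f)
    (hs : tsupport f ⊆ U) :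
    ∫ z, g z * MP_1707ab_an.dz f z = -∫ z, MP_1707ab_an.dz g z * f z := by
  have h0 := (hf.mul_contDiffOn hU hg hs).integral_dz
  have hd : Test (fun z => MP_1707ab_an.dz g z * f z) :=
    hf.mul_contDiffOn hU (contDiffOn_dz hU hg) hs
  have hd2 : Test (fun z => g z * MP_1707ab_an.dz f z) :=
    hf.dz.mul_contDiffOn hU hg ((tsupport_dz f).trans hs)
  have e : ∀ z, MP_1707ab_an.dz (fun z => g z * f z) z =
      MP_1707ab_an.dz g z * f z + g z * MP_1707ab_an.dz f z := by
    intro z
    by_cases hz : z ∈ tsupport f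
    · exact dz_mul ((hg.contDiffAt (hU.mem_nhds (hs hz))).differentiableAt (by simp))
        (hf.differentiable z)
    · have h := notMem_tsupport_iff_eventuallyEq.1 hz
      have h2 : (fun z => g z * f z) =ᶠ[𝓝 z] fun _ => 0 := by
        filter_upwards [h] with w hw
        rw [hw]
        simp
      rw [dz_congr h2, dz_const, dz_congr h, h.self_of_nhds]
      have : MP_1707ab_an.dz (0 : ℂ → ℂ) z = 0 := dz_const 0
      rw [this]
      simp
  rw [integral_congr_ae (Eventually.of_forall e), integral_add hd.integrable hd2.integrable] at h0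
  linear_combination h0

/-- integration by parts, `g` smooth near the support of the test function `f` -/
lemma Test.integral_mul_db {U : Set ℂ} (hU : IsOpen U) (hg : ContDiffOn ℝ ∞ g U) (hf : Test f)
    (hs : tsupport f ⊆ U) :
    ∫ z, g z * MP_1707ab_an.db f z = -∫ z, MP_1707ab_an.db g z * f z := by
  have h0 := (hf.mul_contDiffOn hU hg hs).integral_db
  have hd : Test (fun z => MP_1707ab_an.db g z * f z) :=
    hf.mul_contDiffOn hU (contDiffOn_db hU hg) hs
  have hd2 : Test (fun z => g z * MP_1707ab_an.db f z) :=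
    hf.db.mul_contDiffOn hU hg ((tsupport_db f).trans hs)
  have e : ∀ z, MP_1707ab_an.db (fun z => g z * f z) z =
      MP_1707ab_an.db g z * f z + g z * MP_1707ab_an.db f z := by
    intro z
    by_cases hz : z ∈ tsupport f
    · exact db_mul ((hg.contDiffAt (hU.mem_nhds (hs hz))).differentiableAt (by simp))
        (hf.differentiable z)
    · have h := notMem_tsupport_iff_eventuallyEq.1 hz
      have h2 : (fun z => g z * f z) =ᶠ[𝓝 z] fun _ => 0 := by
        filter_upwards [h] with w hw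
        rw [hw]
        simp
      rw [db_congr h2, db_const, db_congr h, h.self_of_nhds]
      have : MP_1707ab_an.db (0 : ℂ → ℂ) z = 0 := db_const 0
      rw [this]
      simp
  rw [integral_congr_ae (Eventually.of_forall e), integral_add hd.integrable hd2.integrable] at h0
  linear_combination h0

end Pool.Agent.Lib.MP_1707ab_an
end

section
/-!
Problem MP_1707ab_an, module WEAK-CZ, part 3: the finite Calderón-Zygmund decomposition.
-/
set_option autoImplicit false

open MeasureTheory Complex Set Filter Topology Metric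
open scoped ContDiff ENNReal

namespace Pool.Agent.Lib.MP_1707ab_an

namespace CZ

/-- half-open rectangles -/
def Rc (x y a b : ℝ) : Set ℂ := {z | z.re ∈ Ico x (x + a) ∧ z.im ∈ Ico y (y + b)}

lemma measurableSet_Rc (x y a b : ℝ) : MeasurableSet (Rc x y a b) :=
  (measurable_re measurableSet_Ico).inter (measurable_im measurableSet_Ico)

lemma volume_Rc {x y a b : ℝ} (ha : 0 < a) :
    volume (Rc x y a b) = ENNReal.ofReal (a * b) := by
  have h1 : Rc x y a b = Complex.measurableEquivRealProd ⁻¹' (Ico x (x + a) ×ˢ Ico y (y + b)) := by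
    ext z
    simp [Rc, Complex.measurableEquivRealProd]
  rw [h1, Complex.volume_preserving_equiv_real_prod.measure_preimage_equiv,
    Measure.volume_eq_prod, Measure.prod_prod, Real.volume_Ico, Real.volume_Ico,
    ENNReal.ofReal_mul ha.le]
  congr 2 <;> ring

lemma Rc_split_re {x y a b : ℝ} (ha : 0 < a) :
    Rc x y a b = Rc x y (a / 2) b ∪ Rc (x + a / 2) y (a / 2) b := by
  ext z
  simp only [Rc, mem_ofPred_eq, mem_union, mem_Ico]
  constructor
  · rintro ⟨⟨h1, h2⟩, h3⟩
    rcases lt_or_ge z.re (x + a / 2) with h | h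
    · exact Or.inl ⟨⟨h1, h⟩, h3⟩
    · exact Or.inr ⟨⟨h, by linarith⟩, h3⟩
  · rintro (⟨⟨h1, h2⟩, h3⟩ | ⟨⟨h1, h2⟩, h3⟩)
    · exact ⟨⟨h1, by linarith⟩, h3⟩
    · exact ⟨⟨by linarith, by linarith⟩, h3⟩

lemma Rc_disj_re {x y a b : ℝ} :
    Disjoint (Rc x y (a / 2) b) (Rc (x + a / 2) y (a / 2) b) := by
  rw [Set.disjoint_left]
  rintro z ⟨⟨h1, h2⟩, h3⟩ ⟨⟨h4, h5⟩, h6⟩
  linarith

lemma Rc_split_im {x y a b : ℝ} (hb : 0 < b) :
    Rc x y a b = Rc x y a (b / 2) ∪ Rc x (y + b / 2) a (b / 2) := by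
  ext z
  simp only [Rc, mem_ofPred_eq, mem_union, mem_Ico]
  constructor
  · rintro ⟨h3, ⟨h1, h2⟩⟩
    rcases lt_or_ge z.im (y + b / 2) with h | h
    · exact Or.inl ⟨h3, ⟨h1, h⟩⟩
    · exact Or.inr ⟨h3, ⟨h, by linarith⟩⟩
  · rintro (⟨h3, ⟨h1, h2⟩⟩ | ⟨h3, ⟨h1, h2⟩⟩)
    · exact ⟨h3, ⟨h1, by linarith⟩⟩
    · exact ⟨h3, ⟨by linarith, by linarith⟩⟩

lemma Rc_disj_im {x y a b : ℝ} :
    Disjoint (Rc x y a (b / 2)) (Rc x (y + b / 2) a (b / 2)) := by
  rw [Set.disjoint_left]
  rintro z ⟨h3, ⟨h1, h2⟩⟩ ⟨h6, ⟨h4, h5⟩⟩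
  linarith

/-- a rectangle with moderate eccentricity is in a small disc -/
lemma Rc_ball {x y a b : ℝ} (ha : 0 < a) (hb : 0 < b) (hab : a ≤ 2 * b) (hba : b ≤ 2 * a) :
    Rc x y a b ⊆ closedBall (⟨x + a / 2, y + b / 2⟩ : ℂ) (Real.sqrt (a * b)) := by
  rintro z ⟨⟨h1, h2⟩, ⟨h3, h4⟩⟩
  rw [mem_closedBall, dist_eq_norm]
  apply Real.le_sqrt_of_sq_le
  rw [Complex.sq_norm, Complex.normSq_apply]
  simp only [sub_re, sub_im]
  have e1 : (z.re - (x + a / 2)) * (z.re - (x + a / 2)) ≤ a ^ 2 / 4 := by nlinarith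
  have e2 : (z.im - (y + b / 2)) * (z.im - (y + b / 2)) ≤ b ^ 2 / 4 := by nlinarith
  nlinarith

lemma Rc_dist {x y a b : ℝ} (ha : 0 < a) (hb : 0 < b) (hab : a ≤ 2 * b) (hba : b ≤ 2 * a) {z w : ℂ}
    (hz : z ∈ Rc x y a b) (hw : w ∈ Rc x y a b) : dist z w ≤ 2 * Real.sqrt (a * b) := by
  have h1 := Rc_ball ha hb hab hba hz
  have h2 := Rc_ball ha hb hab hba hw
  rw [mem_closedBall] at h1 h2
  have := dist_triangle_right z w (⟨x + a / 2, y + b / 2⟩ : ℂ)
  linarith

/-- Calderón-Zygmund decomposition of `Z` on `Q` at height `t` -/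
structure CZD (Z : ℂ → ℂ) (t : ℝ) (Q : Set ℂ) where
  ι : Type
  fin : Fintype ι
  g : ℂ → ℂ
  b : ι → ℂ → ℂ
  c : ι → ℂ
  r : ι → ℝ
  gi : Integrable g
  g_le : ∀ z, ‖g z‖ ≤ 2 * t
  g_zero : ∀ z, z ∉ Q → g z = 0
  g_int : ∫ z, ‖g z‖ ≤ ∫ z in Q, ‖Z z‖
  bi : ∀ i, Integrable (b i)
  b_zero : ∀ i, ∀ z, z ∉ closedBall (c i) (r i) → b i z = 0
  b_int : ∀ i, ∫ z, b i z = 0
  r_pos : ∀ i, 0 < r i
  b_sum : ∑ i, ∫ z, ‖b i z‖ ≤ 2 * ∫ z in Q, ‖Z z‖
  r_sum : ∑ i, r i ^ 2 ≤ (∫ z in Q, ‖Z z‖) / t
  eq : ∀ z, Q.indicator Z z = g z + ∑ i, b i z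

/-- merging -/
lemma CZD.merge {Z : ℂ → ℂ} {t : ℝ} {Q₁ Q₂ : Set ℂ} (hZ : Integrable Z)
    (hQ₂ : MeasurableSet Q₂) (hd : Disjoint Q₁ Q₂) (D₁ : CZD Z t Q₁) (D₂ : CZD Z t Q₂) :
    Nonempty (CZD Z t (Q₁ ∪ Q₂)) := by
  let _ := D₁.fin
  let _ := D₂.fin
  have hI : ∫ z in Q₁ ∪ Q₂, ‖Z z‖ = (∫ z in Q₁, ‖Z z‖) + ∫ z in Q₂, ‖Z z‖ :=
    setIntegral_union hd hQ₂ hZ.norm.integrableOn hZ.norm.integrableOn
  refine ⟨{ ι := D₁.ι ⊕ D₂.ι
            fin := inferInstance
            g := fun z => D₁.g z + D₂.g z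
            b := Sum.elim D₁.b D₂.b
            c := Sum.elim D₁.c D₂.c
            r := Sum.elim D₁.r D₂.r
            gi := D₁.gi.add D₂.gi
            g_le := ?_
            g_zero := ?_
            g_int := ?_
            bi := ?_
            b_zero := ?_
            b_int := ?_
            r_pos := ?_
            b_sum := ?_
            r_sum := ?_
            eq := ?_ }⟩
  · intro z
    by_cases h1 : z ∈ Q₁
    · have h2 : z ∉ Q₂ := Set.disjoint_left.1 hd h1
      rw [D₂.g_zero z h2, add_zero]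
      exact D₁.g_le z
    · rw [D₁.g_zero z h1, zero_add]
      exact D₂.g_le z
  · intro z hz
    rw [mem_union, not_or] at hz
    rw [D₁.g_zero z hz.1, D₂.g_zero z hz.2, add_zero]
  · rw [hI]
    calc ∫ z, ‖D₁.g z + D₂.g z‖ ≤ ∫ z, (‖D₁.g z‖ + ‖D₂.g z‖) :=
          integral_mono (D₁.gi.add D₂.gi).norm (D₁.gi.norm.add D₂.gi.norm)
            fun z => norm_add_le _ _
      _ = (∫ z, ‖D₁.g z‖) + ∫ z, ‖D₂.g z‖ := integral_add D₁.gi.norm D₂.gi.norm
      _ ≤ _ := add_le_add D₁.g_int D₂.g_int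
  · rintro (i | i)
    · exact D₁.bi i
    · exact D₂.bi i
  · rintro (i | i)
    · exact D₁.b_zero i
    · exact D₂.b_zero i
  · rintro (i | i)
    · exact D₁.b_int i
    · exact D₂.b_int i
  · rintro (i | i)
    · exact D₁.r_pos i
    · exact D₂.r_pos i
  · rw [hI, Fintype.sum_sum_type]
    have h1 := D₁.b_sum
    have h2 := D₂.b_sum
    simp only [Sum.elim_inl, Sum.elim_inr]
    linarith
  · rw [hI, Fintype.sum_sum_type, add_div]
    exact add_le_add D₁.r_sum D₂.r_sum
  · intro z
    rw [Fintype.sum_sum_type, indicator_union_of_disjoint hd]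
    simp only [Sum.elim_inl, Sum.elim_inr]
    rw [D₁.eq z, D₂.eq z]
    ring

/-- good sets -/
lemma CZD.good {Z : ℂ → ℂ} {t : ℝ} {Q : Set ℂ} (ht : 0 < t) (hZ : Integrable Z)
    (hQ : MeasurableSet Q) (hb : ∀ z ∈ Q, ‖Z z‖ ≤ 2 * t) : Nonempty (CZD Z t Q) := by
  have hI : 0 ≤ ∫ z in Q, ‖Z z‖ := integral_nonneg fun _ => norm_nonneg _
  refine ⟨{ ι := PEmpty
            fin := inferInstance
            g := Q.indicator Z
            b := fun i => i.elim
            c := fun i => i.elim
            r := fun i => i.elim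
            gi := hZ.indicator hQ
            g_le := ?_
            g_zero := fun z hz => indicator_of_notMem hz _
            g_int := ?_
            bi := fun i => i.elim
            b_zero := fun i => i.elim
            b_int := fun i => i.elim
            r_pos := fun i => i.elim
            b_sum := ?_
            r_sum := ?_
            eq := ?_ }⟩
  · intro z
    by_cases hz : z ∈ Q
    · rw [indicator_of_mem hz]
      exact hb z hz
    · rw [indicator_of_notMem hz, norm_zero]
      positivity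
  · rw [← integral_indicator hQ]
    refine le_of_eq (integral_congr_ae (Eventually.of_forall fun z => ?_))
    simp only
    rw [norm_indicator_eq_indicator_norm]
  · simp only [Finset.univ_eq_empty, Finset.sum_empty]
    positivity
  · simp only [Finset.univ_eq_empty, Finset.sum_empty]
    positivity
  · intro z
    simp

/-- bad sets -/
lemma CZD.bad {Z : ℂ → ℂ} {t A : ℝ} {Q : Set ℂ} (ht : 0 < t) (hZ : Integrable Z)
    (hQ : MeasurableSet Q) (hA : 0 < A) (hvol : volume Q = ENNReal.ofReal A)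
    (h1 : t * A < ∫ z in Q, ‖Z z‖) (h2 : ∫ z in Q, ‖Z z‖ ≤ 2 * t * A) {c : ℂ}
    (hc : Q ⊆ closedBall c (Real.sqrt A)) : Nonempty (CZD Z t Q) := by
  have hreal : volume.real Q = A := by
    rw [measureReal_def, hvol, ENNReal.toReal_ofReal hA.le]
  have hfin : volume Q ≠ ⊤ := by
    rw [hvol]
    exact ENNReal.ofReal_ne_top
  set m : ℂ := (∫ z in Q, Z z) / A with hm
  have hAc : (A : ℂ) ≠ 0 := by exact_mod_cast hA.ne'
  have hmle : A * ‖m‖ ≤ ∫ z in Q, ‖Z z‖ := by
    rw [hm, norm_div, Complex.norm_real, Real.norm_of_nonneg hA.le, mul_div_cancel₀ _ hA.ne']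
    exact norm_integral_le_integral_norm _
  have hmt : ‖m‖ ≤ 2 * t := by
    have : A * ‖m‖ ≤ A * (2 * t) := by linarith
    exact le_of_mul_le_mul_left this hA
  have hci : IntegrableOn (fun _ : ℂ => m) Q := integrableOn_const hfin
  have hgi : Integrable (Q.indicator fun _ : ℂ => m) := (integrable_indicator_iff hQ).2 hci
  have hcn : ∫ z in Q, ‖m‖ = A * ‖m‖ := by
    rw [setIntegral_const, hreal, smul_eq_mul]
  refine ⟨{ ι := Unit
            fin := inferInstance
            g := Q.indicator fun _ => m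
            b := fun _ => Q.indicator fun z => Z z - m
            c := fun _ => c
            r := fun _ => Real.sqrt A
            gi := hgi
            g_le := ?_
            g_zero := fun z hz => indicator_of_notMem hz _
            g_int := ?_
            bi := ?_
            b_zero := ?_
            b_int := ?_
            r_pos := fun _ => Real.sqrt_pos.2 hA
            b_sum := ?_
            r_sum := ?_
            eq := ?_ }⟩
  · intro z
    by_cases hz : z ∈ Q
    · rw [indicator_of_mem hz]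
      exact hmt
    · rw [indicator_of_notMem hz, norm_zero]
      positivity
  · have : ∫ z, ‖Q.indicator (fun _ => m) z‖ = ∫ z in Q, ‖m‖ := by
      rw [← integral_indicator hQ]
      refine integral_congr_ae (Eventually.of_forall fun z => ?_)
      simp only
      rw [norm_indicator_eq_indicator_norm]
    rw [this, hcn]
    exact hmle
  · intro _
    exact (integrable_indicator_iff hQ).2 (hZ.integrableOn.sub hci)
  · intro _ z hz
    exact indicator_of_notMem (fun h => hz (hc h)) _
  · intro _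
    rw [integral_indicator hQ, integral_sub hZ.integrableOn hci, setIntegral_const, hreal, hm,
      Complex.real_smul, mul_div_cancel₀ _ hAc, sub_self]
  · simp only [Finset.univ_unique, Finset.sum_singleton]
    have : ∫ z, ‖Q.indicator (fun z => Z z - m) z‖ = ∫ z in Q, ‖Z z - m‖ := by
      rw [← integral_indicator hQ]
      refine integral_congr_ae (Eventually.of_forall fun z => ?_)
      simp only
      rw [norm_indicator_eq_indicator_norm]
    rw [this]
    calc ∫ z in Q, ‖Z z - m‖ ≤ ∫ z in Q, (‖Z z‖ + ‖m‖) :=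
          integral_mono (hZ.integrableOn.sub hci).norm (hZ.norm.integrableOn.add hci.norm)
            fun z => norm_sub_le _ _
      _ = (∫ z in Q, ‖Z z‖) + ∫ z in Q, ‖m‖ := integral_add hZ.norm.integrableOn hci.norm
      _ ≤ _ := by rw [hcn]; linarith
  · simp only [Finset.univ_unique, Finset.sum_singleton]
    rw [Real.sq_sqrt hA.le, le_div_iff₀ ht]
    linarith
  · intro z
    simp only [Finset.univ_unique, Finset.sum_singleton]
    by_cases hz : z ∈ Q
    · rw [indicator_of_mem hz, indicator_of_mem hz, indicator_of_mem hz]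
      ring
    · rw [indicator_of_notMem hz, indicator_of_notMem hz, indicator_of_notMem hz, add_zero]

/-- the stopping time argument -/
theorem exists_dec {Z : ℂ → ℂ} (hZ : Integrable Z) {t δ : ℝ} (ht : 0 < t) (hδ : 0 < δ)
    (hosc : ∀ z w, dist z w ≤ 2 * δ → ‖Z z - Z w‖ ≤ t) :
    ∀ N : ℕ, ∀ x y a b : ℝ, 0 < a → 0 < b → a ≤ 2 * b → b ≤ 2 * a → a * b ≤ 2 ^ N * δ ^ 2 →
      ∫ z in Rc x y a b, ‖Z z‖ ≤ t * (a * b) → Nonempty (CZD Z t (Rc x y a b)) := by
  intro N
  induction N with
  | zero =>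
    intro x y a b ha hb hab hba harea hint
    have hvol := volume_Rc (x := x) (y := y) (b := b) ha
    have hreal : volume.real (Rc x y a b) = a * b := by
      rw [measureReal_def, hvol, ENNReal.toReal_ofReal (by positivity)]
    refine CZD.good ht hZ (measurableSet_Rc x y a b) fun z hz => ?_
    have hfin : volume (Rc x y a b) ≠ ⊤ := by
      rw [hvol]
      exact ENNReal.ofReal_ne_top
    have h1 : ∫ w in Rc x y a b, ‖Z z‖ ≤ ∫ w in Rc x y a b, (‖Z w‖ + t) := by
      refine setIntegral_mono_on (integrableOn_const hfin)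
        (hZ.norm.integrableOn.add (integrableOn_const hfin)) (measurableSet_Rc x y a b) ?_
      intro w hw
      have h2 := Rc_dist ha hb hab hba hz hw
      have h3 : Real.sqrt (a * b) ≤ δ := by
        rw [Real.sqrt_le_left hδ.le]
        simpa using harea
      have h4 := hosc z w (h2.trans (by linarith))
      have h5 := norm_sub_norm_le (Z z) (Z w)
      linarith
    rw [setIntegral_const, integral_add hZ.norm.integrableOn (integrableOn_const hfin),
      setIntegral_const, hreal, smul_eq_mul, smul_eq_mul] at h1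
    have h6 : (a * b) * ‖Z z‖ ≤ (a * b) * (2 * t) := by linarith
    exact le_of_mul_le_mul_left h6 (by positivity)
  | succ N ih =>
    intro x y a b ha hb hab hba harea hint
    -- one child
    have child : ∀ x' y' a' b' : ℝ, 0 < a' → 0 < b' → a' ≤ 2 * b' → b' ≤ 2 * a' →
        a' * b' = a * b / 2 → Rc x' y' a' b' ⊆ Rc x y a b →
        Nonempty (CZD Z t (Rc x' y' a' b')) := by
      intro x' y' a' b' ha' hb' hab' hba' harea' hsub
      by_cases h : ∫ z in Rc x' y' a' b', ‖Z z‖ ≤ t * (a' * b')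
      · refine ih x' y' a' b' ha' hb' hab' hba' ?_ h
        rw [harea']
        rw [pow_succ] at harea
        linarith
      · push Not at h
        refine CZD.bad ht hZ (measurableSet_Rc _ _ _ _) (mul_pos ha' hb') (volume_Rc ha') h ?_
          (Rc_ball ha' hb' hab' hba')
        have h1 : ∫ z in Rc x' y' a' b', ‖Z z‖ ≤ ∫ z in Rc x y a b, ‖Z z‖ :=
          setIntegral_mono_set hZ.norm.integrableOn
            (Eventually.of_forall fun _ => norm_nonneg _) (Eventually.of_forall hsub)
        rw [harea']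
        linarith
    rcases le_total b a with hle | hle
    · obtain ⟨D₁⟩ := child x y (a / 2) b (by linarith) hb (by linarith) (by linarith) (by ring)
        (by rw [Rc_split_re ha]; exact subset_union_left)
      obtain ⟨D₂⟩ := child (x + a / 2) y (a / 2) b (by linarith) hb (by linarith) (by linarith)
        (by ring) (by rw [Rc_split_re (x := x) ha]; exact subset_union_right)
      have := CZD.merge hZ (measurableSet_Rc _ _ _ _) Rc_disj_re D₁ D₂
      rwa [← Rc_split_re ha] at this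
    · obtain ⟨D₁⟩ := child x y a (b / 2) ha (by linarith) (by linarith) (by linarith) (by ring)
        (by rw [Rc_split_im hb]; exact subset_union_left)
      obtain ⟨D₂⟩ := child x (y + b / 2) a (b / 2) ha (by linarith) (by linarith) (by linarith)
        (by ring) (by rw [Rc_split_im (y := y) hb]; exact subset_union_right)
      have := CZD.merge hZ (measurableSet_Rc _ _ _ _) Rc_disj_im D₁ D₂
      rwa [← Rc_split_im hb] at this

end CZ

end Pool.Agent.Lib.MP_1707ab_an
end

section
/-!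
Problem MP_1707ab_an, the case `n = 1`, module CAUCHY: elementary properties of the Cauchy
transform of test functions and of integrable functions.
-/
set_option autoImplicit false

open MeasureTheory Complex Set Filter Topology Metric
open scoped ContDiff Convolution

namespace Pool.Agent.Lib.MP_1707ab_an

namespace CauAux

/-! ### the kernel `1 / z` -/

lemma integrableOn_inv_norm_ball (R : ℝ) :
    IntegrableOn (fun z : ℂ => ‖z‖⁻¹) (ball 0 R) := by
  refine (integrableOn_fun_norm_addHaar (E := ℂ) (F := ℝ) volume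
    (f := fun r : ℝ => r⁻¹) (r := R)).2 ?_
  rw [Complex.finrank_real_complex]
  have h : IntegrableOn (fun _ : ℝ => (1 : ℝ)) (Ioo 0 R) :=
    (continuousOn_const.integrableOn_compact (isCompact_Icc (a := (0 : ℝ)) (b := R))).mono_set
      Ioo_subset_Icc_self
  refine h.congr_fun ?_ measurableSet_Ioo
  intro y hy
  have : y ≠ 0 := ne_of_gt hy.1
  simp [this]

lemma integral_inv_norm_ball {R : ℝ} (hR : 0 ≤ R) :
    ∫ z in ball (0 : ℂ) R, ‖z‖⁻¹ = 2 * Real.pi * R := by
  have h1 : ∫ z in ball (0 : ℂ) R, ‖z‖⁻¹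
      = ∫ z : ℂ, (indicator (Iio R) (fun r : ℝ => r⁻¹)) ‖z‖ := by
    rw [← integral_indicator measurableSet_ball]
    congr 1
    funext z
    simp [indicator]
  rw [h1, integral_fun_norm_addHaar (μ := (volume : Measure ℂ))]
  have h2 : ∫ y in Ioi (0 : ℝ), y ^ (Module.finrank ℝ ℂ - 1) •
      (indicator (Iio R) (fun r : ℝ => r⁻¹)) y = R := by
    rw [Complex.finrank_real_complex]
    have h3 : ∀ y ∈ Ioi (0 : ℝ), y ^ (2 - 1) • (indicator (Iio R) (fun r : ℝ => r⁻¹)) y
        = indicator (Iio R) (fun _ => (1 : ℝ)) y := by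
      intro y hy
      have hy' : y ≠ 0 := ne_of_gt hy
      by_cases h : y < R <;> simp [indicator, h, hy']
    rw [setIntegral_congr_fun measurableSet_Ioi h3, setIntegral_indicator measurableSet_Iio]
    simp [Ioi_inter_Iio, hR]
  rw [h2, Complex.finrank_real_complex, Measure.real, Complex.volume_ball]
  simp
  ring

lemma integrableOn_inv_ball (R : ℝ) : IntegrableOn (fun z : ℂ => z⁻¹) (ball 0 R) := by
  refine (integrableOn_inv_norm_ball R).mono' ?_ ?_
  · exact (measurable_inv).aestronglyMeasurable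
  · exact Eventually.of_forall fun z => by simp

lemma locallyIntegrable_inv : LocallyIntegrable (fun z : ℂ => z⁻¹) := by
  intro z
  refine ⟨ball 0 (‖z‖ + 1), isOpen_ball.mem_nhds (by simp), integrableOn_inv_ball _⟩

/-- pointwise bound of the kernel -/
lemma inv_norm_le {R : ℝ} (hR : 0 < R) (u : ℂ) :
    ‖u‖⁻¹ ≤ (ball (0 : ℂ) R).indicator (fun u => ‖u‖⁻¹) u + R⁻¹ := by
  by_cases h : u ∈ ball (0 : ℂ) R
  · rw [indicator_of_mem h]
    have : 0 ≤ R⁻¹ := by positivity
    linarith
  · rw [indicator_of_notMem h, zero_add]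
    have h' : R ≤ ‖u‖ := by simpa using h
    exact inv_anti₀ hR h'

lemma integrable_ind : Integrable ((ball (0 : ℂ) 1).indicator (fun u : ℂ => ‖u‖⁻¹)) := by
  exact (integrable_indicator_iff measurableSet_ball).2 (integrableOn_inv_norm_ball 1)

lemma integrable_ind' (R : ℝ) (w : ℂ) :
    Integrable (fun z => (ball (0 : ℂ) R).indicator (fun u : ℂ => ‖u‖⁻¹) (z - w)) := by
  have := (integrable_indicator_iff measurableSet_ball).2 (integrableOn_inv_norm_ball R)
  exact this.comp_sub_right w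

lemma integrableOn_ker (R : ℝ) (w : ℂ) :
    IntegrableOn (fun z : ℂ => ‖z - w‖⁻¹) (ball 0 R) := by
  rcases le_or_gt R 0 with hR | hR
  · simp [ball_eq_empty.2 hR]
  have h1 : IntegrableOn (fun z => (ball (0 : ℂ) R).indicator (fun u : ℂ => ‖u‖⁻¹) (z - w) + R⁻¹)
      (ball 0 R) := by
    exact (integrable_ind' R w).integrableOn.add
      ((continuousOn_const.integrableOn_compact (isCompact_closedBall (0 : ℂ) R)).mono_set
        ball_subset_closedBall)
  refine h1.mono' ?_ ?_
  · exact ((measurable_id.sub_const w).norm.inv).aestronglyMeasurable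
  · refine Eventually.of_forall fun z => ?_
    rw [Real.norm_of_nonneg (by positivity)]
    exact inv_norm_le hR (z - w)

lemma integral_ker_le (R : ℝ) (w : ℂ) :
    ∫ z in ball (0 : ℂ) R, ‖z - w‖⁻¹ ≤ 3 * Real.pi * |R| := by
  rcases le_or_gt R 0 with hR | hR
  · simp only [ball_eq_empty.2 hR, Measure.restrict_empty, integral_zero_measure]
    positivity
  have hi : IntegrableOn (fun _ : ℂ => R⁻¹) (ball 0 R) :=
    (continuousOn_const.integrableOn_compact (isCompact_closedBall (0 : ℂ) R)).mono_set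
      ball_subset_closedBall
  have h1 : ∫ z in ball (0 : ℂ) R, ‖z - w‖⁻¹
      ≤ ∫ z in ball (0 : ℂ) R, ((ball (0 : ℂ) R).indicator (fun u : ℂ => ‖u‖⁻¹) (z - w) + R⁻¹) := by
    refine setIntegral_mono (integrableOn_ker R w)
      ((integrable_ind' R w).integrableOn.add hi) ?_
    intro z
    exact inv_norm_le hR (z - w)
  have h2 : ∫ z in ball (0 : ℂ) R, ((ball (0 : ℂ) R).indicator (fun u : ℂ => ‖u‖⁻¹) (z - w) + R⁻¹)
      = (∫ z in ball (0 : ℂ) R, (ball (0 : ℂ) R).indicator (fun u : ℂ => ‖u‖⁻¹) (z - w))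
        + ∫ z in ball (0 : ℂ) R, R⁻¹ :=
    integral_add (integrable_ind' R w).integrableOn hi
  have h3 : ∫ z in ball (0 : ℂ) R, (ball (0 : ℂ) R).indicator (fun u : ℂ => ‖u‖⁻¹) (z - w)
      ≤ 2 * Real.pi * R := by
    calc ∫ z in ball (0 : ℂ) R, (ball (0 : ℂ) R).indicator (fun u : ℂ => ‖u‖⁻¹) (z - w)
        ≤ ∫ z, (ball (0 : ℂ) R).indicator (fun u : ℂ => ‖u‖⁻¹) (z - w) := by
          refine setIntegral_le_integral (integrable_ind' R w) ?_
          refine Eventually.of_forall fun z => ?_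
          exact indicator_nonneg (fun _ _ => by positivity) _
      _ = ∫ z, (ball (0 : ℂ) R).indicator (fun u : ℂ => ‖u‖⁻¹) z :=
          integral_sub_right_eq_self (μ := volume) (fun u : ℂ =>
            (ball (0 : ℂ) R).indicator (fun u : ℂ => ‖u‖⁻¹) u) w
      _ = 2 * Real.pi * R := by
          rw [integral_indicator measurableSet_ball, integral_inv_norm_ball hR.le]
  have h4 : ∫ z in ball (0 : ℂ) R, R⁻¹ = Real.pi * R := by
    rw [setIntegral_const, Measure.real, Complex.volume_ball]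
    simp only [smul_eq_mul, ENNReal.toReal_mul, ENNReal.toReal_pow, ENNReal.toReal_ofReal hR.le,
      ENNReal.coe_toReal, NNReal.coe_real_pi]
    field_simp
  rw [abs_of_pos hR]
  linarith

/-! ### Fubini -/

lemma aesm_kernel {g : ℂ → ℂ} (hg : Integrable g) (R : ℝ) :
    AEStronglyMeasurable (fun p : ℂ × ℂ => g p.2 / (p.1 - p.2))
      ((volume.restrict (ball (0 : ℂ) R)).prod volume) := by
  have h1 : AEStronglyMeasurable (fun p : ℂ × ℂ => g p.2)
      ((volume.restrict (ball (0 : ℂ) R)).prod volume) := hg.1.comp_snd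
  have h2 : AEStronglyMeasurable (fun p : ℂ × ℂ => (p.1 - p.2)⁻¹)
      ((volume.restrict (ball (0 : ℂ) R)).prod volume) :=
    ((measurable_fst.sub measurable_snd).inv).aestronglyMeasurable
  simp only [div_eq_mul_inv]
  exact h1.mul h2

lemma inner_norm {g : ℂ → ℂ} (R : ℝ) (w : ℂ) :
    ∫ z in ball (0 : ℂ) R, ‖g w / (z - w)‖ = ‖g w‖ * ∫ z in ball (0 : ℂ) R, ‖z - w‖⁻¹ := by
  rw [← integral_const_mul]
  refine integral_congr_ae (Eventually.of_forall fun z => ?_)
  simp [div_eq_mul_inv]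

lemma inner_norm_le {g : ℂ → ℂ} (R : ℝ) (w : ℂ) :
    ∫ z in ball (0 : ℂ) R, ‖g w / (z - w)‖ ≤ 3 * Real.pi * |R| * ‖g w‖ := by
  rw [inner_norm, mul_comm]
  exact mul_le_mul_of_nonneg_right (integral_ker_le R w) (norm_nonneg _)

lemma integrable_kernel {g : ℂ → ℂ} (hg : Integrable g) (R : ℝ) :
    Integrable (fun p : ℂ × ℂ => g p.2 / (p.1 - p.2))
      ((volume.restrict (ball (0 : ℂ) R)).prod volume) := by
  have hm := aesm_kernel hg R
  rw [integrable_prod_iff' hm]
  constructor
  · refine Eventually.of_forall fun w => ?_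
    have h := (integrableOn_ker R w).const_mul (‖g w‖)
    have hw : Measurable (fun z : ℂ => g w / (z - w)) :=
      measurable_const.div (measurable_id.sub_const w)
    refine Integrable.mono' h ?_ ?_
    · exact hw.aestronglyMeasurable
    · exact Eventually.of_forall fun z => by simp [div_eq_mul_inv]
  · have h2 : Integrable (fun w => 3 * Real.pi * |R| * ‖g w‖) := hg.norm.const_mul _
    refine Integrable.mono' h2 ?_ ?_
    · exact hm.norm.prod_swap.integral_prod_right'
    · refine Eventually.of_forall fun w => ?_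
      rw [Real.norm_of_nonneg (integral_nonneg fun z => norm_nonneg _)]
      exact inner_norm_le R w

end CauAux

open CauAux

theorem specCauL1 : SpecCauL1 := by
  intro R
  refine ⟨3 * |R|, by positivity, ?_⟩
  intro g hg
  have hk := integrable_kernel hg R
  have h1 : IntegrableOn (fun z => ∫ w, g w / (z - w)) (ball 0 R) := hk.integral_prod_left
  refine ⟨h1.const_mul _, ?_⟩
  have h2 : ∀ z, ‖Cau g z‖ ≤ Real.pi⁻¹ * ∫ w, ‖g w / (z - w)‖ := by
    intro z
    rw [Cau, norm_mul, norm_inv, Complex.norm_real, Real.norm_of_nonneg Real.pi_pos.le]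
    exact mul_le_mul_of_nonneg_left (norm_integral_le_integral_norm _) (by positivity)
  have h3 : IntegrableOn (fun z => Real.pi⁻¹ * ∫ w, ‖g w / (z - w)‖) (ball 0 R) :=
    (hk.norm.integral_prod_left).const_mul _
  calc ∫ z in ball (0 : ℂ) R, ‖Cau g z‖
      ≤ ∫ z in ball (0 : ℂ) R, Real.pi⁻¹ * ∫ w, ‖g w / (z - w)‖ :=
        setIntegral_mono (h1.const_mul _).norm h3 h2
    _ = Real.pi⁻¹ * ∫ z in ball (0 : ℂ) R, ∫ w, ‖g w / (z - w)‖ := integral_const_mul _ _
    _ = Real.pi⁻¹ * ∫ w, ∫ z in ball (0 : ℂ) R, ‖g w / (z - w)‖ := by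
        rw [integral_integral_swap hk.norm]
    _ ≤ Real.pi⁻¹ * ∫ w, 3 * Real.pi * |R| * ‖g w‖ := by
        refine mul_le_mul_of_nonneg_left ?_ (by positivity)
        refine integral_mono hk.norm.integral_prod_right (hg.norm.const_mul _) ?_
        intro w
        exact inner_norm_le R w
    _ = 3 * |R| * ∫ w, ‖g w‖ := by
        rw [integral_const_mul]
        have := Real.pi_pos.ne'
        field_simp

/-! ### the Cauchy transform as a convolution -/

namespace CauAux

lemma cau_eq_conv (g : ℂ → ℂ) :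
    Cau g = fun z => (Real.pi : ℂ)⁻¹ *
      ((fun z : ℂ => z⁻¹) ⋆[ContinuousLinearMap.mul ℝ ℂ, volume] g) z := by
  funext z
  rw [Cau, convolution]
  congr 1
  rw [← integral_sub_left_eq_self (fun w => g w / (z - w)) volume z]
  refine integral_congr_ae (Eventually.of_forall fun u => ?_)
  simp only [ContinuousLinearMap.mul_apply']
  rw [sub_sub_cancel, div_eq_mul_inv, mul_comm]

lemma hasFDerivAt_cau {g : ℂ → ℂ} (hg : Test g) (z : ℂ) :
    HasFDerivAt (Cau g) ((Real.pi : ℂ)⁻¹ • ((fun z : ℂ => z⁻¹) ⋆[(ContinuousLinearMap.mul ℝ ℂ).precompR ℂ,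
      volume] fderiv ℝ g) z) z := by
  rw [cau_eq_conv]
  exact (hg.2.hasFDerivAt_convolution_right (ContinuousLinearMap.mul ℝ ℂ)
    locallyIntegrable_inv (hg.1.of_le (by exact_mod_cast le_top)) z).const_mul _

lemma test_fderiv {g : ℂ → ℂ} (hg : Test g) (v : ℂ) : Test (fun w => fderiv ℝ g w v) := by
  refine ⟨?_, ?_⟩
  · exact (hg.1.fderiv_right (m := ∞) (by simp)).clm_apply contDiff_const
  · exact hg.2.fderiv_apply ℝ v

lemma fderiv_cau {g : ℂ → ℂ} (hg : Test g) (z v : ℂ) :
    fderiv ℝ (Cau g) z v = Cau (fun w => fderiv ℝ g w v) z := by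
  rw [(hasFDerivAt_cau hg z).fderiv, cau_eq_conv]
  simp only [_root_.smul_apply, smul_eq_mul]
  congr 1
  exact convolution_precompR_apply _ locallyIntegrable_inv (hg.2.fderiv ℝ)
    (hg.1.continuous_fderiv (by simp)) z v

end CauAux

theorem specCauSmooth : SpecCauSmooth := by
  intro g hg
  rw [cau_eq_conv]
  refine contDiff_const.mul ?_
  exact hg.2.contDiff_convolution_right (n := ⊤) _ locallyIntegrable_inv hg.1

/-! ### Cauchy-Pompeiu by polar coordinates -/

namespace CauAux

/-- the unit vector of angle `t` -/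
noncomputable def ee (t : ℝ) : ℂ := (Real.cos t : ℂ) + (Real.sin t : ℂ) * I

lemma continuous_ee : Continuous ee := by
  unfold ee
  fun_prop

lemma norm_ee (t : ℝ) : ‖ee t‖ = 1 := by
  have : ee t = cexp (t * I) := by
    rw [Complex.exp_mul_I, ee, Complex.ofReal_cos, Complex.ofReal_sin]
  rw [this, Complex.norm_exp_ofReal_mul_I]

lemma hasDerivAt_ee (t : ℝ) : HasDerivAt ee (I * ee t) t := by
  have h1 : HasDerivAt (fun t : ℝ => (Real.cos t : ℂ)) ((-Real.sin t : ℝ) : ℂ) t :=
    (Real.hasDerivAt_cos t).ofReal_comp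
  have h2 : HasDerivAt (fun t : ℝ => (Real.sin t : ℂ)) ((Real.cos t : ℝ) : ℂ) t :=
    (Real.hasDerivAt_sin t).ofReal_comp
  have h3 := h1.add (h2.mul_const I)
  have h4 : ((-Real.sin t : ℝ) : ℂ) + ((Real.cos t : ℝ) : ℂ) * I = I * ee t := by
    rw [ee]
    push_cast
    linear_combination (-(Complex.sin t)) * I_mul_I
  rw [h4] at h3
  exact h3

/-- radial derivative -/
noncomputable def AA (g : ℂ → ℂ) (z : ℂ) (p : ℝ × ℝ) : ℂ :=
  fderiv ℝ g (z + p.1 * ee p.2) (ee p.2)

/-- angular derivative (per unit length) -/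
noncomputable def BB (g : ℂ → ℂ) (z : ℂ) (p : ℝ × ℝ) : ℂ :=
  fderiv ℝ g (z + p.1 * ee p.2) (I * ee p.2)

lemma integrand_eq (g : ℂ → ℂ) (z : ℂ) (p : ℝ × ℝ) (hp : 0 < p.1) :
    p.1 • (db g (z + Complex.polarCoord.symm p) / Complex.polarCoord.symm p)
      = (AA g z p + I * BB g z p) / 2 := by
  have hsym : Complex.polarCoord.symm p = p.1 * ee p.2 := by
    rw [Complex.polarCoord_symm_apply, ee]
  rw [hsym]
  set q : ℂ := z + p.1 * ee p.2 with hq
  have hp' : (p.1 : ℂ) ≠ 0 := by exact_mod_cast hp.ne'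
  have he : ee p.2 ≠ 0 := by
    intro h
    have := norm_ee p.2
    rw [h, norm_zero] at this
    exact zero_ne_one this
  have hA : AA g z p = (Real.cos p.2 : ℂ) * fderiv ℝ g q 1 + (Real.sin p.2 : ℂ) * fderiv ℝ g q I := by
    have : ee p.2 = (Real.cos p.2) • (1 : ℂ) + (Real.sin p.2) • I := by
      simp [ee]
    rw [AA, ← hq]
    conv_lhs => rw [this]
    rw [map_add, map_smul, map_smul]
    simp
  have hB : BB g z p = -(Real.sin p.2 : ℂ) * fderiv ℝ g q 1 + (Real.cos p.2 : ℂ) * fderiv ℝ g q I := by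
    have : I * ee p.2 = (-Real.sin p.2) • (1 : ℂ) + (Real.cos p.2) • I := by
      simp only [ee, Complex.real_smul, Complex.ofReal_neg, mul_one]
      linear_combination ((Real.sin p.2 : ℂ)) * I_mul_I
    rw [BB, ← hq]
    conv_lhs => rw [this]
    rw [map_add, map_smul, map_smul]
    simp
  have hcs : (Real.cos p.2 : ℂ) * Real.cos p.2 + (Real.sin p.2 : ℂ) * Real.sin p.2 = 1 := by
    have := Real.cos_sq_add_sin_sq p.2
    rw [← Complex.ofReal_mul, ← Complex.ofReal_mul, ← Complex.ofReal_add, ← sq, ← sq, this,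
      Complex.ofReal_one]
  rw [hA, hB, Complex.real_smul, db]
  set a := fderiv ℝ g q 1
  set b := fderiv ℝ g q I
  rw [mul_div_assoc', div_eq_iff (mul_ne_zero hp' he), ee]
  linear_combination (-(p.1 : ℂ) / 2 * (a + I * b)) * hcs
    + ((p.1 : ℂ) / 2 * (-(b * (Real.cos p.2 : ℂ) * (Real.sin p.2 : ℂ))
      + a * (Real.sin p.2 : ℂ) ^ 2)) * I_mul_I

lemma continuous_AA {g : ℂ → ℂ} (hg : Test g) (z : ℂ) : Continuous (AA g z) := by
  have h1 : Continuous (fderiv ℝ g) := hg.1.continuous_fderiv (by simp)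
  have h2 : Continuous (fun p : ℝ × ℝ => ee p.2) := continuous_ee.comp continuous_snd
  have h3 : Continuous (fun p : ℝ × ℝ => z + (p.1 : ℂ) * ee p.2) := by fun_prop
  exact (h1.comp h3).clm_apply h2

lemma continuous_BB {g : ℂ → ℂ} (hg : Test g) (z : ℂ) : Continuous (BB g z) := by
  have h1 : Continuous (fderiv ℝ g) := hg.1.continuous_fderiv (by simp)
  have h2 : Continuous (fun p : ℝ × ℝ => ee p.2) := continuous_ee.comp continuous_snd
  have h3 : Continuous (fun p : ℝ × ℝ => z + (p.1 : ℂ) * ee p.2) := by fun_prop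
  exact (h1.comp h3).clm_apply (continuous_const.mul h2)

lemma exists_bound {g : ℂ → ℂ} (hg : Test g) (z : ℂ) : ∃ M : ℝ, 0 < M ∧
    ∀ (r t : ℝ), M < |r| → g (z + r * ee t) = 0 ∧ fderiv ℝ g (z + r * ee t) = 0 := by
  obtain ⟨M, hM⟩ := (hg.2.isCompact.isBounded).subset_closedBall (0 : ℂ)
  refine ⟨max M 0 + ‖z‖ + 1, by positivity, ?_⟩
  intro r t hr
  have hnot : z + r * ee t ∉ tsupport g := by
    intro h
    have h1 := hM h
    rw [mem_closedBall, dist_zero_right] at h1
    have h2 : ‖(r : ℂ) * ee t‖ = |r| := by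
      rw [norm_mul, norm_ee, mul_one, Complex.norm_real, Real.norm_eq_abs]
    have h3 : ‖(r : ℂ) * ee t‖ ≤ ‖z + r * ee t‖ + ‖z‖ := by
      have := norm_sub_le (z + r * ee t) z
      simpa using this
    have h4 : M ≤ max M 0 := le_max_left _ _
    linarith
  refine ⟨image_eq_zero_of_notMem_tsupport hnot, ?_⟩
  exact image_eq_zero_of_notMem_tsupport (fun h => hnot (tsupport_fderiv_subset ℝ h))

lemma integrableOn_target {F : ℝ × ℝ → ℂ} (hF : Continuous F) {M : ℝ}
    (h0 : ∀ p : ℝ × ℝ, M < |p.1| → F p = 0) :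
    IntegrableOn F (Ioi (0 : ℝ) ×ˢ Ioo (-Real.pi) Real.pi) := by
  have hK : IsCompact (Icc (0 : ℝ) M ×ˢ Icc (-Real.pi) Real.pi) := isCompact_Icc.prod isCompact_Icc
  have h1 : IntegrableOn F (Icc (0 : ℝ) M ×ˢ Icc (-Real.pi) Real.pi) :=
    hF.continuousOn.integrableOn_compact hK
  refine h1.of_forall_sdiff_eq_zero (measurableSet_Ioi.prod measurableSet_Ioo) ?_
  rintro ⟨r, t⟩ ⟨⟨hr, ht⟩, hn⟩
  apply h0
  simp only [mem_Ioi] at hr
  rw [abs_of_pos hr]
  by_contra hle
  exact hn ⟨⟨hr.le, not_lt.1 hle⟩, Ioo_subset_Icc_self ht⟩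

lemma radial {g : ℂ → ℂ} (hg : Test g) (z : ℂ) (t : ℝ) :
    ∫ r in Ioi (0 : ℝ), AA g z (r, t) = -g z := by
  obtain ⟨M, hM, hM'⟩ := exists_bound hg z
  have hd : ∀ r : ℝ, HasDerivAt (fun r : ℝ => g (z + r * ee t)) (AA g z (r, t)) r := by
    intro r
    have h1 : HasDerivAt (fun r : ℝ => z + (r : ℂ) * ee t) (ee t) r := by
      have := ((hasDerivAt_id r).ofReal_comp.mul_const (ee t)).const_add z
      simpa using this
    have h2 : HasFDerivAt g (fderiv ℝ g (z + r * ee t)) (z + r * ee t) :=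
      (hg.1.differentiable (by simp) _).hasFDerivAt
    exact h2.comp_hasDerivAt r h1
  have hfun : (fun r : ℝ => AA g z (r, t)) = deriv (fun r : ℝ => g (z + r * ee t)) := by
    funext r
    exact (hd r).deriv.symm
  have hc : ContDiff ℝ 1 (fun r : ℝ => g (z + r * ee t)) := by
    have h1 : ContDiff ℝ 1 g := hg.1.of_le (by exact_mod_cast le_top)
    refine h1.comp ?_
    exact contDiff_const.add (Complex.ofRealCLM.contDiff.mul contDiff_const)
  have hs : HasCompactSupport (fun r : ℝ => g (z + r * ee t)) := by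
    refine HasCompactSupport.intro (isCompact_Icc (a := -M) (b := M)) ?_
    intro r hr
    refine (hM' r t ?_).1
    by_contra h
    exact hr (abs_le.1 (not_lt.1 h))
  have := hs.integral_Ioi_deriv_eq hc 0
  rw [← hfun] at this
  rw [this]
  simp

lemma angular {g : ℂ → ℂ} (hg : Test g) (z : ℂ) (r : ℝ) (hr : r ≠ 0) :
    ∫ t in Ioo (-Real.pi) Real.pi, BB g z (r, t) = 0 := by
  rw [← integral_Ioc_eq_integral_Ioo,
    ← intervalIntegral.integral_of_le (by linarith [Real.pi_pos])]
  have hrc : (r : ℂ) ≠ 0 := by exact_mod_cast hr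
  have hd : ∀ t : ℝ, HasDerivAt (fun t : ℝ => (r : ℂ)⁻¹ * g (z + r * ee t)) (BB g z (r, t)) t := by
    intro t
    have h1 : HasDerivAt (fun t : ℝ => z + (r : ℂ) * ee t) ((r : ℂ) * (I * ee t)) t :=
      ((hasDerivAt_ee t).const_mul (r : ℂ)).const_add z
    have h2 : HasFDerivAt g (fderiv ℝ g (z + r * ee t)) (z + r * ee t) :=
      (hg.1.differentiable (by simp) _).hasFDerivAt
    have h3 := (h2.comp_hasDerivAt t h1).const_mul ((r : ℂ)⁻¹)
    have h4 : (r : ℂ)⁻¹ * (fderiv ℝ g (z + r * ee t)) ((r : ℂ) * (I * ee t)) = BB g z (r, t) := by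
      have : (r : ℂ) * (I * ee t) = r • (I * ee t) := by rw [Complex.real_smul]
      rw [this, map_smul, Complex.real_smul, ← mul_assoc, inv_mul_cancel₀ hrc, one_mul, BB]
    rw [h4] at h3
    exact h3
  have hcont : Continuous (fun t : ℝ => BB g z (r, t)) :=
    (continuous_BB hg z).comp (by fun_prop)
  rw [intervalIntegral.integral_eq_sub_of_hasDerivAt (fun t _ => hd t)
    (hcont.intervalIntegrable _ _)]
  have e1 : ee Real.pi = ee (-Real.pi) := by simp [ee]
  rw [e1, sub_self]

end CauAux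

theorem specCauDb : SpecCauDb := by
  intro g hg z
  obtain ⟨M, hM, hM'⟩ := exists_bound hg z
  have hA : IntegrableOn (AA g z) (Ioi (0 : ℝ) ×ˢ Ioo (-Real.pi) Real.pi) := by
    refine integrableOn_target (continuous_AA hg z) (M := M) ?_
    intro p hp
    rw [AA, (hM' p.1 p.2 hp).2]
    simp
  have hB : IntegrableOn (BB g z) (Ioi (0 : ℝ) ×ˢ Ioo (-Real.pi) Real.pi) := by
    refine integrableOn_target (continuous_BB hg z) (M := M) ?_
    intro p hp
    rw [BB, (hM' p.1 p.2 hp).2]
    simp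
  have hAi : ∫ p in Ioi (0 : ℝ) ×ˢ Ioo (-Real.pi) Real.pi, AA g z p = -(2 * Real.pi) * g z := by
    rw [Measure.volume_eq_prod, ← Measure.prod_restrict, integral_prod_symm]
    · simp_rw [radial hg z]
      rw [setIntegral_const, Measure.real, Real.volume_Ioo, ENNReal.toReal_ofReal
        (by linarith [Real.pi_pos]), Complex.real_smul]
      push_cast
      ring
    · rw [Measure.prod_restrict, ← Measure.volume_eq_prod]
      exact hA
  have hBi : ∫ p in Ioi (0 : ℝ) ×ˢ Ioo (-Real.pi) Real.pi, BB g z p = 0 := by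
    rw [Measure.volume_eq_prod, setIntegral_prod _ (by rw [← Measure.volume_eq_prod]; exact hB)]
    rw [setIntegral_congr_fun measurableSet_Ioi
      (fun r hr => angular hg z r (ne_of_gt hr))]
    simp
  have h1 : ∫ u, db g (z + u) / u = -Real.pi * g z := by
    rw [← Complex.integral_comp_polarCoord_symm]
    have htar : polarCoord.target = Ioi (0 : ℝ) ×ˢ Ioo (-Real.pi) Real.pi := rfl
    rw [htar, setIntegral_congr_fun (measurableSet_Ioi.prod measurableSet_Ioo)
      (fun p hp => integrand_eq g z p hp.1)]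
    have h2 : ∫ p in Ioi (0 : ℝ) ×ˢ Ioo (-Real.pi) Real.pi, (AA g z p + I * BB g z p) / 2
        = (∫ p in Ioi (0 : ℝ) ×ˢ Ioo (-Real.pi) Real.pi, (AA g z p + I * BB g z p)) / 2 :=
      integral_div _ _
    rw [h2, integral_add hA (hB.const_mul I), integral_const_mul, hAi, hBi]
    ring
  have h3 : ∫ w, db g w / (z - w) = Real.pi * g z := by
    rw [← integral_add_left_eq_self (fun w => db g w / (z - w)) z]
    have h4 : ∀ u : ℂ, db g (z + u) / (z - (z + u)) = -(db g (z + u) / u) := by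
      intro u
      rw [sub_add_cancel_left, div_neg]
    simp_rw [h4]
    rw [integral_neg, h1]
    ring
  rw [Cau, h3]
  have : (Real.pi : ℂ) ≠ 0 := by exact_mod_cast Real.pi_pos.ne'
  field_simp

/-! ### Derivatives of the Cauchy transform -/

namespace CauAux

lemma integrable_integrand {g : ℂ → ℂ} (hg : Continuous g) (hs : HasCompactSupport g) (z : ℂ) :
    Integrable (fun w => g w / (z - w)) := by
  have h := hs.convolutionExists_right (ContinuousLinearMap.mul ℝ ℂ) locallyIntegrable_inv hg z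
  have h1 : Integrable (fun u : ℂ => g (z - u) / u) := by
    refine h.integrable.congr (Eventually.of_forall fun u => ?_)
    simp only [ContinuousLinearMap.mul_apply']
    rw [div_eq_mul_inv, mul_comm]
  have h2 := h1.comp_sub_left z
  refine h2.congr (Eventually.of_forall fun u => ?_)
  simp only [sub_sub_cancel]

lemma cau_lin {g h : ℂ → ℂ} (hg : Test g) (hh : Test h) (c : ℂ) (z : ℂ) :
    Cau (fun w => (g w + c * h w) / 2) z = (Cau g z + c * Cau h z) / 2 := by
  have ig := integrable_integrand hg.1.continuous hg.2 z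
  have ih := integrable_integrand hh.1.continuous hh.2 z
  rw [Cau, Cau, Cau]
  have h1 : ∫ w, (g w + c * h w) / 2 / (z - w)
      = ((∫ w, g w / (z - w)) + c * ∫ w, h w / (z - w)) / 2 := by
    rw [← integral_const_mul, ← integral_add ig (ih.const_mul c), ← integral_div]
    refine integral_congr_ae (Eventually.of_forall fun w => ?_)
    simp only [div_eq_mul_inv]
    ring
  rw [h1]
  ring

end CauAux

/-- the integrand of the Cauchy transform of a test function is integrable -/
theorem Test.integrable_cau {g : ℂ → ℂ} (hg : Test g) (z : ℂ) :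
    Integrable (fun w => g w / (z - w)) :=
  integrable_integrand hg.1.continuous hg.2 z

/-- linearity of the Cauchy transform, general version: it is enough that the integrands are
integrable at the point `z` -/
theorem cau_add' {g h : ℂ → ℂ} {z : ℂ} (hg : Integrable (fun w => g w / (z - w)))
    (hh : Integrable (fun w => h w / (z - w))) :
    Cau (fun w => g w + h w) z = Cau g z + Cau h z := by
  rw [Cau, Cau, Cau, ← mul_add, ← integral_add hg hh]
  congr 1
  refine integral_congr_ae (Eventually.of_forall fun w => ?_)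
  simp only [add_div]

theorem cau_sub' {g h : ℂ → ℂ} {z : ℂ} (hg : Integrable (fun w => g w / (z - w)))
    (hh : Integrable (fun w => h w / (z - w))) :
    Cau (fun w => g w - h w) z = Cau g z - Cau h z := by
  rw [Cau, Cau, Cau, ← mul_sub, ← integral_sub hg hh]
  congr 1
  refine integral_congr_ae (Eventually.of_forall fun w => ?_)
  simp only [sub_div]

theorem cau_add {g h : ℂ → ℂ} (hg : Test g) (hh : Test h) (z : ℂ) :
    Cau (fun w => g w + h w) z = Cau g z + Cau h z :=
  cau_add' (hg.integrable_cau z) (hh.integrable_cau z)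

theorem cau_sub {g h : ℂ → ℂ} (hg : Test g) (hh : Test h) (z : ℂ) :
    Cau (fun w => g w - h w) z = Cau g z - Cau h z :=
  cau_sub' (hg.integrable_cau z) (hh.integrable_cau z)

theorem cau_const_mul (c : ℂ) (g : ℂ → ℂ) (z : ℂ) :
    Cau (fun w => c * g w) z = c * Cau g z := by
  rw [Cau, Cau, mul_left_comm]
  congr 1
  rw [← integral_const_mul]
  refine integral_congr_ae (Eventually.of_forall fun w => ?_)
  simp only [mul_div_assoc]

theorem cau_neg (g : ℂ → ℂ) (z : ℂ) : Cau (fun w => -g w) z = -Cau g z := by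
  have := cau_const_mul (-1) g z
  simpa using this

/-- the partial derivatives of the Cauchy transform -/
theorem Test.fderiv_cau {g : ℂ → ℂ} (hg : Test g) (z v : ℂ) :
    fderiv ℝ (Cau g) z v = Cau (fun w => fderiv ℝ g w v) z :=
  CauAux.fderiv_cau hg z v

theorem specDzCau : SpecDzCau := by
  intro g hg z
  rw [dz, fderiv_cau hg, fderiv_cau hg]
  have := cau_lin (test_fderiv hg 1) (test_fderiv hg I) (-I) z
  have h2 : dz g = fun w => (fderiv ℝ g w 1 + -I * fderiv ℝ g w I) / 2 := by
    funext w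
    rw [dz]
    ring
  rw [h2, this]
  ring

/-- `∂̄ C g = C ∂̄ g` -/
theorem dbCau_comm {g : ℂ → ℂ} (hg : Test g) (z : ℂ) : db (Cau g) z = Cau (db g) z := by
  rw [db, fderiv_cau hg, fderiv_cau hg]
  have := cau_lin (test_fderiv hg 1) (test_fderiv hg I) I z
  have h2 : db g = fun w => (fderiv ℝ g w 1 + I * fderiv ℝ g w I) / 2 := by
    funext w
    rw [db]
  rw [h2, this]

theorem specDbCau : SpecDbCau := by
  intro g hg z
  rw [dbCau_comm hg, specCauDb g hg]

theorem test_dz {g : ℂ → ℂ} (hg : Test g) : Test (dz g) := by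
  have h1 := test_fderiv hg 1
  have h2 := test_fderiv hg I
  refine ⟨(h1.1.sub (contDiff_const.mul h2.1)).div_const 2, ?_⟩
  have h3 : HasCompactSupport (fun w => fderiv ℝ g w 1 - I * fderiv ℝ g w I) :=
    h1.2.sub (h2.2.mul_left (f := fun _ => I))
  have h4 := h3.mul_right (f' := fun _ => (2 : ℂ)⁻¹)
  have h5 : dz g = (fun w => fderiv ℝ g w 1 - I * fderiv ℝ g w I) * fun _ => (2 : ℂ)⁻¹ := by
    funext w
    simp only [dz, div_eq_mul_inv, Pi.mul_apply]
  rw [h5]
  exact h4

theorem test_db {g : ℂ → ℂ} (hg : Test g) : Test (db g) := by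
  have h1 := test_fderiv hg 1
  have h2 := test_fderiv hg I
  refine ⟨(h1.1.add (contDiff_const.mul h2.1)).div_const 2, ?_⟩
  have h3 : HasCompactSupport (fun w => fderiv ℝ g w 1 + I * fderiv ℝ g w I) :=
    h1.2.add (h2.2.mul_left (f := fun _ => I))
  have h4 := h3.mul_right (f' := fun _ => (2 : ℂ)⁻¹)
  have h5 : db g = (fun w => fderiv ℝ g w 1 + I * fderiv ℝ g w I) * fun _ => (2 : ℂ)⁻¹ := by
    funext w
    simp only [db, div_eq_mul_inv, Pi.mul_apply]
  rw [h5]
  exact h4

/-! ### Decay -/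

theorem specCauDecay : SpecCauDecay := by
  intro g hg
  obtain ⟨M, hM⟩ := (hg.2.isCompact.isBounded).subset_closedBall (0 : ℂ)
  set R : ℝ := max M 0 with hR
  have hR0 : 0 ≤ R := le_max_right _ _
  have hsupp : ∀ w, g w ≠ 0 → ‖w‖ ≤ R := by
    intro w hw
    have := hM (subset_tsupport g hw)
    rw [mem_closedBall, dist_zero_right] at this
    exact this.trans (le_max_left _ _)
  have hcont : Continuous (Cau g) := (specCauSmooth g hg).continuous
  obtain ⟨B, hB⟩ := (isCompact_closedBall (0 : ℂ) (2 * R + 1)).exists_bound_of_continuousOn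
    hcont.continuousOn
  have hgi : Integrable g := hg.1.continuous.integrable_of_hasCompactSupport hg.2
  set J : ℝ := ∫ w, ‖g w‖ with hJ
  have hJ0 : 0 ≤ J := integral_nonneg fun w => norm_nonneg _
  refine ⟨max B 0 * (2 * R + 2) + 4 * J, ?_⟩
  intro z
  have hz1 : 0 < 1 + ‖z‖ := by positivity
  rw [le_div_iff₀ hz1]
  rcases le_or_gt ‖z‖ (2 * R + 1) with hz | hz
  · have h1 : ‖Cau g z‖ ≤ max B 0 := (hB z (by simpa using hz)).trans (le_max_left _ _)
    calc ‖Cau g z‖ * (1 + ‖z‖) ≤ max B 0 * (2 * R + 2) := by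
          apply mul_le_mul h1 (by linarith) (by positivity) (le_max_right _ _)
      _ ≤ _ := by linarith
  · have hzpos : 0 < ‖z‖ := by linarith
    have h1 : ‖∫ w, g w / (z - w)‖ ≤ ∫ w, ‖g w‖ * (2 / ‖z‖) := by
      refine norm_integral_le_of_norm_le (hgi.norm.mul_const _) ?_
      refine Eventually.of_forall fun w => ?_
      by_cases hw : g w = 0
      · simp [hw]
      · have h2 : ‖w‖ ≤ R := hsupp w hw
        have h3 : ‖z‖ / 2 ≤ ‖z - w‖ := by
          have := norm_sub_norm_le z w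
          linarith
        rw [norm_div, div_eq_mul_inv]
        refine mul_le_mul_of_nonneg_left ?_ (norm_nonneg _)
        rw [show (2 : ℝ) / ‖z‖ = (‖z‖ / 2)⁻¹ by rw [inv_div]]
        exact inv_anti₀ (by positivity) h3
    rw [integral_mul_const] at h1
    have h4 : ‖Cau g z‖ ≤ Real.pi⁻¹ * (J * (2 / ‖z‖)) := by
      rw [Cau, norm_mul, norm_inv, Complex.norm_real, Real.norm_of_nonneg Real.pi_pos.le]
      exact mul_le_mul_of_nonneg_left h1 (by positivity)
    have h5 : Real.pi⁻¹ ≤ 1 := by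
      rw [inv_le_one₀ Real.pi_pos]
      linarith [Real.pi_gt_three]
    have h6 : ‖Cau g z‖ ≤ J * (2 / ‖z‖) := by
      refine h4.trans ?_
      calc Real.pi⁻¹ * (J * (2 / ‖z‖)) ≤ 1 * (J * (2 / ‖z‖)) :=
            mul_le_mul_of_nonneg_right h5 (by positivity)
        _ = _ := one_mul _
    have h7 : 1 + ‖z‖ ≤ 2 * ‖z‖ := by linarith
    have h8 : 0 ≤ max B 0 * (2 * R + 2) := by positivity
    calc ‖Cau g z‖ * (1 + ‖z‖) ≤ J * (2 / ‖z‖) * (2 * ‖z‖) := by
          apply mul_le_mul h6 h7 hz1.le (by positivity)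
      _ = 4 * J := by field_simp; norm_num
      _ ≤ _ := by linarith

/-! ### Duality -/

theorem specCauDual : SpecCauDual := by
  intro g θ hg hθ
  obtain ⟨M, hM⟩ := (hθ.2.isCompact.isBounded).subset_ball_lt 0 (0 : ℂ)
  obtain ⟨hM0, hM⟩ := hM
  have hgi : Integrable g := hg.1.continuous.integrable_of_hasCompactSupport hg.2
  obtain ⟨B, hB⟩ := hθ.2.exists_bound_of_continuous hθ.1.continuous
  have hk := integrable_kernel hgi M
  have hzero : ∀ z, z ∉ ball (0 : ℂ) M → θ z = 0 := by
    intro z hz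
    exact image_eq_zero_of_notMem_tsupport fun h => hz (hM h)
  have hk2 : Integrable (fun p : ℂ × ℂ => θ p.1 * (g p.2 / (p.1 - p.2)))
      ((volume.restrict (ball (0 : ℂ) M)).prod volume) := by
    refine hk.bdd_mul (c := B) ?_ ?_
    · exact (hθ.1.continuous.comp continuous_fst).aestronglyMeasurable
    · exact Eventually.of_forall fun p => hB p.1
  have hL : ∫ z, θ z * Cau g z
      = (Real.pi : ℂ)⁻¹ * ∫ z in ball (0 : ℂ) M, ∫ w, θ z * (g w / (z - w)) := by
    rw [← setIntegral_eq_integral_of_forall_compl_eq_zero (s := ball (0 : ℂ) M)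
      (fun z hz => by rw [hzero z hz, zero_mul]), ← integral_const_mul]
    refine integral_congr_ae (Eventually.of_forall fun z => ?_)
    simp only [Cau]
    rw [integral_const_mul]
    ring
  have hRr : ∫ z, Cau θ z * g z
      = (Real.pi : ℂ)⁻¹ * ∫ w, ∫ z in ball (0 : ℂ) M, -(θ z * (g w / (z - w))) := by
    rw [← integral_const_mul]
    refine integral_congr_ae (Eventually.of_forall fun w => ?_)
    simp only [Cau]
    rw [mul_assoc, mul_comm (∫ _, _) (g w),
      ← setIntegral_eq_integral_of_forall_compl_eq_zero (s := ball (0 : ℂ) M)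
      (fun z hz => by rw [hzero z hz, zero_div]), ← integral_const_mul]
    congr 1
    refine integral_congr_ae (Eventually.of_forall fun z => ?_)
    simp only
    rw [← neg_sub z w, div_neg]
    ring
  rw [hL, hRr]
  simp_rw [integral_neg]
  rw [integral_integral_swap hk2]
  ring

end Pool.Agent.Lib.MP_1707ab_an
end

section
/-!
Problem MP_1707ab_an, module WEAK-CZ, part 1: the Beurling transform on test functions, linearity,
the kernel away from the support, and the Hörmander condition.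
-/
set_option autoImplicit false

open MeasureTheory Complex Set Filter Topology Metric
open scoped ContDiff Convolution ENNReal

namespace Pool.Agent.Lib.MP_1707ab_an

namespace CZ

open CauAux

/-- the Beurling transform -/
noncomputable def Beu (f : ℂ → ℂ) (z : ℂ) : ℂ := Cau (dz f) z

lemma continuous_Beu {f : ℂ → ℂ} (hf : Test f) : Continuous (Beu f) :=
  (specCauSmooth _ hf.dz).continuous

lemma Beu_add {f g : ℂ → ℂ} (hf : Test f) (hg : Test g) (z : ℂ) :
    Beu (fun w => f w + g w) z = Beu f z + Beu g z := by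
  have h1 : dz (fun w => f w + g w) = fun w => dz f w + dz g w := by
    funext w
    exact dz_add (hf.differentiable w) (hg.differentiable w)
  have i1 := integrable_integrand hf.dz.continuous hf.dz.2 z
  have i2 := integrable_integrand hg.dz.continuous hg.dz.2 z
  rw [Beu, Beu, Beu, h1, Cau, Cau, Cau, ← mul_add, ← integral_add i1 i2]
  congr 1
  refine integral_congr_ae (Eventually.of_forall fun w => ?_)
  simp only
  rw [add_div]

lemma test_zero : Test (fun _ : ℂ => (0 : ℂ)) := by
  refine ⟨contDiff_const, ?_⟩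
  exact HasCompactSupport.zero

lemma Beu_zero (z : ℂ) : Beu (fun _ => 0) z = 0 := by
  have h1 : dz (fun _ : ℂ => (0 : ℂ)) = fun _ => 0 := by
    funext w
    exact dz_const 0
  rw [Beu, h1, Cau]
  simp

lemma test_sum {ι : Type} (s : Finset ι) {b : ι → ℂ → ℂ} (hb : ∀ i ∈ s, Test (b i)) :
    Test (fun w => ∑ i ∈ s, b i w) := by
  classical
  induction s using Finset.induction_on with
  | empty => simpa using test_zero
  | insert i s hi ih =>
    simp only [Finset.sum_insert hi]
    exact (hb i (Finset.mem_insert_self _ _)).add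
      (ih fun j hj => hb j (Finset.mem_insert_of_mem hj))

lemma Beu_sum {ι : Type} (s : Finset ι) {b : ι → ℂ → ℂ} (hb : ∀ i ∈ s, Test (b i)) (z : ℂ) :
    Beu (fun w => ∑ i ∈ s, b i w) z = ∑ i ∈ s, Beu (b i) z := by
  classical
  induction s using Finset.induction_on with
  | empty => simpa using Beu_zero z
  | insert i s hi ih =>
    simp only [Finset.sum_insert hi]
    rw [Beu_add (hb i (Finset.mem_insert_self _ _))
      (test_sum s fun j hj => hb j (Finset.mem_insert_of_mem hj)),
      ih fun j hj => hb j (Finset.mem_insert_of_mem hj)]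

/-- the kernel away from the support -/
lemma Beu_off {b : ℂ → ℂ} (hb : Test b) {z : ℂ} (hz : z ∉ tsupport b) :
    Beu b z = -(Real.pi : ℂ)⁻¹ * ∫ w, ((z - w) ^ 2)⁻¹ * b w := by
  have hU : IsOpen ({z}ᶜ : Set ℂ) := isOpen_compl_singleton
  have hd : ∀ w ∈ ({z}ᶜ : Set ℂ), HasDerivAt (fun w : ℂ => (z - w)⁻¹) (((z - w) ^ 2)⁻¹) w := by
    intro w hw
    have hw' : z - w ≠ 0 := sub_ne_zero.2 fun h => hw h.symm
    have h1 : HasDerivAt (fun w : ℂ => z - w) (-1) w := by
      simpa using (hasDerivAt_id w).const_sub z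
    have h2 := h1.inv hw'
    rw [neg_neg, one_div] at h2
    exact h2
  have hsm : ContDiffOn ℝ ∞ (fun w : ℂ => (z - w)⁻¹) {z}ᶜ := by
    refine ContDiffOn.inv (contDiffOn_const.sub contDiffOn_id) ?_
    intro w hw
    exact sub_ne_zero.2 fun h => hw h.symm
  have hs : tsupport b ⊆ ({z}ᶜ : Set ℂ) := by
    intro w hw h
    rw [mem_singleton_iff] at h
    exact hz (h ▸ hw)
  have h1 := Test.integral_mul_dz hU hsm hb hs
  have h2 : ∫ w, dz b w / (z - w) = -∫ w, ((z - w) ^ 2)⁻¹ * b w := by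
    have e1 : ∫ w, dz b w / (z - w) = ∫ w, (z - w)⁻¹ * dz b w := by
      refine integral_congr_ae (Eventually.of_forall fun w => ?_)
      simp only
      rw [div_eq_mul_inv, mul_comm]
    rw [e1, h1]
    congr 1
    refine integral_congr_ae (Eventually.of_forall fun w => ?_)
    simp only
    by_cases hw : b w = 0
    · rw [hw, mul_zero, mul_zero]
    · have hw' : w ∈ ({z}ᶜ : Set ℂ) := hs (subset_tsupport b hw)
      rw [dz_eq_deriv (hd w hw').differentiableAt, (hd w hw').deriv]
  rw [Beu, Cau, h2]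
  ring

/-- pointwise bound for functions of mean zero -/
lemma Beu_bound {b : ℂ → ℂ} (hb : Test b) {c : ℂ} {r : ℝ} (hr : 0 < r)
    (hsupp : ∀ w, w ∉ closedBall c r → b w = 0) (hint : ∫ w, b w = 0) {z : ℂ}
    (hz : 2 * r ≤ ‖z - c‖) : ‖Beu b z‖ ≤ 4 * r * (∫ w, ‖b w‖) * (‖z - c‖ ^ 3)⁻¹ := by
  have hts : tsupport b ⊆ closedBall c r := by
    refine closure_minimal ?_ isClosed_closedBall
    intro w hw
    by_contra h
    exact hw (hsupp w h)
  have hzs : z ∉ tsupport b := by
    intro h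
    have := hts h
    rw [mem_closedBall, dist_eq_norm] at this
    linarith
  have hzc : 0 < ‖z - c‖ := by linarith
  have hzc' : z - c ≠ 0 := norm_pos_iff.1 hzc
  rw [Beu_off hb hzs]
  -- subtract the constant
  have i0 : Integrable b := hb.integrable
  have hbd : ∀ w, ‖((z - w) ^ 2)⁻¹ * b w - ((z - c) ^ 2)⁻¹ * b w‖
      ≤ 10 * r * (‖z - c‖ ^ 3)⁻¹ * ‖b w‖ := by
    intro w
    by_cases hw : w ∈ closedBall c r
    · rw [mem_closedBall, dist_eq_norm] at hw
      rw [← sub_mul, norm_mul]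
      refine mul_le_mul_of_nonneg_right ?_ (norm_nonneg _)
      have h1 : ‖z - c‖ / 2 ≤ ‖z - w‖ := by
        have : ‖z - c‖ ≤ ‖z - w‖ + ‖w - c‖ := by
          calc ‖z - c‖ = ‖(z - w) + (w - c)‖ := by congr 1; ring
            _ ≤ _ := norm_add_le _ _
        linarith
      have h2 : ‖z - w‖ ≤ 3 / 2 * ‖z - c‖ := by
        have : ‖z - w‖ ≤ ‖z - c‖ + ‖w - c‖ := by
          calc ‖z - w‖ = ‖(z - c) - (w - c)‖ := by congr 1; ring
            _ ≤ _ := norm_sub_le _ _
        linarith
      have hzw : 0 < ‖z - w‖ := by linarith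
      have hzw' : z - w ≠ 0 := norm_pos_iff.1 hzw
      have h3 : ((z - w) ^ 2)⁻¹ - ((z - c) ^ 2)⁻¹
          = (w - c) * ((z - c) + (z - w)) / ((z - w) ^ 2 * (z - c) ^ 2) := by
        field_simp
        ring
      rw [h3, norm_div, norm_mul, norm_mul, norm_pow, norm_pow]
      have h4 : ‖(z - c) + (z - w)‖ ≤ 5 / 2 * ‖z - c‖ := by
        refine (norm_add_le _ _).trans ?_
        linarith
      rw [div_le_iff₀ (by positivity)]
      have h5 : (‖z - c‖ / 2) ^ 2 ≤ ‖z - w‖ ^ 2 := by gcongr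
      calc ‖w - c‖ * ‖z - c + (z - w)‖ ≤ r * (5 / 2 * ‖z - c‖) := by gcongr
        _ = 10 * r * (‖z - c‖ ^ 3)⁻¹ * ((‖z - c‖ / 2) ^ 2 * ‖z - c‖ ^ 2) := by
            field_simp
            norm_num
        _ ≤ 10 * r * (‖z - c‖ ^ 3)⁻¹ * (‖z - w‖ ^ 2 * ‖z - c‖ ^ 2) := by gcongr
    · rw [hsupp w hw]
      simp
  have i1 : Integrable (fun w => 10 * r * (‖z - c‖ ^ 3)⁻¹ * ‖b w‖) := i0.norm.const_mul _
  have i2 : Integrable (fun w => ((z - c) ^ 2)⁻¹ * b w) := i0.const_mul _
  have hm : AEStronglyMeasurable (fun w => ((z - w) ^ 2)⁻¹ * b w - ((z - c) ^ 2)⁻¹ * b w)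
      volume := by
    refine AEStronglyMeasurable.sub ?_ i2.1
    refine AEStronglyMeasurable.mul ?_ i0.1
    have : Measurable fun w : ℂ => ((z - w) ^ 2)⁻¹ := by fun_prop
    exact this.aestronglyMeasurable
  have i3 : Integrable (fun w => ((z - w) ^ 2)⁻¹ * b w - ((z - c) ^ 2)⁻¹ * b w) :=
    i1.mono' hm (Eventually.of_forall hbd)
  have e1 : ∫ w, ((z - w) ^ 2)⁻¹ * b w
      = ∫ w, (((z - w) ^ 2)⁻¹ * b w - ((z - c) ^ 2)⁻¹ * b w) := by
    have h6 : (fun w => ((z - w) ^ 2)⁻¹ * b w)
        = fun w => (((z - w) ^ 2)⁻¹ * b w - ((z - c) ^ 2)⁻¹ * b w) + ((z - c) ^ 2)⁻¹ * b w := by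
      funext w
      ring
    conv_lhs => rw [h6]
    rw [integral_add i3 i2, integral_const_mul, hint, mul_zero, add_zero]
  rw [e1, norm_mul, norm_neg, norm_inv, Complex.norm_real, Real.norm_of_nonneg Real.pi_pos.le]
  have h7 : ‖∫ w, (((z - w) ^ 2)⁻¹ * b w - ((z - c) ^ 2)⁻¹ * b w)‖
      ≤ ∫ w, 10 * r * (‖z - c‖ ^ 3)⁻¹ * ‖b w‖ :=
    norm_integral_le_of_norm_le i1 (Eventually.of_forall hbd)
  rw [integral_const_mul] at h7
  have hI : 0 ≤ ∫ w, ‖b w‖ := integral_nonneg fun _ => norm_nonneg _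
  have hpi : Real.pi⁻¹ * 10 ≤ 4 := by
    rw [inv_mul_le_iff₀ Real.pi_pos]
    linarith [Real.pi_gt_three]
  calc Real.pi⁻¹ * ‖∫ w, (((z - w) ^ 2)⁻¹ * b w - ((z - c) ^ 2)⁻¹ * b w)‖
      ≤ Real.pi⁻¹ * (10 * r * (‖z - c‖ ^ 3)⁻¹ * ∫ w, ‖b w‖) := by gcongr
    _ = (Real.pi⁻¹ * 10) * (r * (∫ w, ‖b w‖) * (‖z - c‖ ^ 3)⁻¹) := by ring
    _ ≤ 4 * (r * (∫ w, ‖b w‖) * (‖z - c‖ ^ 3)⁻¹) := by gcongr
    _ = _ := by ring

/-- the integral of the kernel `|z|^-3` off a disc -/
lemma kernel3 {s : ℝ} (hs : 0 < s) :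
    Integrable ((ball (0 : ℂ) s)ᶜ.indicator fun z : ℂ => (‖z‖ ^ 3)⁻¹) ∧
    ∫ z, (ball (0 : ℂ) s)ᶜ.indicator (fun z : ℂ => (‖z‖ ^ 3)⁻¹) z = 2 * Real.pi / s := by
  have h1 : ((ball (0 : ℂ) s)ᶜ.indicator fun z : ℂ => (‖z‖ ^ 3)⁻¹)
      = fun z : ℂ => (indicator (Ici s) (fun r : ℝ => (r ^ 3)⁻¹)) ‖z‖ := by
    funext z
    simp [indicator]
  have h3 : ∀ y ∈ Ioi (0 : ℝ), y ^ (2 - 1) • (indicator (Ici s) (fun r : ℝ => (r ^ 3)⁻¹)) y
      = indicator (Ici s) (fun y => y ^ (-2 : ℝ)) y := by
    intro y hy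
    have hy0 : 0 < y := hy
    by_cases h : s ≤ y
    · have hy' : y ≠ 0 := hy0.ne'
      simp only [indicator, mem_Ici, h, if_true, smul_eq_mul]
      rw [Real.rpow_neg hy0.le, show (2 : ℝ) = ((2 : ℕ) : ℝ) by norm_num, Real.rpow_natCast]
      field_simp
      norm_num
    · simp [indicator, h]
  have h4 : IntegrableOn (fun y : ℝ => y ^ (-2 : ℝ)) (Ioi s) :=
    integrableOn_Ioi_rpow_of_lt (by norm_num) hs
  have h4' : IntegrableOn (fun y : ℝ => y ^ (-2 : ℝ)) (Ici s) := by
    rwa [integrableOn_Ici_iff_integrableOn_Ioi]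
  have h5 : ∫ y in Ioi s, y ^ (-2 : ℝ) = 1 / s := by
    rw [integral_Ioi_rpow_of_lt (by norm_num) hs]
    rw [show (-2 : ℝ) + 1 = -1 by norm_num, Real.rpow_neg_one]
    simp
  have hsub : Ici s ⊆ Ioi (0 : ℝ) := fun y hy => hs.trans_le hy
  constructor
  · rw [h1]
    refine (integrable_fun_norm_addHaar (E := ℂ) (F := ℝ) volume).2 ?_
    rw [Complex.finrank_real_complex]
    have h6 : IntegrableOn (indicator (Ici s) fun y => y ^ (-2 : ℝ)) (Ioi (0 : ℝ)) := by
      have h7 : Integrable (indicator (Ici s) fun y : ℝ => y ^ (-2 : ℝ)) :=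
        (integrable_indicator_iff measurableSet_Ici).2 h4'
      exact h7.integrableOn
    exact h6.congr_fun (fun y hy => (h3 y hy).symm) measurableSet_Ioi
  · rw [h1, integral_fun_norm_addHaar (μ := (volume : Measure ℂ)), Complex.finrank_real_complex,
      setIntegral_congr_fun measurableSet_Ioi h3, setIntegral_indicator measurableSet_Ici,
      inter_eq_right.2 hsub, integral_Ici_eq_integral_Ioi, h5, Measure.real, Complex.volume_ball]
    simp
    ring

/-- the Hörmander condition -/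
lemma hormander {b : ℂ → ℂ} (hb : Test b) {c : ℂ} {r : ℝ} (hr : 0 < r)
    (hsupp : ∀ w, w ∉ closedBall c r → b w = 0) (hint : ∫ w, b w = 0) :
    ∫⁻ z in (ball c (2 * r))ᶜ, ENNReal.ofReal ‖Beu b z‖ ≤ ENNReal.ofReal (13 * ∫ w, ‖b w‖) := by
  have hI : 0 ≤ ∫ w, ‖b w‖ := integral_nonneg fun _ => norm_nonneg _
  obtain ⟨k1, k2⟩ := kernel3 (s := 2 * r) (by positivity)
  set K : ℂ → ℝ := (ball (0 : ℂ) (2 * r))ᶜ.indicator fun z : ℂ => (‖z‖ ^ 3)⁻¹ with hK
  have hKnn : ∀ z, 0 ≤ K z := fun z => indicator_nonneg (fun _ _ => by positivity) _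
  have k1' : Integrable (fun z => 4 * r * (∫ w, ‖b w‖) * K (z - c)) :=
    (k1.comp_sub_right c).const_mul _
  calc ∫⁻ z in (ball c (2 * r))ᶜ, ENNReal.ofReal ‖Beu b z‖
      ≤ ∫⁻ z in (ball c (2 * r))ᶜ, ENNReal.ofReal (4 * r * (∫ w, ‖b w‖) * K (z - c)) := by
        refine setLIntegral_mono' measurableSet_ball.compl fun z hz => ?_
        refine ENNReal.ofReal_le_ofReal ?_
        have hz' : 2 * r ≤ ‖z - c‖ := by
          rw [mem_compl_iff, mem_ball, dist_eq_norm, not_lt] at hz
          exact hz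
        have hmem : z - c ∈ (ball (0 : ℂ) (2 * r))ᶜ := by
          rw [mem_compl_iff, mem_ball, dist_zero_right, not_lt]
          exact hz'
        rw [hK, indicator_of_mem hmem]
        exact Beu_bound hb hr hsupp hint hz'
    _ ≤ ∫⁻ z, ENNReal.ofReal (4 * r * (∫ w, ‖b w‖) * K (z - c)) := setLIntegral_le_lintegral _ _
    _ = ENNReal.ofReal (∫ z, 4 * r * (∫ w, ‖b w‖) * K (z - c)) := by
        rw [ofReal_integral_eq_lintegral_ofReal k1']
        exact Eventually.of_forall fun z => by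
          have := hKnn (z - c)
          positivity
    _ ≤ _ := by
        refine ENNReal.ofReal_le_ofReal ?_
        rw [integral_const_mul, integral_sub_right_eq_self (μ := volume) K c, hK, k2]
        have : 4 * r * (∫ w, ‖b w‖) * (2 * Real.pi / (2 * r)) = 4 * Real.pi * ∫ w, ‖b w‖ := by
          field_simp
        rw [this]
        have := Real.pi_lt_d2
        gcongr
        linarith

end CZ

end Pool.Agent.Lib.MP_1707ab_an
end

section
/-!
Problem MP_1707ab_an, module WEAK-CZ, part 2: mollification.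
-/
set_option autoImplicit false

open MeasureTheory Complex Set Filter Topology Metric
open scoped ContDiff Convolution ENNReal

namespace Pool.Agent.Lib.MP_1707ab_an

namespace CZ

open CauAux

/-- mollification -/
noncomputable def mol (φ : ContDiffBump (0 : ℂ)) (h : ℂ → ℂ) : ℂ → ℂ :=
  (φ.normed volume) ⋆[ContinuousLinearMap.lsmul ℝ ℝ, volume] h

variable (φ : ContDiffBump (0 : ℂ))

lemma mol_support {h : ℂ → ℂ} {c : ℂ} {r : ℝ} (hs : ∀ w, w ∉ closedBall c r → h w = 0) :
    ∀ w, w ∉ closedBall c (r + φ.rOut) → mol φ h w = 0 := by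
  intro w hw
  rw [mol, convolution_def]
  refine integral_eq_zero_of_ae (Eventually.of_forall fun t => ?_)
  simp only [ContinuousLinearMap.lsmul_apply, Pi.zero_apply]
  by_cases ht : t ∈ ball (0 : ℂ) φ.rOut
  · rw [hs (w - t), smul_zero]
    intro h'
    apply hw
    rw [mem_closedBall, dist_eq_norm] at h' ⊢
    rw [mem_ball, dist_zero_right] at ht
    calc ‖w - c‖ = ‖(w - t - c) + t‖ := by congr 1; ring
      _ ≤ ‖w - t - c‖ + ‖t‖ := norm_add_le _ _
      _ ≤ r + φ.rOut := by linarith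
  · have : φ.normed volume t = 0 := by
      by_contra h0
      have : t ∈ Function.support (φ.normed (volume : Measure ℂ)) := h0
      rw [φ.support_normed_eq] at this
      exact ht this
    rw [this, zero_smul]

lemma hasCompactSupport_of {h : ℂ → ℂ} {c : ℂ} {r : ℝ} (hs : ∀ w, w ∉ closedBall c r → h w = 0) :
    HasCompactSupport h :=
  HasCompactSupport.intro (isCompact_closedBall c r) hs

lemma test_mol {h : ℂ → ℂ} (hi : Integrable h) {c : ℂ} {r : ℝ}
    (hs : ∀ w, w ∉ closedBall c r → h w = 0) : Test (mol φ h) := by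
  refine ⟨?_, hasCompactSupport_of (mol_support φ hs)⟩
  exact φ.hasCompactSupport_normed.contDiff_convolution_left (n := ⊤) _ φ.contDiff_normed
    hi.locallyIntegrable

lemma mol_exists {h : ℂ → ℂ} (hi : LocallyIntegrable h) :
    ConvolutionExists (φ.normed volume) h (ContinuousLinearMap.lsmul ℝ ℝ) volume :=
  φ.hasCompactSupport_normed.convolutionExists_left _ φ.continuous_normed hi

lemma integral_mol {h : ℂ → ℂ} (hi : Integrable h) : ∫ z, mol φ h z = ∫ z, h z := by
  rw [mol, integral_convolution _ φ.integrable_normed hi, φ.integral_normed]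
  simp

lemma mol_sup {h : ℂ → ℂ} (hm : AEStronglyMeasurable h volume) {T : ℝ} (hT : 0 ≤ T)
    (hh : ∀ w, ‖h w‖ ≤ T) (z : ℂ) : ‖mol φ h z‖ ≤ T := by
  have := dist_convolution_le (μ := (volume : Measure ℂ)) (f := φ.normed volume) (g := h)
    (x₀ := z) (R := φ.rOut) (ε := T) (z₀ := 0) hT φ.support_normed_eq.subset φ.nonneg_normed
    φ.integral_normed hm (fun w _ => by rw [dist_zero_right]; exact hh w)
  rwa [dist_zero_right] at this

lemma mol_add {g h : ℂ → ℂ} (hg : LocallyIntegrable g) (hh : LocallyIntegrable h) :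
    mol φ (fun w => g w + h w) = fun w => mol φ g w + mol φ h w := by
  have := (mol_exists φ hg).distrib_add (mol_exists φ hh)
  funext w
  exact congrFun this w

lemma mol_zero : mol φ (fun _ => 0) = fun _ => 0 := by
  funext w
  rw [mol, convolution_def]
  simp

lemma mol_sum {ι : Type} (s : Finset ι) {b : ι → ℂ → ℂ} (hb : ∀ i ∈ s, Integrable (b i)) :
    mol φ (fun w => ∑ i ∈ s, b i w) = fun w => ∑ i ∈ s, mol φ (b i) w := by
  classical
  induction s using Finset.induction_on with
  | empty => simpa using mol_zero φ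
  | insert i s hi ih =>
    simp only [Finset.sum_insert hi]
    have hs : Integrable (fun w => ∑ j ∈ s, b j w) :=
      integrable_finsetSum _ fun j hj => hb j (Finset.mem_insert_of_mem hj)
    rw [mol_add φ (hb i (Finset.mem_insert_self _ _)).locallyIntegrable hs.locallyIntegrable,
      ih fun j hj => hb j (Finset.mem_insert_of_mem hj)]

lemma integral_norm_mol {h : ℂ → ℂ} (hi : Integrable h) {c : ℂ} {r : ℝ}
    (hs : ∀ w, w ∉ closedBall c r → h w = 0) : ∫ z, ‖mol φ h z‖ ≤ ∫ z, ‖h z‖ := by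
  have h1 : ∫ z, ((φ.normed volume) ⋆[ContinuousLinearMap.lsmul ℝ ℝ, volume] fun w => ‖h w‖) z
      = ∫ z, ‖h z‖ := by
    rw [integral_convolution _ φ.integrable_normed hi.norm, φ.integral_normed]
    simp
  rw [← h1]
  have hint : Integrable ((φ.normed volume) ⋆[ContinuousLinearMap.lsmul ℝ ℝ, volume]
      fun w => ‖h w‖) :=
    Integrable.integrable_convolution _ φ.integrable_normed hi.norm
  refine integral_mono (test_mol φ hi hs).integrable.norm hint ?_
  intro z
  simp only
  rw [mol, convolution_def, convolution_def]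
  refine (norm_integral_le_integral_norm _).trans (le_of_eq ?_)
  refine integral_congr_ae (Eventually.of_forall fun t => ?_)
  simp only [ContinuousLinearMap.lsmul_apply, norm_smul, smul_eq_mul]
  rw [Real.norm_of_nonneg (φ.nonneg_normed t)]

lemma mol_close {h : ℂ → ℂ} (hc : Continuous h) (hs : HasCompactSupport h) {η : ℝ} (hη : 0 < η) :
    ∃ δ : ℝ, 0 < δ ∧ ∀ φ : ContDiffBump (0 : ℂ), φ.rOut ≤ δ → ∀ z, ‖mol φ h z - h z‖ ≤ η := by
  have hu := hs.uniformContinuous_of_continuous hc
  obtain ⟨δ, hδ, H⟩ := Metric.uniformContinuous_iff.1 hu η hη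
  refine ⟨δ, hδ, fun φ hφ z => ?_⟩
  rw [← dist_eq_norm]
  refine φ.dist_normed_convolution_le hc.aestronglyMeasurable fun w hw => ?_
  rw [mem_ball] at hw
  exact (H (hw.trans_le hφ)).le

lemma fderiv_mol {g : ℂ → ℂ} (hg : Test g) (z v : ℂ) :
    fderiv ℝ (mol φ g) z v = mol φ (fun w => fderiv ℝ g w v) z := by
  have h1 := hg.2.hasFDerivAt_convolution_right (ContinuousLinearMap.lsmul ℝ ℝ)
    (μ := (volume : Measure ℂ)) (f := φ.normed volume)
    φ.integrable_normed.locallyIntegrable (hg.1.of_le (by exact_mod_cast le_top)) z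
  rw [mol, h1.fderiv]
  exact convolution_precompR_apply _ φ.integrable_normed.locallyIntegrable (hg.2.fderiv ℝ)
    (hg.1.continuous_fderiv (by simp)) z v

lemma mol_smul (c : ℂ) (h : ℂ → ℂ) : mol φ (fun w => c * h w) = fun w => c * mol φ h w := by
  funext z
  rw [mol, mol, convolution_def, convolution_def, ← integral_const_mul]
  refine integral_congr_ae (Eventually.of_forall fun t => ?_)
  simp only [ContinuousLinearMap.lsmul_apply, Complex.real_smul]
  ring

lemma dz_mol {g : ℂ → ℂ} (hg : Test g) : dz (mol φ g) = mol φ (dz g) := by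
  funext z
  have h2 : dz g = fun w => (1 / 2 : ℂ) * fderiv ℝ g w 1 + (-I / 2) * fderiv ℝ g w I := by
    funext w
    rw [dz]
    ring
  have t1 := test_fderiv hg 1
  have t2 := test_fderiv hg I
  rw [h2, mol_add φ (t1.const_mul _).integrable.locallyIntegrable
    (t2.const_mul _).integrable.locallyIntegrable, mol_smul, mol_smul, dz, fderiv_mol φ hg,
    fderiv_mol φ hg]
  ring

lemma Cau_bound {h : ℂ → ℂ} {R η : ℝ} (hη : 0 ≤ η) (hh : ∀ w, ‖h w‖ ≤ η)
    (hs : ∀ w, w ∉ ball (0 : ℂ) R → h w = 0) (z : ℂ) : ‖Cau h z‖ ≤ 3 * |R| * η := by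
  have h1 : ‖∫ w, h w / (z - w)‖ ≤ ∫ w, (ball (0 : ℂ) R).indicator (fun w => η * ‖w - z‖⁻¹) w := by
    refine norm_integral_le_of_norm_le ?_ (Eventually.of_forall fun w => ?_)
    · exact (integrable_indicator_iff measurableSet_ball).2 ((integrableOn_ker R z).const_mul η)
    · by_cases hw : w ∈ ball (0 : ℂ) R
      · rw [indicator_of_mem hw, norm_div, div_eq_mul_inv, norm_sub_rev]
        exact mul_le_mul_of_nonneg_right (hh w) (by positivity)
      · rw [hs w hw, indicator_of_notMem hw]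
        simp
  rw [integral_indicator measurableSet_ball, integral_const_mul] at h1
  have h2 := integral_ker_le R z
  rw [Cau, norm_mul, norm_inv, Complex.norm_real, Real.norm_of_nonneg Real.pi_pos.le,
    inv_mul_le_iff₀ Real.pi_pos]
  calc ‖∫ w, h w / (z - w)‖ ≤ η * (3 * Real.pi * |R|) := h1.trans (by gcongr)
    _ = _ := by ring

/-- the Beurling transforms of the mollifications converge uniformly -/
lemma Beu_close {Z : ℂ → ℂ} (hZ : Test Z) {η : ℝ} (hη : 0 < η) :
    ∃ δ : ℝ, 0 < δ ∧ ∀ φ : ContDiffBump (0 : ℂ), φ.rOut ≤ δ → ∀ z,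
      ‖Beu (mol φ Z) z - Beu Z z‖ ≤ η := by
  obtain ⟨R, hR0, hR⟩ := (hZ.dz.2.isCompact.isBounded).subset_closedBall_lt 0 (0 : ℂ)
  have hs : ∀ w, w ∉ closedBall (0 : ℂ) R → dz Z w = 0 := fun w hw =>
    image_eq_zero_of_notMem_tsupport fun h => hw (hR h)
  obtain ⟨δ, hδ, H⟩ := mol_close hZ.dz.continuous hZ.dz.2
    (show 0 < η / (3 * (R + 2)) by positivity)
  refine ⟨min δ 1, lt_min hδ one_pos, fun φ hφ z => ?_⟩
  have h1 := H φ (hφ.trans (min_le_left _ _))
  have hφ1 : φ.rOut ≤ 1 := hφ.trans (min_le_right _ _)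
  have h2 : Beu (mol φ Z) z - Beu Z z = Cau (fun w => mol φ (dz Z) w - dz Z w) z := by
    have t1 := test_mol φ hZ.dz.integrable hs
    have i1 := integrable_integrand t1.continuous t1.2 z
    have i2 := integrable_integrand hZ.dz.continuous hZ.dz.2 z
    rw [Beu, Beu, dz_mol φ hZ, Cau, Cau, Cau, ← mul_sub, ← integral_sub i1 i2]
    congr 1
    refine integral_congr_ae (Eventually.of_forall fun w => ?_)
    simp only
    rw [sub_div]
  rw [h2]
  refine (Cau_bound (R := R + 2) (by positivity) h1 ?_ z).trans (le_of_eq ?_)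
  · intro w hw
    rw [mem_ball, dist_zero_right, not_lt] at hw
    have e1 : w ∉ closedBall (0 : ℂ) R := by
      rw [mem_closedBall, dist_zero_right]
      linarith
    have e2 : w ∉ closedBall (0 : ℂ) (R + φ.rOut) := by
      rw [mem_closedBall, dist_zero_right]
      linarith
    rw [hs w e1, mol_support φ hs w e2, sub_zero]
  · rw [abs_of_pos (by linarith)]
    field_simp

end CZ

end Pool.Agent.Lib.MP_1707ab_an
end

section
/-!
Problem MP_1707ab_an, module WEAK-CZ, part 4: weak type (1,1) of the Beurling transform and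
Kolmogorov's inequality.
-/
set_option autoImplicit false

open MeasureTheory Complex Set Filter Topology Metric
open scoped ContDiff ENNReal

namespace Pool.Agent.Lib.MP_1707ab_an

namespace CZ

lemma cheb {f : ℂ → ℝ} (hf : Measurable f) {ε J : ℝ} (hε : 0 < ε)
    (h : ∫⁻ z, ENNReal.ofReal (f z) ≤ ENNReal.ofReal J) :
    volume {z | ε < f z} ≤ ENNReal.ofReal (J / ε) := by
  have h1 : {z | ε < f z} ⊆ {z | ENNReal.ofReal ε ≤ ENNReal.ofReal (f z)} := fun z hz =>
    ENNReal.ofReal_le_ofReal (le_of_lt hz)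
  refine (measure_mono h1).trans ?_
  refine (meas_ge_le_lintegral_div hf.ennreal_ofReal.aemeasurable
    (by rw [ne_eq, ENNReal.ofReal_eq_zero, not_le]; exact hε) ENNReal.ofReal_ne_top).trans ?_
  rw [ENNReal.ofReal_div_of_pos hε]
  gcongr

lemma exists_lower {ι : Type} (s : Finset ι) {r : ι → ℝ} (hr : ∀ i, 0 < r i) :
    ∃ ε : ℝ, 0 < ε ∧ ∀ i ∈ s, ε ≤ r i := by
  classical
  induction s using Finset.induction_on with
  | empty => exact ⟨1, one_pos, by simp⟩
  | insert i s _ ih =>
    obtain ⟨ε, hε, h⟩ := ih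
    refine ⟨min ε (r i), lt_min hε (hr i), fun j hj => ?_⟩
    rcases Finset.mem_insert.1 hj with rfl | hj
    · exact min_le_right _ _
    · exact (min_le_left _ _).trans (h j hj)

/-- the decomposition of a test function -/
lemma exists_full {Z : ℂ → ℂ} (hZ : Test Z) {s : ℝ} (hs : 0 < s) :
    ∃ (Q : Set ℂ) (_ : CZD Z s Q) (R : ℝ), MeasurableSet Q ∧ Q.indicator Z = Z ∧
      Q ⊆ closedBall 0 R := by
  obtain ⟨R, hR0, hR⟩ := (hZ.2.isCompact.isBounded).subset_closedBall_lt 0 (0 : ℂ)
  have hI : 0 ≤ ∫ z, ‖Z z‖ := integral_nonneg fun _ => norm_nonneg _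
  set L : ℝ := R + 1 + (∫ z, ‖Z z‖) / s with hL
  have hIs : 0 ≤ (∫ z, ‖Z z‖) / s := by positivity
  have hL1 : 1 ≤ L := by linarith
  have hLR : R < L := by linarith
  have hu := hZ.2.uniformContinuous_of_continuous hZ.continuous
  obtain ⟨δ₀, hδ₀, hδ⟩ := Metric.uniformContinuous_iff.1 hu s hs
  obtain ⟨N, hN⟩ := pow_unbounded_of_one_lt (2 * L * (2 * L) / (δ₀ / 4) ^ 2) one_lt_two
  have harea : 2 * L * (2 * L) ≤ 2 ^ N * (δ₀ / 4) ^ 2 := by
    rw [div_lt_iff₀ (by positivity)] at hN
    exact hN.le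
  have hint : ∫ z in Rc (-L) (-L) (2 * L) (2 * L), ‖Z z‖ ≤ s * (2 * L * (2 * L)) := by
    calc ∫ z in Rc (-L) (-L) (2 * L) (2 * L), ‖Z z‖ ≤ ∫ z, ‖Z z‖ :=
          setIntegral_le_integral hZ.integrable.norm (Eventually.of_forall fun _ => norm_nonneg _)
      _ ≤ s * L := by
          have h1 : (∫ z, ‖Z z‖) / s ≤ L := by linarith
          rwa [div_le_iff₀' hs] at h1
      _ ≤ s * (2 * L * (2 * L)) := by
          gcongr
          nlinarith
  obtain ⟨D⟩ := exists_dec hZ.integrable hs (show 0 < δ₀ / 4 by positivity)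
    (fun z w h => by
      have := hδ (a := z) (b := w) (lt_of_le_of_lt h (by linarith))
      rw [dist_eq_norm] at this
      exact this.le) N (-L) (-L) (2 * L) (2 * L) (by positivity) (by positivity) (by linarith)
    (by linarith) harea hint
  refine ⟨_, D, 3 * L, measurableSet_Rc _ _ _ _, ?_, ?_⟩
  · rw [indicator_eq_self]
    intro z hz
    have h1 := hR (subset_tsupport Z hz)
    rw [mem_closedBall, dist_zero_right] at h1
    have h2 := abs_le.1 (abs_re_le_norm z)
    have h3 := abs_le.1 (abs_im_le_norm z)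
    exact ⟨⟨by linarith, by linarith⟩, ⟨by linarith, by linarith⟩⟩
  · rintro z ⟨⟨h1, h2⟩, ⟨h3, h4⟩⟩
    rw [mem_closedBall, dist_zero_right]
    have h5 := norm_le_abs_re_add_abs_im z
    have h6 : |z.re| ≤ L := abs_le.2 ⟨by linarith, by linarith⟩
    have h7 : |z.im| ≤ L := abs_le.2 ⟨by linarith, by linarith⟩
    linarith

/-- the weak type estimate at height `2 s` -/
lemma weak_aux (hL2 : SpecL2) {Z : ℂ → ℂ} (hZ : Test Z) {s : ℝ} (hs : 0 < s) :
    volume {z | 2 * s < ‖Beu Z z‖} ≤ ENNReal.ofReal (111 * (∫ z, ‖Z z‖) / s) := by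
  have hI : 0 ≤ ∫ z, ‖Z z‖ := integral_nonneg fun _ => norm_nonneg _
  obtain ⟨Q, D, R, hQm, hQZ, hQR⟩ := exists_full hZ hs
  let _ := D.fin
  have hIQ : ∫ z in Q, ‖Z z‖ ≤ ∫ z, ‖Z z‖ :=
    setIntegral_le_integral hZ.integrable.norm (Eventually.of_forall fun _ => norm_nonneg _)
  obtain ⟨δ₁, hδ₁, hclose⟩ := Beu_close hZ hs
  obtain ⟨δ₂, hδ₂, hlow⟩ := exists_lower (Finset.univ : Finset D.ι) D.r_pos
  set ε : ℝ := min δ₁ δ₂ with hε
  have hε0 : 0 < ε := lt_min hδ₁ hδ₂
  let φ : ContDiffBump (0 : ℂ) := ⟨ε / 2, ε, by positivity, by linarith⟩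
  have hφ : φ.rOut = ε := rfl
  have hgs : ∀ w, w ∉ closedBall (0 : ℂ) R → D.g w = 0 := fun w hw =>
    D.g_zero w fun h => hw (hQR h)
  have tg : Test (mol φ D.g) := test_mol φ D.gi hgs
  have tb : ∀ i, Test (mol φ (D.b i)) := fun i => test_mol φ (D.bi i) (D.b_zero i)
  -- the decomposition of the mollification
  have hdec : mol φ Z = fun w => mol φ D.g w + ∑ i, mol φ (D.b i) w := by
    have h1 : Z = fun w => D.g w + ∑ i, D.b i w := by
      funext w
      rw [← D.eq w, hQZ]
    conv_lhs => rw [h1]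
    rw [mol_add φ D.gi.locallyIntegrable
      (integrable_finsetSum _ fun i _ => D.bi i).locallyIntegrable,
      mol_sum φ _ fun i _ => D.bi i]
  have hB : ∀ z, Beu (mol φ Z) z = Beu (mol φ D.g) z + ∑ i, Beu (mol φ (D.b i)) z := by
    intro z
    rw [hdec, Beu_add tg (test_sum _ fun i _ => tb i), Beu_sum _ fun i _ => tb i]
  -- the exceptional function
  set K : D.ι → ℂ → ℝ := fun i =>
    (ball (D.c i) (4 * D.r i))ᶜ.indicator fun z => ‖Beu (mol φ (D.b i)) z‖ with hK
  have hKm : ∀ i, Measurable (K i) := fun i =>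
    (continuous_Beu (tb i)).norm.measurable.indicator measurableSet_ball.compl
  have hK0 : ∀ i z, 0 ≤ K i z := fun i z => indicator_nonneg (fun _ _ => norm_nonneg _) _
  have hincl : {z | 2 * s < ‖Beu Z z‖} ⊆
      ({z | (s / 2) ^ 2 < ‖Beu (mol φ D.g) z‖ ^ 2} ∪ ⋃ i ∈ (Finset.univ : Finset D.ι),
        ball (D.c i) (4 * D.r i)) ∪ {z | s / 2 < ∑ i, K i z} := by
    intro z hz
    by_contra hcon
    rw [mem_union, mem_union, not_or, not_or] at hcon
    obtain ⟨⟨h1, h2⟩, h3⟩ := hcon
    have hz' : 2 * s < ‖Beu Z z‖ := hz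
    have h1' : ‖Beu (mol φ D.g) z‖ ≤ s / 2 := by
      by_contra h
      push Not at h
      exact h1 (pow_lt_pow_left₀ h (by positivity) two_ne_zero)
    have h3' : ∑ i, K i z ≤ s / 2 := not_lt.1 h3
    have h4 : ∀ i, ‖Beu (mol φ (D.b i)) z‖ = K i z := by
      intro i
      have h5 : z ∈ (ball (D.c i) (4 * D.r i))ᶜ := by
        intro h
        exact h2 (mem_iUnion₂.2 ⟨i, Finset.mem_univ _, h⟩)
      simp only [hK]
      rw [indicator_of_mem h5]
    have h5 : ‖Beu (mol φ Z) z‖ ≤ s := by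
      rw [hB z]
      calc ‖Beu (mol φ D.g) z + ∑ i, Beu (mol φ (D.b i)) z‖
          ≤ ‖Beu (mol φ D.g) z‖ + ∑ i, ‖Beu (mol φ (D.b i)) z‖ :=
            (norm_add_le _ _).trans (add_le_add le_rfl (norm_sum_le _ _))
        _ ≤ s / 2 + s / 2 := by
            refine add_le_add h1' ?_
            simp only [h4]
            exact h3'
        _ = s := by ring
    have h6 := hclose φ (hφ.le.trans (min_le_left _ _)) z
    have h7 : ‖Beu Z z‖ ≤ ‖Beu (mol φ Z) z‖ + ‖Beu (mol φ Z) z - Beu Z z‖ := by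
      calc ‖Beu Z z‖ = ‖Beu (mol φ Z) z - (Beu (mol φ Z) z - Beu Z z)‖ := by congr 1; ring
        _ ≤ _ := norm_sub_le _ _
    linarith
  -- (a) the good part
  have ha : volume {z | (s / 2) ^ 2 < ‖Beu (mol φ D.g) z‖ ^ 2}
      ≤ ENNReal.ofReal (8 * (∫ z, ‖Z z‖) / s) := by
    have i1 : Integrable (fun z => ‖Beu (mol φ D.g) z‖ ^ 2) := (hL2 _ tg).1
    have i2 : ∫ z, ‖Beu (mol φ D.g) z‖ ^ 2 ≤ ∫ z, ‖mol φ D.g z‖ ^ 2 := (hL2 _ tg).2
    have h1 : ∫ z, ‖mol φ D.g z‖ ^ 2 ≤ 2 * s * ∫ z, ‖Z z‖ := by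
      calc ∫ z, ‖mol φ D.g z‖ ^ 2 ≤ ∫ z, 2 * s * ‖mol φ D.g z‖ := by
            refine integral_mono_of_nonneg (Eventually.of_forall fun _ => by positivity)
              (tg.integrable.norm.const_mul _) (Eventually.of_forall fun z => ?_)
            have h2 := mol_sup φ D.gi.1 (by positivity) D.g_le z
            simp only
            rw [sq]
            exact mul_le_mul_of_nonneg_right h2 (norm_nonneg _)
        _ = 2 * s * ∫ z, ‖mol φ D.g z‖ := integral_const_mul _ _
        _ ≤ 2 * s * ∫ z, ‖Z z‖ :=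
            mul_le_mul_of_nonneg_left
              ((integral_norm_mol φ D.gi hgs).trans (D.g_int.trans hIQ)) (by positivity)
    have h3 := cheb (f := fun z => ‖Beu (mol φ D.g) z‖ ^ 2)
      ((continuous_Beu tg).norm.pow 2).measurable (show 0 < (s / 2) ^ 2 by positivity)
      (J := 2 * s * ∫ z, ‖Z z‖) (by
        rw [← ofReal_integral_eq_lintegral_ofReal i1 (Eventually.of_forall fun _ => by positivity)]
        exact ENNReal.ofReal_le_ofReal (i2.trans h1))
    refine h3.trans (le_of_eq ?_)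
    congr 1
    field_simp
    ring
  -- (b) the exceptional discs
  have hb : volume (⋃ i ∈ (Finset.univ : Finset D.ι), ball (D.c i) (4 * D.r i))
      ≤ ENNReal.ofReal (51 * (∫ z, ‖Z z‖) / s) := by
    refine (measure_biUnion_finset_le _ _).trans ?_
    have h1 : ∀ i, volume (ball (D.c i) (4 * D.r i)) = ENNReal.ofReal (16 * Real.pi * D.r i ^ 2) := by
      intro i
      have hr := D.r_pos i
      rw [Complex.volume_ball, ← ENNReal.ofReal_pow (by positivity)]
      have : ((NNReal.pi : NNReal) : ℝ≥0∞) = ENNReal.ofReal Real.pi := by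
        rw [ENNReal.ofReal, ← NNReal.coe_real_pi, Real.toNNReal_coe]
      rw [this, ← ENNReal.ofReal_mul (by positivity)]
      congr 1
      ring
    simp only [h1]
    rw [← ENNReal.ofReal_sum_of_nonneg (fun i _ => by positivity)]
    refine ENNReal.ofReal_le_ofReal ?_
    rw [← Finset.mul_sum]
    have h2 := D.r_sum
    have h3 : (∫ z in Q, ‖Z z‖) / s ≤ (∫ z, ‖Z z‖) / s := by gcongr
    have h4 : 0 ≤ (∫ z, ‖Z z‖) / s := by positivity
    have h5 : 16 * Real.pi ≤ 51 := by
      have := Real.pi_lt_d2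
      linarith
    calc 16 * Real.pi * ∑ i, D.r i ^ 2 ≤ 16 * Real.pi * ((∫ z, ‖Z z‖) / s) := by
          gcongr
          exact h2.trans h3
      _ ≤ 51 * ((∫ z, ‖Z z‖) / s) := by gcongr
      _ = _ := by ring
  -- (c) the bad part
  have hc : volume {z | s / 2 < ∑ i, K i z} ≤ ENNReal.ofReal (52 * (∫ z, ‖Z z‖) / s) := by
    have h1 : ∫⁻ z, ENNReal.ofReal (∑ i, K i z) ≤ ENNReal.ofReal (26 * ∫ z, ‖Z z‖) := by
      have h2 : ∀ z, ENNReal.ofReal (∑ i, K i z) = ∑ i, ENNReal.ofReal (K i z) := fun z =>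
        ENNReal.ofReal_sum_of_nonneg fun i _ => hK0 i z
      simp only [h2]
      rw [lintegral_finsetSum _ fun i _ => (hKm i).ennreal_ofReal]
      have h3 : ∀ i, ∫⁻ z, ENNReal.ofReal (K i z) ≤ ENNReal.ofReal (13 * ∫ z, ‖D.b i z‖) := by
        intro i
        have hr := D.r_pos i
        have h4 : ∀ z, ENNReal.ofReal (K i z) = (ball (D.c i) (4 * D.r i))ᶜ.indicator
            (fun z => ENNReal.ofReal ‖Beu (mol φ (D.b i)) z‖) z := by
          intro z
          simp only [hK]
          by_cases hz : z ∈ (ball (D.c i) (4 * D.r i))ᶜ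
          · rw [indicator_of_mem hz, indicator_of_mem hz]
          · rw [indicator_of_notMem hz, indicator_of_notMem hz, ENNReal.ofReal_zero]
        simp only [h4]
        rw [lintegral_indicator measurableSet_ball.compl]
        have h5 := hormander (tb i) (c := D.c i) (r := 2 * D.r i) (by positivity) (by
          intro w hw
          refine mol_support φ (D.b_zero i) w fun h => hw ?_
          rw [mem_closedBall] at h ⊢
          have h6 : φ.rOut ≤ D.r i := (hφ.le.trans (min_le_right _ _)).trans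
            (hlow i (Finset.mem_univ _))
          linarith) (by rw [integral_mol φ (D.bi i), D.b_int i])
        rw [show 2 * (2 * D.r i) = 4 * D.r i by ring] at h5
        refine h5.trans (ENNReal.ofReal_le_ofReal ?_)
        have := integral_norm_mol φ (D.bi i) (D.b_zero i)
        linarith
      refine (Finset.sum_le_sum fun i _ => h3 i).trans ?_
      rw [← ENNReal.ofReal_sum_of_nonneg (fun i _ => by
        have : 0 ≤ ∫ z, ‖D.b i z‖ := integral_nonneg fun _ => norm_nonneg _
        positivity), ← Finset.mul_sum]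
      refine ENNReal.ofReal_le_ofReal ?_
      have := D.b_sum
      linarith
    refine (cheb (Finset.measurable_sum _ fun i _ => hKm i) (show 0 < s / 2 by positivity)
      h1).trans (le_of_eq ?_)
    congr 1
    field_simp
    ring
  calc volume {z | 2 * s < ‖Beu Z z‖} ≤ _ := measure_mono hincl
    _ ≤ (volume {z | (s / 2) ^ 2 < ‖Beu (mol φ D.g) z‖ ^ 2}
        + volume (⋃ i ∈ (Finset.univ : Finset D.ι), ball (D.c i) (4 * D.r i)))
        + volume {z | s / 2 < ∑ i, K i z} :=
        (measure_union_le _ _).trans (add_le_add (measure_union_le _ _) le_rfl)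
    _ ≤ (ENNReal.ofReal (8 * (∫ z, ‖Z z‖) / s) + ENNReal.ofReal (51 * (∫ z, ‖Z z‖) / s))
        + ENNReal.ofReal (52 * (∫ z, ‖Z z‖) / s) := add_le_add (add_le_add ha hb) hc
    _ = _ := by
        rw [← ENNReal.ofReal_add (by positivity) (by positivity),
          ← ENNReal.ofReal_add (by positivity) (by positivity)]
        congr 1
        ring

end CZ

open CZ in
/-- weak type (1,1), from the `L^2` contraction -/
theorem specWeak (hL2 : SpecL2) : SpecWeak := by
  refine ⟨222, by norm_num, fun Z hZ t ht => ?_⟩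
  have h := weak_aux hL2 hZ (half_pos ht)
  rw [show 2 * (t / 2) = t by ring] at h
  refine h.trans (le_of_eq ?_)
  congr 1
  field_simp
  ring

/-- Kolmogorov's inequality -/
theorem specKol (hW : SpecWeak) : SpecKol := by
  obtain ⟨C, hC, H⟩ := hW
  intro R
  set v : ℝ := volume.real (ball (0 : ℂ) R) with hv
  have hv0 : 0 ≤ v := measureReal_nonneg
  have hvol : volume (ball (0 : ℂ) R) = ENNReal.ofReal v := by
    rw [hv, measureReal_def, ENNReal.ofReal_toReal measure_ball_lt_top.ne]
  refine ⟨v + C, by positivity, fun Z hZ => ?_⟩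
  have hI : 0 ≤ ∫ z, ‖Z z‖ := integral_nonneg fun _ => norm_nonneg _
  set J : ℝ := ∫ z, ‖Z z‖ with hJ
  set F : ℂ → ℝ := fun z => ‖Cau (dz Z) z‖ ^ (1 / 2 : ℝ) with hF
  have hFc : Continuous F :=
    (specCauSmooth _ hZ.dz).continuous.norm.rpow_const fun _ => Or.inr (by norm_num)
  have hF0 : ∀ z, 0 ≤ F z := fun z => Real.rpow_nonneg (norm_nonneg _) _
  have key : ∀ s : ℝ, 0 < s → ∫ z in ball (0 : ℂ) R, F z ≤ v * s + C * J / s := by
    intro s hs
    have h0 : 0 ≤ v * s + C * J / s := by positivity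
    rw [integral_eq_lintegral_of_nonneg_ae (Eventually.of_forall hF0) hFc.aestronglyMeasurable]
    refine ENNReal.toReal_le_of_le_ofReal h0 ?_
    rw [lintegral_eq_lintegral_meas_lt _ (Eventually.of_forall hF0) hFc.aemeasurable]
    have hsplit : Ioi (0 : ℝ) = Ioc 0 s ∪ Ioi s := (Ioc_union_Ioi_eq_Ioi hs.le).symm
    rw [hsplit, lintegral_union measurableSet_Ioi
      (by rw [Set.disjoint_left]; intro x hx hx'; exact absurd hx.2 (not_le.2 hx')),
      ENNReal.ofReal_add (by positivity) (by positivity)]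
    refine add_le_add ?_ ?_
    · calc ∫⁻ t in Ioc 0 s, (volume.restrict (ball (0 : ℂ) R)) {a | t < F a}
          ≤ ∫⁻ _ in Ioc 0 s, ENNReal.ofReal v := by
            refine lintegral_mono fun t => ?_
            refine (measure_mono (subset_univ _)).trans ?_
            rw [Measure.restrict_apply_univ, hvol]
        _ = ENNReal.ofReal (v * s) := by
            rw [setLIntegral_const, Real.volume_Ioc, sub_zero, ← ENNReal.ofReal_mul hv0]
    · have h2 : IntegrableOn (fun t : ℝ => C * J * t ^ (-2 : ℝ)) (Ioi s) :=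
        (integrableOn_Ioi_rpow_of_lt (by norm_num) hs).const_mul _
      calc ∫⁻ t in Ioi s, (volume.restrict (ball (0 : ℂ) R)) {a | t < F a}
          ≤ ∫⁻ t in Ioi s, ENNReal.ofReal (C * J * t ^ (-2 : ℝ)) := by
            refine setLIntegral_mono' measurableSet_Ioi fun t ht => ?_
            have ht0 : 0 < t := hs.trans ht
            refine (Measure.restrict_apply_le _ _).trans ?_
            have h3 : {a | t < F a} ⊆ {a | t ^ 2 < ‖Cau (dz Z) a‖} := by
              intro a ha
              have ha' : t < F a := ha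
              have h4 : F a ^ 2 = ‖Cau (dz Z) a‖ := by
                simp only [hF]
                rw [← Real.sqrt_eq_rpow, Real.sq_sqrt (norm_nonneg _)]
              show t ^ 2 < ‖Cau (dz Z) a‖
              rw [← h4]
              exact pow_lt_pow_left₀ ha' ht0.le two_ne_zero
            refine (measure_mono h3).trans ((H Z hZ (t ^ 2) (by positivity)).trans ?_)
            refine ENNReal.ofReal_le_ofReal (le_of_eq ?_)
            rw [Real.rpow_neg ht0.le, show (2 : ℝ) = ((2 : ℕ) : ℝ) by norm_num, Real.rpow_natCast,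
              div_eq_mul_inv]
        _ = ENNReal.ofReal (∫ t in Ioi s, C * J * t ^ (-2 : ℝ)) := by
            rw [ofReal_integral_eq_lintegral_ofReal h2]
            refine (ae_restrict_mem measurableSet_Ioi).mono fun t ht => ?_
            have ht0 : 0 < t := hs.trans ht
            simp only [Pi.zero_apply]
            positivity
        _ = ENNReal.ofReal (C * J / s) := by
            rw [integral_const_mul, integral_Ioi_rpow_of_lt (by norm_num) hs,
              show (-2 : ℝ) + 1 = -1 by norm_num, Real.rpow_neg_one]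
            congr 1
            field_simp
  show ∫ z in ball (0 : ℂ) R, F z ≤ (v + C) * J ^ (1 / 2 : ℝ)
  rw [← Real.sqrt_eq_rpow]
  rcases hI.eq_or_lt with h0 | h0
  · rw [← h0, Real.sqrt_zero, mul_zero]
    refine le_of_forall_pos_le_add fun η hη => ?_
    have h1 := key (η / (v + 1)) (by positivity)
    rw [← h0, mul_zero, zero_div, add_zero] at h1
    have h2 : v * (η / (v + 1)) ≤ η := by
      rw [mul_div_assoc', div_le_iff₀ (by positivity)]
      nlinarith
    linarith
  · have hs : 0 < Real.sqrt J := Real.sqrt_pos.2 h0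
    have h1 := key (Real.sqrt J) hs
    have h2 : C * J / Real.sqrt J = C * Real.sqrt J := by
      rw [mul_div_assoc, Real.div_sqrt]
    rw [h2] at h1
    linarith

end Pool.Agent.Lib.MP_1707ab_an
end

section
/-!
Module COMP: compactness of the Cauchy transform on `L^1`, in terms of finitely many continuous
functionals.
-/
set_option autoImplicit false

open MeasureTheory Complex Set Filter Topology Metric
open scoped ContDiff Convolution

namespace Pool.Agent.Lib.MP_1707ab_an

/-- truncated Cauchy kernel -/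
noncomputable def Comp.kap (d : ℝ) (z : ℂ) : ℂ :=
  (starRingEnd ℂ) z / ((max (‖z‖ ^ 2) (d ^ 2) : ℝ) : ℂ)

/-- the majorant of the error of the truncation -/
noncomputable def Comp.ker (d : ℝ) (z : ℂ) : ℝ := (Iio d).indicator (fun y => y⁻¹) ‖z‖

open _root_.Pool.Agent.Lib.MP_1707ab_an.Comp

lemma Comp.ker_nonneg (d : ℝ) (z : ℂ) : 0 ≤ ker d z := by
  unfold ker
  exact indicator_apply_nonneg fun _ => by positivity

lemma Comp.kap_continuous {d : ℝ} (hd : 0 < d) : Continuous (kap d) := by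
  unfold kap
  refine Continuous.div continuous_conj ?_ ?_
  · fun_prop
  · intro z
    rw [Ne, ofReal_eq_zero]
    have : 0 < max (‖z‖ ^ 2) (d ^ 2) := lt_max_of_lt_right (by positivity)
    exact this.ne'

lemma Comp.kap_sub {d : ℝ} (hd : 0 < d) (z : ℂ) : ‖z⁻¹ - kap d z‖ ≤ ker d z := by
  unfold kap ker
  by_cases h : ‖z‖ < d
  · rw [indicator_of_mem (show ‖z‖ ∈ Iio d from h)]
    have hm : max (‖z‖ ^ 2) (d ^ 2) = d ^ 2 :=
      max_eq_right (pow_le_pow_left₀ (norm_nonneg _) h.le 2)
    rw [hm]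
    rcases eq_or_ne z 0 with rfl | hz
    · simp
    have hz' : 0 < ‖z‖ := norm_pos_iff.2 hz
    have e : z⁻¹ - (starRingEnd ℂ) z / ((d ^ 2 : ℝ) : ℂ) =
        (starRingEnd ℂ) z * (((‖z‖ ^ 2)⁻¹ - (d ^ 2)⁻¹ : ℝ) : ℂ) := by
      rw [inv_def, normSq_eq_norm_sq]
      push_cast
      ring
    rw [e, norm_mul, norm_conj, norm_real, Real.norm_of_nonneg]
    · calc ‖z‖ * ((‖z‖ ^ 2)⁻¹ - (d ^ 2)⁻¹) ≤ ‖z‖ * (‖z‖ ^ 2)⁻¹ := by
            refine mul_le_mul_of_nonneg_left ?_ hz'.le
            have : 0 < (d ^ 2)⁻¹ := by positivity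
            linarith
        _ = ‖z‖⁻¹ := by field_simp
    · rw [sub_nonneg]
      exact inv_anti₀ (by positivity) (pow_le_pow_left₀ (norm_nonneg _) h.le 2)
  · rw [indicator_of_notMem (show ‖z‖ ∉ Iio d from h)]
    rw [not_lt] at h
    have hm : max (‖z‖ ^ 2) (d ^ 2) = ‖z‖ ^ 2 :=
      max_eq_left (pow_le_pow_left₀ hd.le h 2)
    rw [hm]
    have e : z⁻¹ - (starRingEnd ℂ) z / ((‖z‖ ^ 2 : ℝ) : ℂ) = 0 := by
      rw [inv_def, normSq_eq_norm_sq]
      push_cast
      ring
    rw [e, norm_zero]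

lemma Comp.ker_aux (d : ℝ) : EqOn (fun y : ℝ => y ^ (Module.finrank ℝ ℂ - 1) •
    (Iio d).indicator (fun y => y⁻¹) y) ((Ioo 0 d).indicator fun _ => (1 : ℝ)) (Ioi 0) := by
  intro y hy
  simp only [mem_Ioi] at hy
  rw [finrank_real_complex]
  by_cases h : y < d
  · simp only [show 2 - 1 = 1 from rfl, pow_one, smul_eq_mul]
    rw [indicator_of_mem (show y ∈ Iio d from h), indicator_of_mem (show y ∈ Ioo 0 d from ⟨hy, h⟩),
      mul_inv_cancel₀ hy.ne']
  · simp only
    rw [indicator_of_notMem (show y ∉ Iio d from h),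
      indicator_of_notMem (show y ∉ Ioo 0 d from fun h' => h h'.2), smul_zero]

lemma Comp.ker_integrable (d : ℝ) : Integrable (ker d) := by
  unfold ker
  rw [integrable_fun_norm_addHaar (volume : Measure ℂ) (f := (Iio d).indicator fun y => y⁻¹),
    integrableOn_congr_fun (ker_aux d) measurableSet_Ioi]
  refine IntegrableOn.mono_set ?_ (subset_univ _)
  rw [integrableOn_univ, integrable_indicator_iff measurableSet_Ioo]
  exact integrableOn_const (by simp) (by simp)

lemma Comp.ker_integral {d : ℝ} (hd : 0 ≤ d) : ∫ z, ker d z = 2 * Real.pi * d := by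
  unfold ker
  rw [integral_fun_norm_addHaar (volume : Measure ℂ) ((Iio d).indicator fun y => y⁻¹),
    setIntegral_congr_fun measurableSet_Ioi (ker_aux d),
    setIntegral_indicator measurableSet_Ioo, inter_eq_right.2 Ioo_subset_Ioi_self,
    finrank_real_complex]
  simp only [setIntegral_const, Real.volume_real_Ioo_of_le hd, measureReal_def, volume_ball]
  simp
  ring

lemma Comp.continuous_mul {V : Set ℂ} (hV : IsOpen V) {G Z : ℂ → ℂ} (hG : ContinuousOn G V)
    (hZ : Test Z) (hs : tsupport Z ⊆ V) : Continuous fun w => G w * Z w := by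
  refine continuous_iff_continuousAt.2 fun z => ?_
  by_cases hz : z ∈ tsupport Z
  · exact (hG.continuousAt (hV.mem_nhds (hs hz))).mul hZ.continuous.continuousAt
  · have h := notMem_tsupport_iff_eventuallyEq.1 hz
    have : (fun z => G z * Z z) =ᶠ[𝓝 z] fun _ => 0 := by
      filter_upwards [h] with w hw
      rw [hw]
      simp
    exact continuousAt_const.congr this.symm

theorem specComp : SpecComp := by
  intro X hX V hV hVX G hG R ε hε
  rcases le_or_gt R 0 with hR | hR
  · refine ⟨0, fun _ _ => 0, fun j => j.elim0, fun Z _ _ _ => ?_⟩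
    rw [ball_eq_empty.2 hR]
    simp only [Measure.restrict_empty, integral_zero_measure]
    positivity
  obtain ⟨M₀, hM₀⟩ := hX.exists_bound_of_continuousOn hG
  set M : ℝ := max M₀ 0 + 1 with hM
  have hMpos : 0 < M := by positivity
  have hGM : ∀ w ∈ X, ‖G w‖ ≤ M := fun w hw =>
    (hM₀ w hw).trans ((le_max_left _ _).trans (by rw [hM]; linarith))
  set d : ℝ := ε / (4 * M) with hd
  have hdpos : 0 < d := by positivity
  set η : ℝ := ε / (2 * R ^ 2 * M) with hη
  have hηpos : 0 < η := by positivity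
  -- uniform continuity of the truncated kernel
  obtain ⟨δ, hδ, hδu⟩ : ∃ δ > 0, ∀ z ∈ closedBall (0 : ℂ) R, ∀ z' ∈ closedBall (0 : ℂ) R,
      dist z z' < δ → ∀ w ∈ X, ‖kap d (z - w) - kap d (z' - w)‖ ≤ η := by
    have hK : IsCompact ((fun p : ℂ × ℂ => p.1 - p.2) '' (closedBall (0 : ℂ) R ×ˢ X)) :=
      ((isCompact_closedBall _ _).prod hX).image (by fun_prop)
    have hu := hK.uniformContinuousOn_of_continuous (kap_continuous hdpos).continuousOn
    rw [Metric.uniformContinuousOn_iff] at hu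
    obtain ⟨δ, hδ, h⟩ := hu η hηpos
    refine ⟨δ, hδ, fun z hz z' hz' hzz w hw => ?_⟩
    rw [← dist_eq_norm]
    refine (h (z - w) ⟨(z, w), ⟨hz, hw⟩, rfl⟩ (z' - w) ⟨(z', w), ⟨hz', hw⟩, rfl⟩ ?_).le
    rwa [dist_sub_right]
  obtain ⟨t, htsub, htfin, htcov⟩ := (isCompact_closedBall (0 : ℂ) R).finite_cover_balls hδ
  have hφ : ∀ c : ℂ, ContinuousOn (fun w => G w * kap d (c - w)) X := fun c =>
    hG.mul ((kap_continuous hdpos).comp (by fun_prop)).continuousOn
  let T := htfin.toFinset
  refine ⟨T.card, fun j w => G w * kap d ((T.equivFin.symm j : ℂ) - w), fun j => hφ _, ?_⟩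
  intro Z hZ hZV hZ0
  have hZ0' : ∀ c ∈ t, ∫ w, G w * kap d (c - w) * Z w = 0 := by
    intro c hc
    have := hZ0 (T.equivFin ⟨c, htfin.mem_toFinset.2 hc⟩)
    simpa using this
  have hZX : ∀ w, w ∉ X → Z w = 0 := fun w hw =>
    image_eq_zero_of_notMem_tsupport fun h => hw (hVX (hZV h))
  set F : ℂ → ℂ := fun w => G w * Z w with hF
  have hFc : Continuous F := continuous_mul hV (hG.mono hVX) hZ hZV
  have hFcs : HasCompactSupport F := hZ.2.mul_left
  have hFi : Integrable F := hFc.integrable_of_hasCompactSupport hFcs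
  have hFM : ∀ w, ‖F w‖ ≤ M * ‖Z w‖ := by
    intro w
    simp only [hF, norm_mul]
    by_cases hw : w ∈ X
    · exact mul_le_mul_of_nonneg_right (hGM w hw) (norm_nonneg _)
    · rw [hZX w hw, norm_zero, mul_zero, mul_zero]
  set J : ℝ := ∫ w, ‖Z w‖ with hJ
  have hJ0 : 0 ≤ J := integral_nonneg fun _ => norm_nonneg _
  set conv : ℂ → ℝ := (fun w => ‖F w‖) ⋆[ContinuousLinearMap.mul ℝ ℝ, volume] (ker d) with hconv
  have hconvi : Integrable conv := hFi.norm.integrable_convolution _ (ker_integrable d)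
  have hconvI : ∫ z, conv z = (∫ w, ‖F w‖) * (2 * Real.pi * d) := by
    rw [hconv, integral_convolution _ hFi.norm (ker_integrable d), ker_integral hdpos.le]
    rfl
  have hconv0 : ∀ z, 0 ≤ conv z := by
    intro z
    simp only [hconv, convolution_def, ContinuousLinearMap.mul_apply']
    exact integral_nonneg fun w => mul_nonneg (norm_nonneg _) (ker_nonneg _ _)
  have hae := Integrable.ae_convolution_exists (ContinuousLinearMap.mul ℝ ℝ) hFi.norm
    (ker_integrable d)
  -- pointwise bound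
  have hpt : ∀ᵐ z ∂(volume.restrict (ball (0 : ℂ) R)),
      ‖Cau F z‖ ≤ Real.pi⁻¹ * (conv z + M * η * J) := by
    rw [ae_restrict_iff' measurableSet_ball]
    filter_upwards [hae] with z hz hzR
    obtain ⟨c, hct, hzc⟩ : ∃ c ∈ t, z ∈ ball c δ := by
      have := htcov (ball_subset_closedBall hzR)
      simpa using this
    have hA : Integrable fun w => F w * ((z - w)⁻¹ - kap d (z - w)) := by
      refine Integrable.mono' hz ?_ ?_
      · refine (hFc.measurable.mul ?_).aestronglyMeasurable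
        exact ((measurable_const.sub measurable_id).inv).sub
          ((kap_continuous hdpos).measurable.comp (measurable_const.sub measurable_id))
      · refine Eventually.of_forall fun w => ?_
        rw [norm_mul]
        exact mul_le_mul_of_nonneg_left (kap_sub hdpos _) (norm_nonneg _)
    have hB : ∀ c, Integrable fun w => F w * kap d (c - w) := fun c =>
      (hFc.mul ((kap_continuous hdpos).comp (by fun_prop))).integrable_of_hasCompactSupport
        hFcs.mul_right
    have hBc : ∫ w, F w * kap d (c - w) = 0 := by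
      rw [← hZ0' c hct]
      refine integral_congr_ae (Eventually.of_forall fun w => ?_)
      simp only [hF]
      ring
    have e1 : ∫ w, F w / (z - w) = (∫ w, F w * ((z - w)⁻¹ - kap d (z - w))) +
        ∫ w, (F w * kap d (z - w) - F w * kap d (c - w)) := by
      rw [integral_sub (hB z) (hB c), hBc, sub_zero, ← integral_add hA (hB z)]
      refine integral_congr_ae (Eventually.of_forall fun w => ?_)
      simp only
      ring
    have b1 : ‖∫ w, F w * ((z - w)⁻¹ - kap d (z - w))‖ ≤ conv z := by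
      refine (norm_integral_le_of_norm_le hz (Eventually.of_forall fun w => ?_))
      rw [norm_mul]
      exact mul_le_mul_of_nonneg_left (kap_sub hdpos _) (norm_nonneg _)
    have b2 : ‖∫ w, (F w * kap d (z - w) - F w * kap d (c - w))‖ ≤ M * η * J := by
      rw [hJ, ← integral_const_mul]
      refine norm_integral_le_of_norm_le (hZ.integrable.norm.const_mul _)
        (Eventually.of_forall fun w => ?_)
      rw [← mul_sub, norm_mul]
      by_cases hw : w ∈ X
      · calc ‖F w‖ * ‖kap d (z - w) - kap d (c - w)‖ ≤ (M * ‖Z w‖) * η := by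
              refine mul_le_mul (hFM w) ?_ (norm_nonneg _) (by positivity)
              exact hδu z (ball_subset_closedBall hzR) c (htsub hct) hzc w hw
          _ = M * η * ‖Z w‖ := by ring
      · simp only [hF]
        rw [hZX w hw]
        simp
    unfold Cau
    rw [norm_mul, norm_inv, norm_real, Real.norm_of_nonneg Real.pi_pos.le, e1]
    refine mul_le_mul_of_nonneg_left ((norm_add_le _ _).trans (add_le_add b1 b2)) (by positivity)
  have hvol : volume.real (ball (0 : ℂ) R) = Real.pi * R ^ 2 := by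
    rw [measureReal_def, Complex.volume_ball]
    simp [hR.le]
    ring
  have hFJ : ∫ w, ‖F w‖ ≤ M * J := by
    rw [hJ, ← integral_const_mul]
    exact integral_mono hFi.norm (hZ.integrable.norm.const_mul _) hFM
  calc ∫ z in ball (0 : ℂ) R, ‖Cau F z‖
      ≤ ∫ z in ball (0 : ℂ) R, Real.pi⁻¹ * (conv z + M * η * J) := by
        refine integral_mono_of_nonneg (Eventually.of_forall fun _ => norm_nonneg _) ?_ hpt
        refine (hconvi.integrableOn.add ?_).const_mul _
        exact integrableOn_const measure_ball_lt_top.ne enorm_ne_top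
    _ = Real.pi⁻¹ * ((∫ z in ball (0 : ℂ) R, conv z) + M * η * J * (Real.pi * R ^ 2)) := by
        rw [integral_const_mul, integral_add hconvi.integrableOn
          (integrableOn_const measure_ball_lt_top.ne enorm_ne_top), setIntegral_const, hvol, smul_eq_mul]
        ring
    _ ≤ Real.pi⁻¹ * ((M * J) * (2 * Real.pi * d) + M * η * J * (Real.pi * R ^ 2)) := by
        refine mul_le_mul_of_nonneg_left (add_le_add ?_ le_rfl) (by positivity)
        refine (setIntegral_le_integral hconvi (Eventually.of_forall hconv0)).trans ?_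
        rw [hconvI]
        exact mul_le_mul_of_nonneg_right hFJ (by positivity)
    _ = ε * J := by
        rw [hd, hη]
        have := Real.pi_pos.ne'
        field_simp
        ring

end Pool.Agent.Lib.MP_1707ab_an
end

section
/-!
Module HOLO: sup bound of a holomorphic function by its `L^(1/2)` size (Hardy–Littlewood), and the
mean value property on discs.
-/
set_option autoImplicit false

open MeasureTheory Complex Set Filter Topology Metric
open scoped ContDiff

namespace Pool.Agent.Lib.MP_1707ab_an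

/-- mean value property of holomorphic functions on a disc -/
lemma Holo.mean {H : ℂ → ℂ} {c : ℂ} {ρ : ℝ} (hρ : 0 < ρ)
    (hH : ∀ z ∈ closedBall c ρ, DifferentiableAt ℂ H z) :
    ∫ z in ball c ρ, H z = ((Real.pi * ρ ^ 2 : ℝ) : ℂ) * H c := by
  have hmem : ∀ (s θ : ℝ), 0 ≤ s → (circleMap c s θ ∈ ball c ρ ↔ s < ρ) := by
    intro s θ hs
    rw [mem_ball, dist_eq, circleMap_sub_center, norm_circleMap_zero, abs_of_nonneg hs]
  have hcont : ContinuousOn (fun p : ℝ × ℝ => p.1 • H (circleMap c p.1 p.2))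
      (Icc 0 ρ ×ˢ Icc (-Real.pi) Real.pi) := by
    refine continuousOn_fst.smul ?_
    have h1 : ContinuousOn H (closedBall c ρ) :=
      fun z hz => (hH z hz).continuousAt.continuousWithinAt
    refine h1.comp ?_ ?_
    · unfold circleMap
      fun_prop
    · rintro ⟨s, θ⟩ ⟨hs, -⟩
      simp only [mem_Icc] at hs
      rw [mem_closedBall, dist_eq, circleMap_sub_center, norm_circleMap_zero, abs_of_nonneg hs.1]
      exact hs.2
  have hint : IntegrableOn (fun p : ℝ × ℝ => p.1 • H (circleMap c p.1 p.2))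
      (Ioo 0 ρ ×ˢ Ioo (-Real.pi) Real.pi) (volume.prod volume) :=
    (hcont.integrableOn_compact (isCompact_Icc.prod isCompact_Icc)).mono_set
      (prod_mono Ioo_subset_Icc_self Ioo_subset_Icc_self)
  have hcirc : ∀ s ∈ Ioo (0 : ℝ) ρ, ∫ θ in Ioo (-Real.pi) Real.pi, s • H (circleMap c s θ) =
      ((2 * Real.pi * s : ℝ) : ℂ) * H c := by
    intro s hs
    have h1 : Real.circleAverage H c s = H c := by
      apply DiffContOnCl.circleAverage
      rw [abs_of_pos hs.1]
      refine DifferentiableOn.diffContOnCl ?_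
      rw [closure_ball c hs.1.ne']
      exact fun z hz => (hH z (closedBall_subset_closedBall hs.2.le hz)).differentiableWithinAt
    rw [Real.circleAverage_def] at h1
    have h2 : ∫ θ in Ioo (-Real.pi) Real.pi, s • H (circleMap c s θ) =
        s • ∫ θ in (0 : ℝ)..(2 * Real.pi), H (circleMap c s θ) := by
      rw [integral_smul, ← integral_Ioc_eq_integral_Ioo,
        ← intervalIntegral.integral_of_le (by linarith [Real.pi_pos])]
      have hper : Function.Periodic (fun θ => H (circleMap c s θ)) (2 * Real.pi) :=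
        (periodic_circleMap c s).comp H
      have := hper.intervalIntegral_add_eq (-Real.pi) 0
      rw [zero_add, show -Real.pi + 2 * Real.pi = Real.pi by ring] at this
      rw [this]
    rw [h2]
    have h3 : ∫ θ in (0 : ℝ)..(2 * Real.pi), H (circleMap c s θ) = (2 * Real.pi) • H c := by
      rw [← h1, smul_smul, mul_inv_cancel₀ (by positivity), one_smul]
    rw [h3, smul_smul, real_smul]
    push_cast
    ring
  calc ∫ z in ball c ρ, H z = ∫ z, (ball c ρ).indicator H z :=
        (integral_indicator measurableSet_ball).symm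
    _ = ∫ z, (ball c ρ).indicator H (z + c) := (integral_add_right_eq_self _ c).symm
    _ = ∫ p in polarCoord.target, p.1 • (ball c ρ).indicator H (Complex.polarCoord.symm p + c) :=
        (Complex.integral_comp_polarCoord_symm _).symm
    _ = ∫ p in polarCoord.target, (Ioo (0 : ℝ) ρ ×ˢ Ioo (-Real.pi) Real.pi).indicator
          (fun p => p.1 • H (circleMap c p.1 p.2)) p := by
        refine setIntegral_congr_fun polarCoord.open_target.measurableSet ?_
        rintro ⟨s, θ⟩ ⟨hs, hθ⟩
        simp only [mem_Ioi] at hs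
        have e : Complex.polarCoord.symm (s, θ) + c = circleMap c s θ := by
          rw [Complex.polarCoord_symm_apply, circleMap, exp_mul_I]
          push_cast
          ring
        simp only [e]
        by_cases h : s < ρ
        · rw [indicator_of_mem ((hmem s θ hs.le).2 h), indicator_of_mem (show (s, θ) ∈ Ioo (0 : ℝ) ρ ×ˢ Ioo (-Real.pi) Real.pi from ⟨⟨hs, h⟩, hθ⟩)]
        · rw [indicator_of_notMem (fun h' => h ((hmem s θ hs.le).1 h')),
            indicator_of_notMem (fun h' => h h'.1.2), smul_zero]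
    _ = ∫ p in Ioo (0 : ℝ) ρ ×ˢ Ioo (-Real.pi) Real.pi, p.1 • H (circleMap c p.1 p.2) := by
        rw [setIntegral_indicator (measurableSet_Ioo.prod measurableSet_Ioo)]
        congr 2
        rw [inter_eq_right]
        exact prod_mono Ioo_subset_Ioi_self subset_rfl
    _ = ∫ s in Ioo (0 : ℝ) ρ, ∫ θ in Ioo (-Real.pi) Real.pi, s • H (circleMap c s θ) :=
        setIntegral_prod _ hint
    _ = ∫ s in Ioo (0 : ℝ) ρ, ((2 * Real.pi * s : ℝ) : ℂ) * H c :=
        setIntegral_congr_fun measurableSet_Ioo hcirc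
    _ = ((Real.pi * ρ ^ 2 : ℝ) : ℂ) * H c := by
        rw [← integral_Ioc_eq_integral_Ioo, ← intervalIntegral.integral_of_le hρ.le,
          intervalIntegral.integral_mul_const, intervalIntegral.integral_ofReal,
          intervalIntegral.integral_const_mul, integral_id]
        push_cast
        ring

theorem specHolo : SpecHolo := by
  refine ⟨64 / Real.pi, by positivity, ?_⟩
  intro H a r hr hH hint
  set F : ℂ → ℝ := fun w => ‖H w‖ * (r / 2 - ‖w - a‖) ^ 4 with hF
  have hsub : closedBall a (r / 2) ⊆ ball a r := closedBall_subset_ball (by linarith)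
  have hcont : ContinuousOn F (closedBall a (r / 2)) := by
    refine (hH.continuousOn.mono hsub).norm.mul ?_
    fun_prop
  obtain ⟨w0, hw0, hmax⟩ := (isCompact_closedBall a (r / 2)).exists_isMaxOn
    ⟨a, mem_closedBall_self (by linarith)⟩ hcont
  have hFa : F a = ‖H a‖ * (r / 2) ^ 4 := by simp [hF]
  have h1 : F a ≤ F w0 := hmax (mem_closedBall_self (by linarith))
  set I : ℝ := ∫ z in ball a r, ‖H z‖ ^ (1 / 2 : ℝ) with hI
  have hI0 : 0 ≤ I := integral_nonneg fun z => by positivity
  have hsq : ∀ x : ℝ, 0 ≤ x → x ^ (1 / 2 : ℝ) = √x := fun x _ => (Real.sqrt_eq_rpow x).symm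
  rcases (norm_nonneg (H a)).eq_or_lt with h0 | h0
  · rw [← h0, Real.zero_rpow (by norm_num)]
    positivity
  have hFpos : 0 < F w0 := lt_of_lt_of_le (by rw [hFa]; positivity) h1
  have hw0' : ‖w0 - a‖ ≤ r / 2 := by rw [← dist_eq]; exact hw0
  set d : ℝ := r / 2 - ‖w0 - a‖ with hd
  have hd0 : 0 < d := by
    rcases (sub_nonneg.2 hw0').eq_or_lt with h | h
    · exfalso
      rw [← hd] at h
      have : F w0 = 0 := by
        simp only [hF]
        rw [← hd, ← h]
        simp
      linarith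
    · exact h
  have hHw0 : 0 < ‖H w0‖ := by
    rcases (norm_nonneg (H w0)).eq_or_lt with h | h
    · exfalso
      have : F w0 = 0 := by
        simp only [hF]
        rw [← h]
        simp
      linarith
    · exact h
  have hρ : 0 < d / 2 := by linarith
  have hball : ∀ w ∈ closedBall w0 (d / 2), ‖w - a‖ ≤ r / 2 - d / 2 := by
    intro w hw
    have : ‖w - w0‖ ≤ d / 2 := by rw [← dist_eq]; exact hw
    calc ‖w - a‖ = ‖(w - w0) + (w0 - a)‖ := by congr 1; ring
      _ ≤ ‖w - w0‖ + ‖w0 - a‖ := norm_add_le _ _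
      _ ≤ d / 2 + (r / 2 - d) := by
        have : ‖w0 - a‖ = r / 2 - d := by rw [hd]; ring
        linarith
      _ = _ := by ring
  have hbr : closedBall w0 (d / 2) ⊆ ball a r := by
    intro w hw
    rw [mem_ball, dist_eq]
    have := hball w hw
    linarith
  have hbound : ∀ w ∈ closedBall w0 (d / 2), ‖H w‖ ≤ 16 * ‖H w0‖ := by
    intro w hw
    have h2 := hball w hw
    have h3 : F w ≤ F w0 := hmax (by rw [mem_closedBall, dist_eq]; linarith)
    simp only [hF] at h3
    rw [← hd] at h3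
    have h4 : (d / 2) ^ 4 ≤ (r / 2 - ‖w - a‖) ^ 4 := by
      apply pow_le_pow_left₀ hρ.le
      linarith
    have h5 : ‖H w‖ * (d / 2) ^ 4 ≤ ‖H w0‖ * d ^ 4 :=
      (mul_le_mul_of_nonneg_left h4 (norm_nonneg _)).trans h3
    have h6 : 0 < (d / 2) ^ 4 := by positivity
    have h7 : ‖H w0‖ * d ^ 4 = (16 * ‖H w0‖) * (d / 2) ^ 4 := by ring
    rw [h7] at h5
    exact le_of_mul_le_mul_right h5 h6
  have hmean := Holo.mean hρ (H := H) (c := w0) fun z hz =>
    hH.differentiableAt (isOpen_ball.mem_nhds (hbr hz))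
  -- the main estimate
  have hle : (Real.pi * (d / 2) ^ 2) * ‖H w0‖ ≤ (4 * √‖H w0‖) * I := by
    calc (Real.pi * (d / 2) ^ 2) * ‖H w0‖ = ‖∫ z in ball w0 (d / 2), H z‖ := by
          rw [hmean, norm_mul, norm_real, Real.norm_of_nonneg (by positivity)]
      _ ≤ ∫ z in ball w0 (d / 2), ‖H z‖ := norm_integral_le_integral_norm _
      _ ≤ ∫ z in ball w0 (d / 2), (4 * √‖H w0‖) * ‖H z‖ ^ (1 / 2 : ℝ) := by
          refine setIntegral_mono_on ?_ ?_ measurableSet_ball ?_
          · exact (((hH.continuousOn.mono hbr).norm).integrableOn_compact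
              (isCompact_closedBall _ _)).mono_set ball_subset_closedBall
          · exact (hint.mono_set (ball_subset_closedBall.trans hbr)).const_mul _
          · intro z hz
            rw [hsq _ (norm_nonneg _)]
            have h2 := hbound z (ball_subset_closedBall hz)
            have h3 : √‖H z‖ ≤ 4 * √‖H w0‖ := by
              have := Real.sqrt_le_sqrt h2
              rwa [Real.sqrt_mul (by norm_num), show (16 : ℝ) = 4 ^ 2 by norm_num,
                Real.sqrt_sq (by norm_num)] at this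
            calc ‖H z‖ = √‖H z‖ * √‖H z‖ := (Real.mul_self_sqrt (norm_nonneg _)).symm
              _ ≤ (4 * √‖H w0‖) * √‖H z‖ := by gcongr
      _ = (4 * √‖H w0‖) * ∫ z in ball w0 (d / 2), ‖H z‖ ^ (1 / 2 : ℝ) := integral_const_mul _ _
      _ ≤ (4 * √‖H w0‖) * I := by
          refine mul_le_mul_of_nonneg_left ?_ (by positivity)
          refine setIntegral_mono_set hint ?_ ?_
          · exact Eventually.of_forall fun z => by positivity
          · exact (ball_subset_closedBall.trans hbr).eventuallyLE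
  have hs0 : 0 < √‖H w0‖ := Real.sqrt_pos.2 hHw0
  have hle2 : Real.pi * (d ^ 2 * √‖H w0‖) ≤ 16 * I := by
    have h2 : ‖H w0‖ = √‖H w0‖ * √‖H w0‖ := (Real.mul_self_sqrt (norm_nonneg _)).symm
    have h3 : √‖H w0‖ * (Real.pi * (d ^ 2 * √‖H w0‖)) ≤ √‖H w0‖ * (16 * I) := by
      have : √‖H w0‖ * (Real.pi * (d ^ 2 * √‖H w0‖)) =
          4 * ((Real.pi * (d / 2) ^ 2) * (√‖H w0‖ * √‖H w0‖)) := by ring
      rw [this, ← h2]
      linarith
    exact le_of_mul_le_mul_left h3 hs0
  have hle3 : (r / 2) ^ 2 * √‖H a‖ ≤ d ^ 2 * √‖H w0‖ := by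
    have h2 : ‖H a‖ * (r / 2) ^ 4 ≤ ‖H w0‖ * d ^ 4 := by
      rw [← hFa]
      refine h1.trans (le_of_eq ?_)
      simp only [hF]
      rw [← hd]
    have h3 := Real.sqrt_le_sqrt h2
    rw [Real.sqrt_mul (norm_nonneg _), Real.sqrt_mul (norm_nonneg _),
      show (r / 2) ^ 4 = ((r / 2) ^ 2) ^ 2 by ring, show d ^ 4 = (d ^ 2) ^ 2 by ring,
      Real.sqrt_sq (by positivity), Real.sqrt_sq (by positivity)] at h3
    linarith
  rw [hsq _ (norm_nonneg _)]
  have h8 : Real.pi * ((r / 2) ^ 2 * √‖H a‖) ≤ 16 * I :=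
    (mul_le_mul_of_nonneg_left hle3 Real.pi_pos.le).trans hle2
  have h9 : 64 / Real.pi / r ^ 2 * I = 4 * (16 * I) / (Real.pi * r ^ 2) := by
    field_simp
    ring
  rw [h9, le_div_iff₀ (by positivity)]
  nlinarith

end Pool.Agent.Lib.MP_1707ab_an
end

section
/-!
Module LOCAL, part 1: the localized function `χ f`, its smoothness off `K = S ∩ tsupport χ` and
the continuous extension of `χ f` and `∂ (χ f)`.
-/
set_option autoImplicit false

open MeasureTheory Complex Set Filter Topology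
open scoped ContDiff

namespace Pool.Agent.Lib.MP_1707ab_an

variable {S : Set ℂ} {f χ : ℂ → ℂ}

lemma A1.contDiffOn (hS : IsClosed S) (hf : A1 S f) : ContDiffOn ℝ ∞ f Sᶜ := by
  have h : ContDiffOn ℂ ∞ f Sᶜ := hf.1.contDiffOn hS.isOpen_compl
  exact h.restrict_scalars ℝ

/-- `f` and `f'` have limits at each point of `S` (trivially so in the interior) -/
lemma A1.exists_tendsto (hf : A1 S f) {z : ℂ} (hz : z ∈ S) :
    (∃ y, Tendsto f (𝓝[Sᶜ] z) (𝓝 y)) ∧ (∃ y, Tendsto (deriv f) (𝓝[Sᶜ] z) (𝓝 y)) := by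
  by_cases h : z ∈ frontier S
  · exact hf.2 z h
  · have h2 : z ∈ interior S := by
      by_contra hc
      exact h ⟨subset_closure hz, hc⟩
    have h3 : 𝓝[Sᶜ] z = ⊥ := by
      rw [← not_neBot, ← mem_closure_iff_nhdsWithin_neBot, closure_compl]
      exact fun hc => hc h2
    rw [h3]
    exact ⟨⟨0, tendsto_bot⟩, ⟨0, tendsto_bot⟩⟩

lemma contDiffOn_g0 (hS : IsClosed S) (hf : A1 S f) (hχ : Test χ) :
    ContDiffOn ℝ ∞ (fun z => χ z * f z) (S ∩ tsupport χ)ᶜ := by
  intro z hz
  apply ContDiffAt.contDiffWithinAt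
  by_cases h : z ∈ tsupport χ
  · have hzS : z ∈ Sᶜ := fun hc => hz ⟨hc, h⟩
    exact hχ.1.contDiffAt.mul ((hf.contDiffOn hS).contDiffAt (hS.isOpen_compl.mem_nhds hzS))
  · have h1 := notMem_tsupport_iff_eventuallyEq.1 h
    have h2 : (fun z => χ z * f z) =ᶠ[𝓝 z] fun _ => 0 := by
      filter_upwards [h1] with w hw
      rw [hw]
      simp
    exact contDiffAt_const.congr_of_eventuallyEq h2

lemma compl_inter_tsupport : (S ∩ tsupport χ)ᶜ = Sᶜ ∪ (tsupport χ)ᶜ := compl_inter _ _

lemma tendsto_g0 (hf : A1 S f) (hχ : Test χ) {z : ℂ} (hz : z ∈ S) :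
    ∃ y, Tendsto (fun z => χ z * f z) (𝓝[(S ∩ tsupport χ)ᶜ] z) (𝓝 y) := by
  obtain ⟨⟨y, hy⟩, -⟩ := hf.exists_tendsto hz
  refine ⟨χ z * y, ?_⟩
  rw [compl_inter_tsupport, nhdsWithin_union]
  refine Tendsto.sup ((hχ.continuous.continuousAt.tendsto.mono_left nhdsWithin_le_nhds).mul hy) ?_
  by_cases h : z ∈ closure (tsupport χ)ᶜ
  · have h0 : χ z = 0 := by
      have : closure (tsupport χ)ᶜ ⊆ {w | χ w = 0} :=
        closure_minimal (fun w hw => image_eq_zero_of_notMem_tsupport hw)
          (isClosed_eq hχ.continuous continuous_const)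
      exact this h
    rw [h0, zero_mul]
    refine tendsto_const_nhds.congr' ?_
    filter_upwards [self_mem_nhdsWithin] with w hw
    rw [image_eq_zero_of_notMem_tsupport hw, zero_mul]
  · have : 𝓝[(tsupport χ)ᶜ] z = ⊥ := by
      rwa [mem_closure_iff_nhdsWithin_neBot, not_neBot] at h
    rw [this]
    exact tendsto_bot

lemma tendsto_g1 (hS : IsClosed S) (hf : A1 S f) (hχ : Test χ) {z : ℂ} (hz : z ∈ S) :
    ∃ y, Tendsto (dz (fun z => χ z * f z)) (𝓝[(S ∩ tsupport χ)ᶜ] z) (𝓝 y) := by
  obtain ⟨⟨y, hy⟩, ⟨y', hy'⟩⟩ := hf.exists_tendsto hz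
  refine ⟨dz χ z * y + χ z * y', ?_⟩
  have hdχ : Continuous (dz χ) := hχ.dz.continuous
  rw [compl_inter_tsupport, nhdsWithin_union]
  refine Tendsto.sup ?_ ?_
  · have h1 : Tendsto (fun w => dz χ w * f w + χ w * deriv f w) (𝓝[Sᶜ] z)
        (𝓝 (dz χ z * y + χ z * y')) :=
      ((hdχ.continuousAt.tendsto.mono_left nhdsWithin_le_nhds).mul hy).add
        ((hχ.continuous.continuousAt.tendsto.mono_left nhdsWithin_le_nhds).mul hy')
    refine h1.congr' ?_
    filter_upwards [self_mem_nhdsWithin] with w hw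
    have hfd : DifferentiableAt ℂ f w := hf.1.differentiableAt (hS.isOpen_compl.mem_nhds hw)
    rw [dz_mul (hχ.differentiable w) (hfd.restrictScalars ℝ), dz_eq_deriv hfd]
  by_cases h : z ∈ closure (tsupport χ)ᶜ
  · have h0 : χ z = 0 := by
      have : closure (tsupport χ)ᶜ ⊆ {w | χ w = 0} :=
        closure_minimal (fun w hw => image_eq_zero_of_notMem_tsupport hw)
          (isClosed_eq hχ.continuous continuous_const)
      exact this h
    have h0' : dz χ z = 0 := by
      have : closure (tsupport χ)ᶜ ⊆ {w | dz χ w = 0} :=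
        closure_minimal (fun w hw => image_eq_zero_of_notMem_tsupport
          (fun hc => hw (tsupport_dz χ hc))) (isClosed_eq hdχ continuous_const)
      exact this h
    rw [h0, h0', zero_mul, zero_mul, add_zero]
    refine tendsto_const_nhds.congr' ?_
    filter_upwards [self_mem_nhdsWithin] with w hw
    have h1 := notMem_tsupport_iff_eventuallyEq.1 hw
    have h2 : (fun z => χ z * f z) =ᶠ[𝓝 w] fun _ => 0 := by
      filter_upwards [h1] with w hw
      rw [hw]
      simp
    rw [dz_congr h2, dz_const]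
  · have : 𝓝[(tsupport χ)ᶜ] z = ⊥ := by
      rwa [mem_closure_iff_nhdsWithin_neBot, not_neBot] at h
    rw [this]
    exact tendsto_bot

/-- continuous extension from the complement of a closed set -/
lemma exists_extension {K : Set ℂ} {F : ℂ → ℂ} (hF : ContinuousOn F Kᶜ)
    (hlim : ∀ z ∈ K, ∃ y, Tendsto F (𝓝[Kᶜ] z) (𝓝 y)) :
    ∃ G : ℂ → ℂ, Continuous G ∧ EqOn G F Kᶜ := by
  have h1 : ContinuousOn (extendFrom Kᶜ F) (closure Kᶜ) := by
    refine continuousOn_extendFrom subset_rfl fun z hz => ?_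
    by_cases h : z ∈ K
    · exact hlim z h
    · exact ⟨F z, hF z h⟩
  obtain ⟨G, hG⟩ := ContinuousMap.exists_restrict_eq (isClosed_closure (s := Kᶜ))
    ⟨_, continuousOn_iff_continuous_domRestrict.1 h1⟩
  refine ⟨G, G.continuous, fun z hz => ?_⟩
  have h2 := congrArg (fun g => g ⟨z, subset_closure hz⟩) hG
  simp only [ContinuousMap.restrict_apply, ContinuousMap.coe_mk, Set.domRestrict_apply] at h2
  rw [h2]
  exact extendFrom_eq (subset_closure hz) (hF z hz)

/-- the product of a function continuous on an open set and a test function supported in it -/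
lemma Test.continuous_mul {V : Set ℂ} (hV : IsOpen V) {F φ : ℂ → ℂ} (hF : ContinuousOn F V)
    (hφ : Test φ) (hs : tsupport φ ⊆ V) : Continuous (fun z => F z * φ z) := by
  rw [continuous_iff_continuousAt]
  intro z
  by_cases hz : z ∈ tsupport φ
  · exact (hF.continuousAt (hV.mem_nhds (hs hz))).mul hφ.continuous.continuousAt
  · have h := notMem_tsupport_iff_eventuallyEq.1 hz
    have : (fun z => F z * φ z) =ᶠ[𝓝 z] fun _ => 0 := by
      filter_upwards [h] with w hw
      rw [hw]
      simp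
    exact continuousAt_const.congr this.symm

lemma Test.integrable_mul {V : Set ℂ} (hV : IsOpen V) {F φ : ℂ → ℂ} (hF : ContinuousOn F V)
    (hφ : Test φ) (hs : tsupport φ ⊆ V) : Integrable (fun z => F z * φ z) :=
  (Test.continuous_mul hV hF hφ hs).integrable_of_hasCompactSupport hφ.2.mul_left

end Pool.Agent.Lib.MP_1707ab_an
end
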